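import Mathlib

/-!
# MP_992633_an, numerical facts about the blocks
-/

open Finset

namespace RandSeq

/-- block endpoints -/
def NN (i : ℕ) : ℕ := 2 ^ (4 ^ i)

/-- blocks -/
def JJ (i : ℕ) : Finset ℕ := Finset.Ioc (NN i) (NN (i+1))

/-- number of summands in block `i` -/
noncomputable def kk (i : ℕ) : ℕ := ⌊(4:ℝ)^i / (1024 * Real.log (i+2))⌋₊

lemma NN_strictMono : StrictMono NN := by
  intro i j h
  unfold NN
  exact Nat.pow_lt_pow_right (by norm_num) (Nat.pow_lt_pow_right (by norm_num) h)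

lemma lt_NN (i : ℕ) : i < NN i := by
  unfold NN
  exact (Nat.lt_pow_self (by norm_num : 1 < 4)).trans (Nat.lt_pow_self (by norm_num : 1 < 2))

lemma NN_pos (i : ℕ) : 0 < NN i := by unfold NN; positivity

lemma JJ_disj (i j : ℕ) (h : i ≠ j) : Disjoint (JJ i) (JJ j) := by
  rw [Finset.disjoint_left]
  intro x hx hx'
  simp only [JJ, Finset.mem_Ioc] at hx hx'
  rcases lt_or_gt_of_ne h with h | h
  · have := NN_strictMono.monotone (by omega : i + 1 ≤ j)
    omega
  · have := NN_strictMono.monotone (by omega : j + 1 ≤ i)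
    omega

lemma log_NN (i : ℕ) : Real.log (NN i) = 4 ^ i * Real.log 2 := by
  unfold NN
  push_cast
  rw [Real.log_pow]
  push_cast
  ring

lemma log_two_gt : (0.693:ℝ) < Real.log 2 := by
  have := Real.log_two_gt_d9; linarith

lemma log_two_lt : Real.log 2 < (0.694:ℝ) := by
  have := Real.log_two_lt_d9; linarith

lemma loglog_NN (i : ℕ) : Real.log (Real.log (NN i)) = i * (2 * Real.log 2) + Real.log (Real.log 2) := by
  rw [log_NN, Real.log_mul (by positivity) (by have := log_two_gt; linarith)]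
  rw [Real.log_pow]
  have : Real.log 4 = 2 * Real.log 2 := by
    rw [show (4:ℝ) = 2^2 by norm_num, Real.log_pow]; norm_num
  rw [this]

lemma loglog_two_ge : (-0.45:ℝ) ≤ Real.log (Real.log 2) := by
  have h := Real.one_sub_inv_le_log_of_pos (x := Real.log 2) (by have := log_two_gt; linarith)
  have h2 : (Real.log 2)⁻¹ ≤ 1.45 := by
    rw [inv_le_comm₀ (by have := log_two_gt; linarith) (by norm_num)]
    have := log_two_gt
    norm_num at this ⊢
    linarith
  linarith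

lemma loglog_two_le : Real.log (Real.log 2) ≤ 0 := by
  apply Real.log_nonpos
  · have := log_two_gt; linarith
  · have := log_two_lt; linarith

/-- lower bound for sums of reciprocals -/
lemma sum_inv_ge {a b : ℕ} (hab : a ≤ b) :
    Real.log (b+1) - Real.log (a+1) ≤ ∑ n ∈ Finset.Ioc a b, (1:ℝ) / n := by
  induction b, hab using Nat.le_induction with
  | base => simp
  | succ b hab ih =>
    rw [← Finset.insert_Ioc_right_eq_Ioc_add_one hab, Finset.sum_insert (by simp)]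
    have h1 : Real.log ((b:ℝ)+1+1) - Real.log (b+1) ≤ 1/((b:ℝ)+1) := by
      rw [← Real.log_div (by positivity) (by positivity)]
      have h2 := Real.log_le_sub_one_of_pos (x := ((b:ℝ)+1+1)/(b+1)) (by positivity)
      refine h2.trans (le_of_eq ?_)
      field_simp
      ring
    push_cast
    linarith

/-- upper bound for sums of reciprocals -/
lemma sum_inv_le {b : ℕ} (hb : 1 ≤ b) :
    ∑ n ∈ Finset.Icc 1 b, (1:ℝ) / n ≤ 1 + Real.log b := by
  induction b, hb using Nat.le_induction with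
  | base => simp
  | succ b hb ih =>
    have hb0 : (0:ℝ) < b := by exact_mod_cast hb
    rw [← Finset.insert_Icc_right_eq_Icc_add_one (by omega), Finset.sum_insert (by simp)]
    have h1 : 1/((b:ℝ)+1) ≤ Real.log ((b:ℝ)+1) - Real.log b := by
      rw [← Real.log_div (by positivity) (by positivity)]
      have h2 := Real.one_sub_inv_le_log_of_pos (x := ((b:ℝ)+1)/b) (by positivity)
      refine le_trans (le_of_eq ?_) h2
      field_simp
      ring
    push_cast
    linarith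

section sigma

variable {σ : ℕ → ℝ} {n₀ : ℕ} (hσ : ∀ n, 1 ≤ n → 0 < σ n ∧ σ n ≤ 1)
  (hσ0 : ∀ n, n₀ ≤ n → σ n = Real.log (Real.log n) / n)

include hσ hσ0

lemma loglog_pos {n : ℕ} (hn : n₀ ≤ n) (hn1 : 1 ≤ n) :
    1 < Real.log n ∧ 0 < Real.log (Real.log n) := by
  have h := (hσ n hn1).1
  rw [hσ0 n hn] at h
  have hn' : (0:ℝ) < n := by exact_mod_cast hn1
  have h2 : 0 < Real.log (Real.log n) := by
    by_contra hneg
    have := div_nonpos_of_nonpos_of_nonneg (not_lt.1 hneg) hn'.le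
    linarith
  have hlog : 0 ≤ Real.log n := Real.log_nonneg (by exact_mod_cast hn1)
  refine ⟨?_, h2⟩
  by_contra h3
  have := Real.log_nonpos hlog (not_lt.1 h3)
  linarith

lemma sigma_le_sqrt {n : ℕ} (hn : n₀ ≤ n) (hn1 : 1 ≤ n) :
    σ n ≤ 2 / Real.sqrt n := by
  have hn' : (0:ℝ) < n := by exact_mod_cast hn1
  have hs : 0 < Real.sqrt n := Real.sqrt_pos.2 hn'
  rw [hσ0 n hn]
  have h1 : Real.log (Real.log n) ≤ Real.log n := by
    have h2 := (loglog_pos hσ hσ0 hn hn1).1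
    exact (Real.log_le_sub_one_of_pos (by linarith)).trans (by linarith)
  have h2 : Real.log n ≤ 2 * Real.sqrt n := by
    have h3 : Real.log n = 2 * Real.log (Real.sqrt n) := by
      rw [Real.log_sqrt hn'.le]; ring
    rw [h3]
    have := Real.log_le_sub_one_of_pos hs
    linarith
  rw [div_le_div_iff₀ hn' hs]
  have h4 : Real.sqrt n * Real.sqrt n = n := Real.mul_self_sqrt hn'.le
  nlinarith

lemma sigma_le {n m : ℕ} (hn : n₀ ≤ n) (hn1 : 1 ≤ n) (hnm : n ≤ m) :
    σ n ≤ Real.log (Real.log m) * (1 / n) := by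
  have hn' : (0:ℝ) < n := by exact_mod_cast hn1
  rw [hσ0 n hn, div_eq_mul_one_div]
  apply mul_le_mul_of_nonneg_right _ (by positivity)
  apply Real.log_le_log
  · have := (loglog_pos hσ hσ0 hn hn1).1; linarith
  · apply Real.log_le_log hn'
    exact_mod_cast hnm

lemma sigma_ge {n m : ℕ} (hm : n₀ ≤ m) (hm1 : 1 ≤ m) (hmn : m ≤ n) :
    Real.log (Real.log m) * (1 / n) ≤ σ n := by
  have hn' : (0:ℝ) < n := by exact_mod_cast hm1.trans hmn
  have hm' : (0:ℝ) < m := by exact_mod_cast hm1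
  rw [hσ0 n (hm.trans hmn), div_eq_mul_one_div (Real.log (Real.log n))]
  apply mul_le_mul_of_nonneg_right _ (by positivity)
  apply Real.log_le_log
  · have := (loglog_pos hσ hσ0 hm hm1).1; linarith
  · apply Real.log_le_log hm'
    exact_mod_cast hmn

lemma w_lower {i : ℕ} (hi : 2 ≤ i) (hi0 : n₀ ≤ i) :
    (i:ℝ) * 4^i ≤ ∑ n ∈ JJ i, σ n := by
  have hN0 : n₀ ≤ NN i := hi0.trans (lt_NN i).le
  have h1 : ∑ n ∈ JJ i, Real.log (Real.log (NN i)) * ((1:ℝ)/n) ≤ ∑ n ∈ JJ i, σ n := by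
    apply Finset.sum_le_sum
    intro n hn
    exact sigma_ge hσ hσ0 hN0 (NN_pos i) (Finset.mem_Ioc.1 hn).1.le
  refine le_trans ?_ h1
  rw [← Finset.mul_sum]
  have h2 := sum_inv_ge (NN_strictMono.monotone (Nat.le_succ i))
  have h3 : (4:ℝ)^i ≤ ∑ n ∈ JJ i, (1:ℝ)/n := by
    refine le_trans ?_ h2
    have e1 : Real.log (NN (i+1)) ≤ Real.log ((NN (i+1) : ℝ)+1) := by
      apply Real.log_le_log
      · exact_mod_cast NN_pos (i+1)
      · linarith
    have e2 : Real.log ((NN i:ℝ)+1) ≤ Real.log 2 + Real.log (NN i) := by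
      rw [← Real.log_mul (by norm_num) (by exact_mod_cast (NN_pos i).ne')]
      apply Real.log_le_log (by positivity)
      have : (1:ℝ) ≤ NN i := by exact_mod_cast NN_pos i
      linarith
    rw [log_NN] at e1 e2
    have h4 : (16:ℝ) ≤ 4^i := by
      calc (16:ℝ) = 4^2 := by norm_num
        _ ≤ 4^i := pow_le_pow_right₀ (by norm_num) hi
    have := log_two_gt
    rw [pow_succ] at e1
    simp only [Nat.succ_eq_add_one]
    nlinarith
  have h5 : (i:ℝ) ≤ Real.log (Real.log (NN i)) := by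
    rw [loglog_NN]
    have := loglog_two_ge
    have := log_two_gt
    have hi' : (2:ℝ) ≤ i := by exact_mod_cast hi
    nlinarith
  exact mul_le_mul h5 h3 (by positivity) ((Nat.cast_nonneg i).trans h5)

lemma W_upper {i : ℕ} (hi0 : n₀ ≤ i) :
    ∑ n ∈ Finset.Icc 1 (NN (i+1)), σ n ≤ n₀ + 6 * (i+1) * 4^i := by
  have hN0 : n₀ ≤ NN (i+1) := (hi0.trans (Nat.le_succ i)).trans (lt_NN (i+1)).le
  have h0 : ∀ n ∈ Finset.Icc 1 (NN (i+1)), σ n ≤
      (if n < n₀ then 1 else 0) + Real.log (Real.log (NN (i+1))) * ((1:ℝ)/n) := by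
    intro n hn
    have hn1 := (Finset.mem_Icc.1 hn).1
    have hnN := (Finset.mem_Icc.1 hn).2
    split_ifs with h
    · have h1 := (hσ n hn1).2
      have h2 := (loglog_pos hσ hσ0 hN0 (NN_pos _)).2
      have : (0:ℝ) ≤ 1/n := by positivity
      nlinarith
    · rw [zero_add]
      exact sigma_le hσ hσ0 (not_lt.1 h) hn1 hnN
  refine (Finset.sum_le_sum h0).trans ?_
  rw [Finset.sum_add_distrib, ← Finset.mul_sum]
  have h1 : ∑ n ∈ Finset.Icc 1 (NN (i+1)), (if n < n₀ then (1:ℝ) else 0) ≤ n₀ := by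
    rw [← Finset.sum_filter, Finset.sum_const, nsmul_eq_mul, mul_one]
    have : (Finset.filter (fun n => n < n₀) (Finset.Icc 1 (NN (i+1)))) ⊆ Finset.range n₀ := by
      intro x hx
      exact Finset.mem_range.2 (Finset.mem_filter.1 hx).2
    have := Finset.card_le_card this
    rw [Finset.card_range] at this
    exact_mod_cast this
  have h2 := sum_inv_le (NN_pos (i+1))
  have h3 : Real.log (Real.log (NN (i+1))) ≤ 1.4 * (i+1) := by
    rw [loglog_NN]
    have := loglog_two_le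
    have := log_two_lt
    push_cast
    have : (0:ℝ) ≤ i := Nat.cast_nonneg i
    nlinarith
  have h4 : ∑ n ∈ Finset.Icc 1 (NN (i+1)), (1:ℝ)/n ≤ 4 * 4^i := by
    refine h2.trans ?_
    rw [log_NN, pow_succ]
    have := log_two_lt
    have h5 : (1:ℝ) ≤ 4^i := one_le_pow₀ (by norm_num)
    nlinarith
  have h6 : 0 ≤ ∑ n ∈ Finset.Icc 1 (NN (i+1)), (1:ℝ)/n :=
    Finset.sum_nonneg (fun n _ => by positivity)
  have h7 : Real.log (Real.log (NN (i+1))) * ∑ n ∈ Finset.Icc 1 (NN (i+1)), (1:ℝ)/n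
      ≤ (1.4 * (i+1)) * (4 * 4^i) := by
    apply mul_le_mul h3 h4 h6
    positivity
  have h8 : (0:ℝ) ≤ (i+1) * 4^i := by positivity
  nlinarith

lemma w_upper {i : ℕ} (hi0 : n₀ ≤ i) :
    ∑ n ∈ JJ i, σ n ≤ 6 * (i+1) * 4^i := by
  have hN0 : n₀ ≤ NN i := hi0.trans (lt_NN i).le
  have h0 : ∀ n ∈ JJ i, σ n ≤ Real.log (Real.log (NN (i+1))) * ((1:ℝ)/n) := by
    intro n hn
    obtain ⟨h1, h2⟩ := Finset.mem_Ioc.1 hn
    exact sigma_le hσ hσ0 (hN0.trans h1.le) (by omega) h2
  refine (Finset.sum_le_sum h0).trans ?_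
  rw [← Finset.mul_sum]
  have h2 := sum_inv_le (NN_pos (i+1))
  have h3 : Real.log (Real.log (NN (i+1))) ≤ 1.4 * (i+1) := by
    rw [loglog_NN]
    have := loglog_two_le
    have := log_two_lt
    push_cast
    have : (0:ℝ) ≤ i := Nat.cast_nonneg i
    nlinarith
  have h4 : ∑ n ∈ JJ i, (1:ℝ)/n ≤ 4 * 4^i := by
    have hsub : ∑ n ∈ JJ i, (1:ℝ)/n ≤ ∑ n ∈ Finset.Icc 1 (NN (i+1)), (1:ℝ)/n := by
      apply Finset.sum_le_sum_of_subset_of_nonneg
      · intro n hn
        obtain ⟨h1, h2⟩ := Finset.mem_Ioc.1 hn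
        exact Finset.mem_Icc.2 ⟨by omega, h2⟩
      · intro n _ _; positivity
    refine hsub.trans (h2.trans ?_)
    rw [log_NN, pow_succ]
    have := log_two_lt
    have h5 : (1:ℝ) ≤ 4^i := one_le_pow₀ (by norm_num)
    nlinarith
  have h6 : 0 ≤ ∑ n ∈ JJ i, (1:ℝ)/n :=
    Finset.sum_nonneg (fun n _ => by positivity)
  have h7 : Real.log (Real.log (NN (i+1))) * ∑ n ∈ JJ i, (1:ℝ)/n
      ≤ (1.4 * (i+1)) * (4 * 4^i) := by
    apply mul_le_mul h3 h4 h6
    positivity
  have h8 : (0:ℝ) ≤ (i+1) * 4^i := by positivity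
  nlinarith

end sigma

/-! ### the numbers `kk` -/

lemma log_pos_aux (i : ℕ) : 0.693 < Real.log ((i:ℝ)+2) := by
  refine log_two_gt.trans_le (Real.log_le_log (by norm_num) ?_)
  have : (0:ℝ) ≤ i := Nat.cast_nonneg i
  linarith

lemma kk_le (i : ℕ) : (kk i : ℝ) ≤ (4:ℝ)^i / (1024 * Real.log (i+2)) := by
  unfold kk
  apply Nat.floor_le
  have := log_pos_aux i
  positivity

lemma four_pow_ge {i : ℕ} (hi : 8 ≤ i) : 1024 * ((i:ℝ)+2) ≤ 4^i := by
  induction i, hi using Nat.le_induction with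
  | base => norm_num
  | succ i hi ih =>
    rw [pow_succ]
    push_cast
    have : (8:ℝ) ≤ i := by exact_mod_cast hi
    nlinarith

lemma kk_ratio_ge {i : ℕ} (hi : 8 ≤ i) : 1 ≤ (4:ℝ)^i / (1024 * Real.log (i+2)) := by
  have h := log_pos_aux i
  rw [one_le_div (by positivity)]
  refine le_trans ?_ (four_pow_ge hi)
  have := Real.log_le_sub_one_of_pos (x := (i:ℝ)+2) (by positivity)
  nlinarith

lemma kk_pos {i : ℕ} (hi : 8 ≤ i) : 1 ≤ kk i := by
  unfold kk
  exact Nat.le_floor (by exact_mod_cast kk_ratio_ge hi)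

lemma kk_ge {i : ℕ} (hi : 8 ≤ i) : (4:ℝ)^i / (2048 * Real.log (i+2)) ≤ kk i := by
  have h1 := kk_ratio_ge hi
  have h2 : (4:ℝ)^i / (1024 * Real.log (i+2)) < kk i + 1 := by
    unfold kk
    exact Nat.lt_floor_add_one _
  have h3 : (4:ℝ)^i / (2048 * Real.log (i+2)) = ((4:ℝ)^i / (1024 * Real.log (i+2)))/2 := by
    have := log_pos_aux i
    field_simp
    norm_num
  rw [h3]
  have h4 : (1:ℝ) ≤ kk i := by exact_mod_cast kk_pos hi
  linarith

lemma kk_le_small (i : ℕ) : (kk i : ℝ) ≤ 4^i / 200 := by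
  refine (kk_le i).trans ?_
  have := log_pos_aux i
  apply div_le_div_of_nonneg_left (by positivity) (by norm_num)
  nlinarith

lemma geom_bound (i : ℕ) : ∑ j ∈ Finset.range (i+1), (4:ℝ)^j ≤ 4/3 * 4^i := by
  induction i with
  | zero => norm_num
  | succ i ih =>
    rw [Finset.sum_range_succ]
    refine (add_le_add_left ih _).trans ?_
    rw [pow_succ]
    have : (0:ℝ) < 4^i := by positivity
    linarith

lemma factor_le {j : ℕ} {w : ℝ} (hw : w ≤ 6 * (j+1) * 4^j) :
    (((1:ℝ)/(1024*(j+1)))⁻¹) ^ kk j * Real.exp ((1/(1024*(j+1))) * w)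
      ≤ Real.exp (17/1024 * 4^j) := by
  have hj : (0:ℝ) ≤ j := Nat.cast_nonneg j
  have hl := log_pos_aux j
  have e1 : (((1:ℝ)/(1024*(j+1)))⁻¹) ^ kk j = Real.exp (kk j * Real.log (1024*(j+1))) := by
    rw [one_div, inv_inv, Real.exp_nat_mul, Real.exp_log (by positivity)]
  rw [e1, ← Real.exp_add]
  apply Real.exp_le_exp.2
  have h1 : (kk j : ℝ) * Real.log (1024*(j+1)) ≤ 11/1024 * 4^j := by
    have h2 : Real.log (1024*(j+1)) ≤ 11 * Real.log (j+2) := by
      rw [Real.log_mul (by norm_num) (by positivity)]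
      have h3 : Real.log 1024 = 10 * Real.log 2 := by
        rw [show (1024:ℝ) = 2^10 by norm_num, Real.log_pow]; norm_num
      have h4 : Real.log 2 ≤ Real.log ((j:ℝ)+2) := Real.log_le_log (by norm_num) (by linarith)
      have h5 : Real.log ((j:ℝ)+1) ≤ Real.log ((j:ℝ)+2) :=
        Real.log_le_log (by positivity) (by linarith)
      rw [h3]; linarith
    have h6 := kk_le j
    have h7 : (kk j : ℝ) * Real.log (1024*(j+1))
        ≤ ((4:ℝ)^j / (1024 * Real.log (j+2))) * (11 * Real.log (j+2)) := by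
      apply mul_le_mul h6 h2
      · apply Real.log_nonneg; linarith
      · positivity
    refine h7.trans (le_of_eq ?_)
    field_simp
  have h2 : (1/(1024*((j:ℝ)+1))) * w ≤ 6/1024 * 4^j := by
    have : (1/(1024*((j:ℝ)+1))) * w ≤ (1/(1024*((j:ℝ)+1))) * (6 * (j+1) * 4^j) :=
      mul_le_mul_of_nonneg_left hw (by positivity)
    refine this.trans (le_of_eq ?_)
    field_simp
  linarith

lemma prod_factor_le {J0 i : ℕ} {w : ℕ → ℝ} (hw : ∀ j ∈ Finset.Icc J0 i, w j ≤ 6 * (j+1) * 4^j) :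
    ∏ j ∈ Finset.Icc J0 i, ((((1:ℝ)/(1024*(j+1)))⁻¹) ^ kk j *
      Real.exp ((1/(1024*(j+1))) * w j)) ≤ Real.exp (1/8 * 4^i * Real.log 2) := by
  have h1 : ∏ j ∈ Finset.Icc J0 i, ((((1:ℝ)/(1024*(j+1)))⁻¹) ^ kk j *
      Real.exp ((1/(1024*(j+1))) * w j)) ≤ ∏ j ∈ Finset.Icc J0 i, Real.exp (17/1024 * 4^j) := by
    apply Finset.prod_le_prod
    · intro j _; positivity
    · intro j hj; exact factor_le (hw j hj)
  refine h1.trans ?_
  rw [← Real.exp_sum]
  apply Real.exp_le_exp.2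
  rw [← Finset.mul_sum]
  have h2 : ∑ j ∈ Finset.Icc J0 i, (4:ℝ)^j ≤ ∑ j ∈ Finset.range (i+1), (4:ℝ)^j := by
    apply Finset.sum_le_sum_of_subset_of_nonneg
    · intro j hj
      exact Finset.mem_range.2 (Nat.lt_succ_of_le (Finset.mem_Icc.1 hj).2)
    · intro j _ _; positivity
  have h3 := geom_bound i
  have h4 := log_two_gt
  have h5 : (0:ℝ) < 4^i := by positivity
  nlinarith

/-- divergence of the series of ratios -/
lemma div_aux (I I' : ℕ) (h : I ≤ I') :
    Real.log (Real.log ((I':ℝ)+3)) - Real.log (Real.log ((I:ℝ)+2))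
      ≤ ∑ i ∈ Finset.Icc I I', 1/(((i:ℝ)+1) * Real.log (i+2)) := by
  induction I', h using Nat.le_induction with
  | base =>
    rw [Finset.Icc_self, Finset.sum_singleton]
    exact aux I
  | succ I' hI ih =>
    rw [← Finset.insert_Icc_right_eq_Icc_add_one (by omega), Finset.sum_insert (by simp)]
    have := aux (I'+1)
    push_cast at this ⊢
    have e1 : (I':ℝ) + 1 + 3 = (I':ℝ)+4 := by ring
    have e2 : (I':ℝ) + 1 + 2 = (I':ℝ)+3 := by ring
    rw [e1, e2] at this
    rw [e1, e2]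
    linarith
where
  aux (i : ℕ) : Real.log (Real.log ((i:ℝ)+3)) - Real.log (Real.log ((i:ℝ)+2))
      ≤ 1/(((i:ℝ)+1) * Real.log (i+2)) := by
    have hl := log_pos_aux i
    have hl3 : 0 < Real.log ((i:ℝ)+3) := by
      apply Real.log_pos
      have : (0:ℝ) ≤ i := Nat.cast_nonneg i
      linarith
    have hi : (0:ℝ) ≤ i := Nat.cast_nonneg i
    rw [← Real.log_div hl3.ne' (by linarith)]
    have h1 := Real.log_le_sub_one_of_pos (x := Real.log ((i:ℝ)+3) / Real.log ((i:ℝ)+2))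
      (by apply div_pos hl3; linarith)
    refine h1.trans ?_
    have h2 : Real.log ((i:ℝ)+3) - Real.log ((i:ℝ)+2) ≤ 1/((i:ℝ)+1) := by
      rw [← Real.log_div (by positivity) (by positivity)]
      have h3 := Real.log_le_sub_one_of_pos (x := ((i:ℝ)+3)/((i:ℝ)+2)) (by positivity)
      refine h3.trans ?_
      have h4 : ((i:ℝ)+3)/((i:ℝ)+2) - 1 = 1/((i:ℝ)+2) := by field_simp; ring
      rw [h4]
      apply one_div_le_one_div_of_le (by positivity) (by linarith)
    have h5 : Real.log ((i:ℝ)+3) / Real.log ((i:ℝ)+2) - 1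
        = (Real.log ((i:ℝ)+3) - Real.log ((i:ℝ)+2)) / Real.log ((i:ℝ)+2) := by
      field_simp
    rw [h5, one_div, mul_inv, ← one_div ((i:ℝ)+1), div_eq_mul_inv]
    apply mul_le_mul_of_nonneg_right h2
    positivity

lemma div_unbounded (I : ℕ) (R : ℝ) : ∃ I', I ≤ I' ∧
    R ≤ ∑ i ∈ Finset.Icc I I', 1/(((i:ℝ)+1) * Real.log (i+2)) := by
  have ht : Filter.Tendsto (fun I' : ℕ => Real.log (Real.log ((I':ℝ)+3)))
      Filter.atTop Filter.atTop := by
    apply Real.tendsto_log_atTop.comp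
    apply Real.tendsto_log_atTop.comp
    exact Filter.tendsto_atTop_add_const_right _ _ tendsto_natCast_atTop_atTop
  obtain ⟨I', h1, h2⟩ := ((ht.eventually_ge_atTop
    (R + Real.log (Real.log ((I:ℝ)+2)))).and (Filter.eventually_ge_atTop I)).exists
  refine ⟨I', h2, ?_⟩
  have := div_aux I I' h2
  linarith

end RandSeq
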