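import Mathlib

/-!
# MP_992633_an, the first moment estimate for additive relations between random block subsets
-/

open Finset

namespace RandSeq

/-- subsets of the union of the blocks `J j`, `j ∈ D`, with at most `k j` elements in block `j` -/
def adm (D : Finset ℕ) (J : ℕ → Finset ℕ) (k : ℕ → ℕ) : Finset (Finset ℕ) :=
  ((D.biUnion J).powerset).filter (fun F => ∀ j ∈ D, (F ∩ J j).card ≤ k j)

lemma mem_adm {D : Finset ℕ} {J : ℕ → Finset ℕ} {k : ℕ → ℕ} {F : Finset ℕ} :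
    F ∈ adm D J k ↔ F ⊆ D.biUnion J ∧ ∀ j ∈ D, (F ∩ J j).card ≤ k j := by
  simp [adm]

lemma Z_le {D : Finset ℕ} {J : ℕ → Finset ℕ} {k : ℕ → ℕ} {σ : ℕ → ℝ} {t : ℕ → ℝ}
    (hdisj : ∀ i j, i ≠ j → Disjoint (J i) (J j))
    (hσ : ∀ n ∈ D.biUnion J, 0 ≤ σ n) (ht0 : ∀ j ∈ D, 0 < t j) (ht1 : ∀ j ∈ D, t j ≤ 1) :
    ∑ F ∈ adm D J k, ∏ n ∈ F, σ n
      ≤ ∏ j ∈ D, (((t j)⁻¹) ^ k j * Real.exp (t j * ∑ n ∈ J j, σ n)) := by
  classical
  set τ : ℕ → ℝ := fun n => ∏ j ∈ D, (if n ∈ J j then t j else 1) with hτ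
  have hτval : ∀ j ∈ D, ∀ n ∈ J j, τ n = t j := by
    intro j hj n hn
    simp only [hτ]
    rw [Finset.prod_eq_single j]
    · simp [hn]
    · intro i _ hij
      have : n ∉ J i := fun h => Finset.disjoint_left.1 (hdisj i j hij) h hn
      simp [this]
    · intro h; exact absurd hj h
  have hτ0 : ∀ n, 0 < τ n := by
    intro n
    apply Finset.prod_pos
    intro j hj
    split_ifs
    · exact ht0 j hj
    · norm_num
  have hkey : ∀ F ∈ adm D J k, ∏ n ∈ F, σ n ≤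
      (∏ j ∈ D, ((t j)⁻¹) ^ k j) * ∏ n ∈ F, (τ n * σ n) := by
    intro F hF
    obtain ⟨hFU, hFk⟩ := mem_adm.1 hF
    have e1 : ∏ n ∈ F, τ n = ∏ j ∈ D, t j ^ (F ∩ J j).card := by
      simp only [hτ]
      rw [Finset.prod_comm]
      apply Finset.prod_congr rfl
      intro j _
      rw [Finset.prod_ite_mem, Finset.prod_const]
    have e2 : 1 ≤ (∏ j ∈ D, ((t j)⁻¹) ^ k j) * ∏ n ∈ F, τ n := by
      rw [e1, ← Finset.prod_mul_distrib]
      have : ∀ j ∈ D, (1:ℝ) ≤ ((t j)⁻¹) ^ k j * t j ^ (F ∩ J j).card := by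
        intro j hj
        have h1 : t j ^ k j ≤ t j ^ (F ∩ J j).card :=
          pow_le_pow_of_le_one (ht0 j hj).le (ht1 j hj) (hFk j hj)
        have h2 : 0 < t j ^ k j := pow_pos (ht0 j hj) _
        rw [inv_pow, inv_mul_eq_div, one_le_div h2]
        exact h1
      calc (1:ℝ) = ∏ j ∈ D, (1:ℝ) := by simp
        _ ≤ _ := Finset.prod_le_prod (fun _ _ => by norm_num) this
    have e3 : 0 ≤ ∏ n ∈ F, σ n := Finset.prod_nonneg (fun n hn => hσ n (hFU hn))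
    rw [Finset.prod_mul_distrib, ← mul_assoc]
    calc ∏ n ∈ F, σ n = 1 * ∏ n ∈ F, σ n := by ring
      _ ≤ _ := mul_le_mul_of_nonneg_right e2 e3
  refine (Finset.sum_le_sum hkey).trans ?_
  rw [← Finset.mul_sum, Finset.prod_mul_distrib]
  apply mul_le_mul_of_nonneg_left
  · have h1 : ∑ F ∈ adm D J k, ∏ n ∈ F, (τ n * σ n)
        ≤ ∑ F ∈ (D.biUnion J).powerset, ∏ n ∈ F, (τ n * σ n) := by
      apply Finset.sum_le_sum_of_subset_of_nonneg
      · exact Finset.filter_subset _ _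
      · intro F hF _
        apply Finset.prod_nonneg
        intro n hn
        exact mul_nonneg (hτ0 n).le (hσ n (Finset.mem_powerset.1 hF hn))
    refine h1.trans ?_
    rw [← Finset.prod_one_add]
    have h2 : ∏ n ∈ D.biUnion J, (1 + τ n * σ n) ≤ ∏ n ∈ D.biUnion J, Real.exp (τ n * σ n) := by
      apply Finset.prod_le_prod
      · intro n hn
        have := mul_nonneg (hτ0 n).le (hσ n hn)
        linarith
      · intro n _
        rw [add_comm]
        exact Real.add_one_le_exp _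
    refine h2.trans (le_of_eq ?_)
    rw [Finset.prod_biUnion (fun i _ j _ hij => hdisj i j hij)]
    apply Finset.prod_congr rfl
    intro j hj
    rw [← Real.exp_sum, Finset.mul_sum]
    congr 1
    apply Finset.sum_congr rfl
    intro n hn
    rw [hτval j hj n hn]
  · apply Finset.prod_nonneg
    intro j hj
    have := ht0 j hj
    positivity

/-- pairs of admissible disjoint sets with equal sums whose first member meets block `i` -/
def rel (D : Finset ℕ) (J : ℕ → Finset ℕ) (k : ℕ → ℕ) (i : ℕ) :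
    Finset (Finset ℕ × Finset ℕ) :=
  ((adm D J k) ×ˢ (adm D J k)).filter
    (fun p => Disjoint p.1 p.2 ∧ (p.1 ∩ J i).Nonempty ∧ ∑ x ∈ p.1, x = ∑ x ∈ p.2, x)

lemma rel_sum_le {D : Finset ℕ} {J : ℕ → Finset ℕ} {k : ℕ → ℕ} {i : ℕ} {σ : ℕ → ℝ} {s : ℝ}
    (hσ : ∀ n ∈ D.biUnion J, 0 ≤ σ n) (hs : ∀ n ∈ J i, σ n ≤ s) (hs0 : 0 ≤ s)
    (htop : ∀ y ∈ J i, ∀ n ∈ D.biUnion J, y ≤ n → n ∈ J i) :
    ∑ p ∈ rel D J k i, (∏ n ∈ p.1, σ n) * (∏ n ∈ p.2, σ n)
      ≤ s * (∑ F ∈ adm D J k, ∏ n ∈ F, σ n) ^ 2 := by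
  classical
  set φ : Finset ℕ × Finset ℕ → Finset ℕ × Finset ℕ :=
    fun p => (p.1.erase (p.1.sup id), p.2) with hφ
  have hb : ∀ p ∈ rel D J k i, p.1.sup id ∈ p.1 ∧ p.1.sup id ∈ J i := by
    intro p hp
    obtain ⟨hp1, _, ⟨y, hy⟩, _⟩ := Finset.mem_filter.1 hp
    have hF := (mem_adm.1 (Finset.mem_product.1 hp1).1)
    have hy1 := (Finset.mem_inter.1 hy).1
    have hmem : p.1.sup id ∈ p.1 := by
      obtain ⟨b, hb, hb2⟩ := Finset.exists_mem_eq_sup p.1 ⟨y, hy1⟩ id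
      rw [hb2]; exact hb
    refine ⟨hmem, htop y (Finset.mem_inter.1 hy).2 _ (hF.1 hmem) ?_⟩
    exact Finset.le_sup (f := id) hy1
  have hmaps : ∀ p ∈ rel D J k i, φ p ∈ (adm D J k) ×ˢ (adm D J k) := by
    intro p hp
    obtain ⟨hp1, _, _, _⟩ := Finset.mem_filter.1 hp
    obtain ⟨h1, h2⟩ := Finset.mem_product.1 hp1
    refine Finset.mem_product.2 ⟨?_, h2⟩
    rw [mem_adm] at h1 ⊢
    refine ⟨(Finset.erase_subset _ _).trans h1.1, fun j hj => ?_⟩
    exact (Finset.card_le_card (Finset.inter_subset_inter_right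
      (Finset.erase_subset _ _))).trans (h1.2 j hj)
  have hinj : Set.InjOn φ (rel D J k i : Set (Finset ℕ × Finset ℕ)) := by
    rintro ⟨F, G⟩ hp ⟨F', G'⟩ hp' h
    obtain ⟨_, _, _, hsum⟩ := Finset.mem_filter.1 (Finset.mem_coe.1 hp)
    obtain ⟨_, _, _, hsum'⟩ := Finset.mem_filter.1 (Finset.mem_coe.1 hp')
    have hbF := (hb _ (Finset.mem_coe.1 hp)).1
    have hbF' := (hb _ (Finset.mem_coe.1 hp')).1
    simp only [hφ, Prod.mk.injEq] at h hsum hsum' hbF hbF'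
    obtain ⟨h1, h2⟩ := h
    subst h2
    have e1 := Finset.add_sum_erase F (fun x => x) hbF
    have e2 := Finset.add_sum_erase F' (fun x => x) hbF'
    have hbb : F.sup id = F'.sup id := by
      rw [h1] at e1
      omega
    have : F = F' := by
      rw [← Finset.insert_erase hbF, ← Finset.insert_erase hbF', h1, hbb]
    rw [this]
  have hterm : ∀ p ∈ rel D J k i, (∏ n ∈ p.1, σ n) * (∏ n ∈ p.2, σ n)
      ≤ s * ((∏ n ∈ (φ p).1, σ n) * (∏ n ∈ (φ p).2, σ n)) := by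
    intro p hp
    obtain ⟨hp1, _, _, _⟩ := Finset.mem_filter.1 hp
    obtain ⟨h1, h2⟩ := Finset.mem_product.1 hp1
    have hF := (mem_adm.1 h1).1
    have hG := (mem_adm.1 h2).1
    obtain ⟨hbF, hbJ⟩ := hb p hp
    rw [← Finset.mul_prod_erase p.1 σ hbF, mul_assoc]
    apply mul_le_mul_of_nonneg_right (hs _ hbJ)
    apply mul_nonneg
    · exact Finset.prod_nonneg (fun n hn => hσ n (hF (Finset.mem_of_mem_erase hn)))
    · exact Finset.prod_nonneg (fun n hn => hσ n (hG hn))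
  refine (Finset.sum_le_sum hterm).trans ?_
  rw [← Finset.mul_sum]
  apply mul_le_mul_of_nonneg_left _ hs0
  have e3 : ∑ p ∈ rel D J k i, ((∏ n ∈ (φ p).1, σ n) * (∏ n ∈ (φ p).2, σ n))
      = ∑ q ∈ (rel D J k i).image φ, ((∏ n ∈ q.1, σ n) * (∏ n ∈ q.2, σ n)) := by
    rw [Finset.sum_image hinj]
  rw [e3]
  have e4 : ∑ q ∈ (rel D J k i).image φ, ((∏ n ∈ q.1, σ n) * (∏ n ∈ q.2, σ n))
      ≤ ∑ q ∈ (adm D J k) ×ˢ (adm D J k), ((∏ n ∈ q.1, σ n) * (∏ n ∈ q.2, σ n)) := by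
    apply Finset.sum_le_sum_of_subset_of_nonneg
    · intro q hq
      obtain ⟨p, hp, rfl⟩ := Finset.mem_image.1 hq
      exact hmaps p hp
    · intro q hq _
      obtain ⟨h1, h2⟩ := Finset.mem_product.1 hq
      exact mul_nonneg (Finset.prod_nonneg (fun n hn => hσ n ((mem_adm.1 h1).1 hn)))
        (Finset.prod_nonneg (fun n hn => hσ n ((mem_adm.1 h2).1 hn)))
  refine e4.trans (le_of_eq ?_)
  rw [Finset.sum_product, sq, Finset.sum_mul_sum]

end RandSeq
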