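import Mathlib

/-!
# MP_992633_an, definitions used in the statement
-/

open MeasureTheory ProbabilityTheory Filter
open scoped ENNReal Topology

namespace RandSeq

/-- `X₁, X₂, …` are independent `{0,1}`-valued random variables on `(Ω, P)` with
`P(Xₙ = 1) = σₙ` for all `n ≥ 1` (the value `X 0` plays no role). -/
structure Model {Ω : Type*} [MeasurableSpace Ω] (P : Measure Ω) (X : ℕ → Ω → ℕ)
    (σ : ℕ → ℝ) : Prop where
  measurable : ∀ n, 1 ≤ n → Measurable (X n)
  indep : iIndepFun (fun n : ℕ+ => X (n : ℕ)) P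
  zero_or_one : ∀ n, 1 ≤ n → ∀ ω, X n ω = 0 ∨ X n ω = 1
  prob : ∀ n, 1 ≤ n → P {ω | X n ω = 1} = ENNReal.ofReal (σ n)

/-- For a realisation `x = (X_n(ω))_n`, the number `a_n` is the least `k` with
`x₁ + … + x_k = n`. -/
noncomputable def seqA (x : ℕ → ℕ) (n : ℕ) : ℕ := sInf {k : ℕ | ∑ j ∈ Finset.Icc 1 k, x j = n}

/-- The pointwise ergodic theorem for bounded functions along the sequence `a₁, a₂, …`: for every
invertible measure preserving system (on a probability space) and every bounded measurable `f`,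
the averages `(1/N) ∑_{n ≤ N} f (T^{a_n} y)` converge for almost every `y`, to the limit of the
averages `(1/N) ∑_{n ≤ N} f (T^n y)`. -/
def PointwiseErgodicAlong (a : ℕ → ℕ) : Prop :=
  ∀ (Y : Type) (_ : MeasurableSpace Y) (μ : Measure Y) (_ : IsProbabilityMeasure μ)
    (T : Y ≃ᵐ Y), MeasurePreserving T μ μ →
    ∀ f : Y → ℝ, Measurable f → (∃ C : ℝ, ∀ y, |f y| ≤ C) →
      ∀ᵐ y ∂μ, ∃ l : ℝ,
        Tendsto (fun N : ℕ => (∑ n ∈ Finset.Icc 1 N, f (T^[a n] y)) / (N : ℝ)) atTop (𝓝 l) ∧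
        Tendsto (fun N : ℕ => (∑ n ∈ Finset.Icc 1 N, f (T^[n] y)) / (N : ℝ)) atTop (𝓝 l)

end RandSeq
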