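import Mathlib

/-!
# MP_992633_an, deterministic part

Bernoulli shift on `ℝ^ℤ` (with `[0,1]`-uniform marginals) and the combinatorial construction of
bad indicator functions along a sequence whose blocks have no short additive relations.
-/

open MeasureTheory Set Filter
open scoped ENNReal Topology

namespace RandSeq

/-- The uniform distribution on `[0,1]`, as a measure on `ℝ`. -/
noncomputable def lam : Measure ℝ := volume.restrict (Icc (0:ℝ) 1)

instance : IsProbabilityMeasure lam := by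
  constructor
  simp [lam]

/-- The product measure on `ℤ → ℝ`. -/
noncomputable def bern : Measure (ℤ → ℝ) := Measure.infinitePi (fun _ : ℤ => lam)

instance : IsProbabilityMeasure bern := by
  unfold bern; infer_instance

/-- The shift `(T x) j = x (j+1)`. -/
def shift : (ℤ → ℝ) ≃ᵐ (ℤ → ℝ) :=
  MeasurableEquiv.piCongrLeft (fun _ : ℤ => ℝ) (Equiv.addRight (1:ℤ)).symm

lemma shift_apply (x : ℤ → ℝ) (j : ℤ) : shift x j = x (j + 1) := by
  have h := MeasurableEquiv.piCongrLeft_apply_apply (Equiv.addRight (1:ℤ)).symm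
    (β := fun _ : ℤ => ℝ) x (j+1)
  have h2 : (Equiv.addRight (1:ℤ)).symm (j+1) = j := by simp
  rw [h2] at h
  exact h

lemma shift_iterate (a : ℕ) (x : ℤ → ℝ) (j : ℤ) : (shift^[a] x) j = x (j + a) := by
  induction a generalizing x with
  | zero => simp
  | succ n ih =>
    rw [Function.iterate_succ_apply, ih, shift_apply]
    congr 1
    push_cast
    ring

lemma measurePreserving_shift : MeasurePreserving shift bern bern := by
  refine ⟨shift.measurable, ?_⟩
  exact Measure.infinitePi_map_piCongrLeft (μ := fun _ : ℤ => lam) (Equiv.addRight (1:ℤ)).symm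

lemma lam_Iic {η : ℝ} (_h0 : 0 ≤ η) (h1 : η ≤ 1) : lam (Iic η) = ENNReal.ofReal η := by
  unfold lam
  rw [Measure.restrict_apply measurableSet_Iic]
  have : Iic η ∩ Icc (0:ℝ) 1 = Icc 0 η := by
    ext x; simp only [mem_inter_iff, mem_Iic, mem_Icc]
    constructor
    · rintro ⟨h, h', h''⟩; exact ⟨h', h⟩
    · rintro ⟨h, h'⟩; exact ⟨h', h, h'.trans h1⟩
  rw [this, Real.volume_Icc, sub_zero]

lemma lam_Ioi {η : ℝ} (h0 : 0 ≤ η) (_h1 : η ≤ 1) : lam (Ioi η) = ENNReal.ofReal (1 - η) := by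
  unfold lam
  rw [Measure.restrict_apply measurableSet_Ioi]
  have : Ioi η ∩ Icc (0:ℝ) 1 = Ioc η 1 := by
    ext x; simp only [mem_inter_iff, mem_Ioi, mem_Icc, mem_Ioc]
    constructor
    · rintro ⟨h, h', h''⟩; exact ⟨h, h''⟩
    · rintro ⟨h, h'⟩; exact ⟨h, h0.trans h.le, h'⟩
  rw [this, Real.volume_Ioc]

/-- coordinate event -/
def ev (η : ℝ) (z : ℤ) : Set (ℤ → ℝ) := {x | x z ≤ η}

lemma measurableSet_ev (η : ℝ) (z : ℤ) : MeasurableSet (ev η z) :=
  measurableSet_le (measurable_pi_apply z) measurable_const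

lemma bern_ev {η : ℝ} (h0 : 0 ≤ η) (h1 : η ≤ 1) (z : ℤ) : bern (ev η z) = ENNReal.ofReal η := by
  have h := Measure.infinitePi_pi (μ := fun _ : ℤ => lam) (s := {z}) (t := fun _ => Iic η)
    (fun _ _ => measurableSet_Iic)
  have h2 : ev η z = Set.pi (↑({z} : Finset ℤ)) (fun _ => Iic η) := by
    ext x; simp [ev]
  rw [h2]
  unfold bern
  rw [h]
  simp [lam_Iic h0 h1]

lemma bern_inter {η : ℝ} (h0 : 0 ≤ η) (h1 : η ≤ 1) (s : Finset ℤ) :
    bern {x | ∀ z ∈ s, η < x z} = ENNReal.ofReal ((1 - η) ^ s.card) := by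
  have h := Measure.infinitePi_pi (μ := fun _ : ℤ => lam) (s := s) (t := fun _ => Ioi η)
    (fun _ _ => measurableSet_Ioi)
  have h2 : {x : ℤ → ℝ | ∀ z ∈ s, η < x z} = Set.pi (↑s) (fun _ => Ioi η) := by
    ext x; simp
  rw [h2]
  unfold bern
  rw [h]
  simp only [lam_Ioi h0 h1, Finset.prod_const]
  rw [ENNReal.ofReal_pow (by linarith)]

/-! ### Combinatorial families -/

section comb

variable (D : Finset ℕ) (B : ℕ → Finset ℕ)

/-- subsets of the union of the blocks `B j`, `j ∈ D`, with exactly `c j` elements in block `j` -/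
def fam (c : ℕ → ℕ) : Finset (Finset ℕ) :=
  ((D.biUnion B).powerset).filter (fun S => ∀ j ∈ D, (S ∩ B j).card = c j)

variable {D B}

lemma mem_fam {c : ℕ → ℕ} {S : Finset ℕ} :
    S ∈ fam D B c ↔ S ⊆ D.biUnion B ∧ ∀ j ∈ D, (S ∩ B j).card = c j := by
  simp [fam]

lemma fam_nonempty (hdisj : ∀ i j, i ≠ j → Disjoint (B i) (B j)) {k : ℕ → ℕ}
    (hk : ∀ j ∈ D, k j ≤ (B j).card) : (fam D B k).Nonempty := by
  have h : ∀ j, ∃ S ⊆ B j, j ∈ D → S.card = k j := by
    intro j
    by_cases hj : j ∈ D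
    · obtain ⟨S, hS, hc⟩ := Finset.exists_subset_card_eq (hk j hj)
      exact ⟨S, hS, fun _ => hc⟩
    · exact ⟨∅, by simp, fun h => absurd h hj⟩
  choose S hS hc using h
  refine ⟨D.biUnion S, mem_fam.2 ⟨?_, ?_⟩⟩
  · exact Finset.biUnion_mono (fun j _ => hS j)
  · intro j hj
    have : D.biUnion S ∩ B j = S j := by
      ext x
      simp only [Finset.mem_inter, Finset.mem_biUnion]
      constructor
      · rintro ⟨⟨i, hi, hx⟩, hxj⟩
        by_cases hij : i = j
        · exact hij ▸ hx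
        · exact absurd hxj (Finset.disjoint_left.1 (hdisj i j hij) (hS i hx))
      · intro hx
        exact ⟨⟨j, hj, hx⟩, hS j hx⟩
    rw [this, hc j hj]

lemma erase_mem_fam (hdisj : ∀ i j, i ≠ j → Disjoint (B i) (B j)) {k : ℕ → ℕ}
    {i : ℕ} (hi : i ∈ D) {S : Finset ℕ} (hS : S ∈ fam D B k) {b : ℕ} (hb : b ∈ S ∩ B i) :
    S.erase b ∈ fam D B (Function.update k i (k i - 1)) := by
  rw [mem_fam] at hS ⊢
  refine ⟨(Finset.erase_subset _ _).trans hS.1, ?_⟩
  intro j hj
  have hb' := Finset.mem_inter.1 hb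
  by_cases hji : j = i
  · subst hji
    rw [Function.update_self, Finset.erase_inter, Finset.card_erase_of_mem hb, hS.2 j hj]
  · rw [Function.update_of_ne hji, ← hS.2 j hj, Finset.erase_inter]
    congr 1
    apply Finset.erase_eq_of_notMem
    intro h
    exact Finset.disjoint_left.1 (hdisj i j (Ne.symm hji)) hb'.2 (Finset.mem_inter.1 h).2

lemma insert_mem_fam (hdisj : ∀ i j, i ≠ j → Disjoint (B i) (B j)) {k : ℕ → ℕ}
    {i : ℕ} (hi : i ∈ D) (hki : 1 ≤ k i) {S : Finset ℕ}
    (hS : S ∈ fam D B (Function.update k i (k i - 1)))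
    {b : ℕ} (hb : b ∈ B i) (hbS : b ∉ S) :
    insert b S ∈ fam D B k := by
  rw [mem_fam] at hS ⊢
  refine ⟨?_, ?_⟩
  · apply Finset.insert_subset _ hS.1
    exact Finset.mem_biUnion.2 ⟨i, hi, hb⟩
  · intro j hj
    have h2 := hS.2 j hj
    by_cases hji : j = i
    · subst hji
      rw [Function.update_self] at h2
      rw [Finset.insert_inter_of_mem hb, Finset.card_insert_of_notMem, h2]
      · omega
      · intro h; exact hbS (Finset.mem_inter.1 h).1
    · rw [Function.update_of_ne hji] at h2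
      rw [Finset.insert_inter_of_notMem, h2]
      exact Finset.disjoint_left.1 (hdisj i j (Ne.symm hji)) hb

lemma card_fam_mul_le (hdisj : ∀ i j, i ≠ j → Disjoint (B i) (B j)) {k : ℕ → ℕ}
    {i : ℕ} (hi : i ∈ D) :
    (fam D B k).card * k i ≤ (fam D B (Function.update k i (k i - 1))).card * (B i).card := by
  classical
  refine Finset.card_mul_le_card_mul (fun S S' => ∃ b ∈ B i, b ∈ S ∧ S' = S.erase b) ?_ ?_
  · intro S hS
    have h1 : (S ∩ B i).card = k i := (mem_fam.1 hS).2 i hi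
    refine h1.symm.le.trans (Finset.card_le_card_of_injOn (s := S ∩ B i)
      (fun b => S.erase b) ?_ ?_)
    · intro b hb
      have hb' : b ∈ S ∩ B i := hb
      refine Finset.mem_coe.2 (Finset.mem_filter.2 ⟨erase_mem_fam hdisj hi hS hb', b,
        (Finset.mem_inter.1 hb').2, (Finset.mem_inter.1 hb').1, rfl⟩)
    · intro b hb b' hb' h
      have hb1 : b ∈ S := (Finset.mem_inter.1 hb).1
      simp only at h
      by_contra hne
      have : b ∈ S.erase b' := Finset.mem_erase.2 ⟨hne, hb1⟩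
      rw [← h] at this
      exact (Finset.notMem_erase b S) this
  · intro S' hS'
    have : (Finset.bipartiteBelow (fun S S' => ∃ b ∈ B i, b ∈ S ∧ S' = S.erase b)
        (fam D B k) S') ⊆ (B i).image (fun b => insert b S') := by
      intro S hS
      simp only [Finset.bipartiteBelow, Finset.mem_filter] at hS
      obtain ⟨_, b, hb, hbS, h⟩ := hS
      refine Finset.mem_image.2 ⟨b, hb, ?_⟩
      rw [h, Finset.insert_erase hbS]
    exact (Finset.card_le_card this).trans Finset.card_image_le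

/-- the union of the families with one element removed in one block -/
def fam' (D : Finset ℕ) (B : ℕ → Finset ℕ) (k : ℕ → ℕ) : Finset (Finset ℕ) :=
  D.biUnion (fun i => fam D B (Function.update k i (k i - 1)))

lemma card_fam' (hdisj : ∀ i j, i ≠ j → Disjoint (B i) (B j)) {k : ℕ → ℕ}
    (hk : ∀ i ∈ D, 1 ≤ k i) (hkB : ∀ i ∈ D, k i ≤ (B i).card) :
    ((fam D B k).card : ℝ) * ∑ i ∈ D, (k i : ℝ) / (B i).card ≤ ((fam' D B k).card : ℝ) := by
  have h1 : (fam' D B k).card = ∑ i ∈ D, (fam D B (Function.update k i (k i - 1))).card := by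
    unfold fam'
    apply Finset.card_biUnion
    intro i hi j hj hij
    show Disjoint _ _
    rw [Finset.disjoint_left]
    intro S hS hS'
    have e1 := (mem_fam.1 hS).2 i hi
    have e2 := (mem_fam.1 hS').2 i hi
    rw [Function.update_self] at e1
    rw [Function.update_of_ne hij] at e2
    have := hk i hi
    omega
  rw [h1, Finset.mul_sum]
  push_cast
  apply Finset.sum_le_sum
  intro i hi
  have hB : (0:ℝ) < (B i).card := by
    have := hk i hi
    have := hkB i hi
    exact_mod_cast (by omega : 0 < (B i).card)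
  rw [mul_div_assoc', div_le_iff₀ hB]
  have := card_fam_mul_le (D := D) (B := B) (k := k) hdisj hi
  exact_mod_cast this

/-- no relations implies injectivity of the sum on `fam'` -/
lemma sum_injOn (k : ℕ → ℕ)
    (hNR : ∀ F G : Finset ℕ, F ⊆ D.biUnion B → G ⊆ D.biUnion B → Disjoint F G →
      (∀ j ∈ D, (F ∩ B j).card ≤ k j) → (∀ j ∈ D, (G ∩ B j).card ≤ k j) →
      ∑ x ∈ F, x = ∑ x ∈ G, x → F = ∅ ∧ G = ∅) :
    Set.InjOn (fun S : Finset ℕ => (-((∑ x ∈ S, x : ℕ) : ℤ))) (fam' D B k : Set (Finset ℕ)) := by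
  intro S hS S' hS' h
  have key : ∀ S ∈ fam' D B k, S ⊆ D.biUnion B ∧ ∀ j ∈ D, (S ∩ B j).card ≤ k j := by
    intro S hS
    obtain ⟨i, hi, h⟩ := Finset.mem_biUnion.1 hS
    refine ⟨(mem_fam.1 h).1, fun j hj => ?_⟩
    rw [(mem_fam.1 h).2 j hj]
    by_cases hji : j = i
    · subst hji; rw [Function.update_self]; omega
    · rw [Function.update_of_ne hji]
  obtain ⟨h1, h2⟩ := key S hS
  obtain ⟨h1', h2'⟩ := key S' hS'
  have hsum : ∑ x ∈ S, x = ∑ x ∈ S', x := by
    have : (((∑ x ∈ S, x : ℕ) : ℤ)) = ((∑ x ∈ S', x : ℕ) : ℤ) := by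
      simpa using h
    exact_mod_cast this
  have e1 : ∑ x ∈ S \ S', x + ∑ x ∈ S ∩ S', x = ∑ x ∈ S, x := by
    rw [add_comm]; exact Finset.sum_inter_add_sum_sdiff S S' _
  have e2 : ∑ x ∈ S' \ S, x + ∑ x ∈ S ∩ S', x = ∑ x ∈ S', x := by
    rw [add_comm, Finset.inter_comm]; exact Finset.sum_inter_add_sum_sdiff S' S _
  have := hNR (S \ S') (S' \ S) (Finset.sdiff_subset.trans h1) (Finset.sdiff_subset.trans h1')
    (disjoint_sdiff_sdiff)
    (fun j hj => (Finset.card_le_card
      (Finset.inter_subset_inter_right Finset.sdiff_subset)).trans (h2 j hj))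
    (fun j hj => (Finset.card_le_card
      (Finset.inter_subset_inter_right Finset.sdiff_subset)).trans (h2' j hj))
    (by omega)
  exact Finset.Subset.antisymm (Finset.sdiff_eq_empty_iff_subset.1 this.1)
    (Finset.sdiff_eq_empty_iff_subset.1 this.2)

end comb

/-- The combinatorial data along a fixed sequence `a`. -/
structure Good (a : ℕ → ℕ) (B : ℕ → Finset ℕ) (k M : ℕ → ℕ) (c : ℝ) (I0 : ℕ) : Prop where
  hc : 0 < c
  hdisj : ∀ i j, i ≠ j → Disjoint (B i) (B j)
  hk1 : ∀ i ≥ I0, 1 ≤ k i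
  hkB : ∀ i ≥ I0, k i ≤ (B i).card
  hBM : ∀ i ≥ I0, B i ⊆ (Finset.Icc 1 (M i)).image a
  hM : ∀ i ≥ I0, i ≤ M i
  hfrac : ∀ i ≥ I0, c * M i ≤ (B i).card - k i
  hNR : ∀ F G : Finset ℕ, (∀ x ∈ F, ∃ j ≥ I0, x ∈ B j) → (∀ x ∈ G, ∃ j ≥ I0, x ∈ B j) →
    Disjoint F G → (∀ j ≥ I0, (F ∩ B j).card ≤ k j) → (∀ j ≥ I0, (G ∩ B j).card ≤ k j) →
    ∑ x ∈ F, x = ∑ x ∈ G, x → F = ∅ ∧ G = ∅
  hdiv : ∀ I ≥ I0, ∀ R : ℝ, ∃ I' , R ≤ ∑ i ∈ Finset.Icc I I', (k i : ℝ) / (B i).card

open Classical in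
lemma stage {a : ℕ → ℕ} {B : ℕ → Finset ℕ} {k M : ℕ → ℕ} {c : ℝ} {I0 : ℕ}
    (hg : Good a B k M c I0) {I : ℕ} (hI : I0 ≤ I) {ε : ℝ} (hε : 0 < ε) (hε1 : ε ≤ 1) (r : ℝ) :
    ∃ E H : Set (ℤ → ℝ), MeasurableSet E ∧ bern E ≤ ENNReal.ofReal ε ∧
      bern Hᶜ ≤ ENNReal.ofReal (Real.exp (-r)) ∧
      ∀ x ∈ H, ∃ N ≥ I, 1 ≤ N ∧
        c * N ≤ (((Finset.Icc 1 N).filter (fun n => shift^[a n] x ∈ E)).card : ℝ) := by
  obtain ⟨I', hI'⟩ := hg.hdiv I hI (r / ε)
  set D := Finset.Icc I I' with hD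
  have hDge : ∀ i ∈ D, I0 ≤ i := fun i hi => hI.trans (Finset.mem_Icc.1 hi).1
  have hk1 : ∀ i ∈ D, 1 ≤ k i := fun i hi => hg.hk1 i (hDge i hi)
  have hkB : ∀ i ∈ D, k i ≤ (B i).card := fun i hi => hg.hkB i (hDge i hi)
  have hne := fam_nonempty (D := D) (B := B) hg.hdisj hkB
  have hq1 : 1 ≤ (fam D B k).card := Finset.card_pos.2 hne
  have hq1' : (1:ℝ) ≤ ((fam D B k).card : ℝ) := by exact_mod_cast hq1
  set q : ℝ := ((fam D B k).card : ℝ) with hq
  set η : ℝ := ε / q with hη
  have hη0 : 0 < η := by positivity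
  have hη1 : η ≤ 1 := by
    rw [hη, div_le_one (by linarith)]; linarith
  have hqη : q * η = ε := by rw [hη]; field_simp
  set z : Finset ℕ → ℤ := fun S => (-((∑ x ∈ S, x : ℕ) : ℤ)) with hz
  refine ⟨⋃ S ∈ fam D B k, ev η (z S), ⋃ S ∈ fam' D B k, ev η (z S), ?_, ?_, ?_, ?_⟩
  · exact Finset.measurableSet_biUnion _ (fun S _ => measurableSet_ev η (z S))
  · refine (measure_biUnion_finset_le _ _).trans ?_
    simp only [bern_ev hη0.le hη1, Finset.sum_const, nsmul_eq_mul]
    rw [← ENNReal.ofReal_natCast, ← ENNReal.ofReal_mul (by positivity)]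
    rw [← hq, hqη]
  · have hinj : Set.InjOn z (fam' D B k : Set (Finset ℕ)) := by
      apply sum_injOn
      intro F G hF hG hFG hFk hGk hs
      have aux : ∀ F : Finset ℕ, F ⊆ D.biUnion B → (∀ j ∈ D, (F ∩ B j).card ≤ k j) →
          (∀ x ∈ F, ∃ j ≥ I0, x ∈ B j) ∧ (∀ j ≥ I0, (F ∩ B j).card ≤ k j) := by
        intro F hF hFk
        constructor
        · intro x hx
          obtain ⟨j, hj, hxj⟩ := Finset.mem_biUnion.1 (hF hx)
          exact ⟨j, hDge j hj, hxj⟩
        · intro j _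
          by_cases hjD : j ∈ D
          · exact hFk j hjD
          · have : F ∩ B j = ∅ := by
              rw [Finset.eq_empty_iff_forall_notMem]
              intro x hx
              obtain ⟨hx1, hx2⟩ := Finset.mem_inter.1 hx
              obtain ⟨i, hi, hxi⟩ := Finset.mem_biUnion.1 (hF hx1)
              have hij : i ≠ j := fun h => hjD (h ▸ hi)
              exact Finset.disjoint_left.1 (hg.hdisj i j hij) hxi hx2
            rw [this]; simp
      exact hg.hNR F G (aux F hF hFk).1 (aux G hG hGk).1 hFG (aux F hF hFk).2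
        (aux G hG hGk).2 hs
    have hcompl : (⋃ S ∈ fam' D B k, ev η (z S))ᶜ
        = {x : ℤ → ℝ | ∀ w ∈ (fam' D B k).image z, η < x w} := by
      ext x
      simp only [Set.mem_compl_iff, Set.mem_iUnion, ev, Set.mem_ofPred_eq, Finset.mem_image,
        not_exists, not_le]
      constructor
      · rintro h w ⟨S, hS, rfl⟩
        exact h S hS
      · intro h S hS
        exact h _ ⟨S, hS, rfl⟩
    rw [hcompl, bern_inter hη0.le hη1, Finset.card_image_of_injOn hinj]
    apply ENNReal.ofReal_le_ofReal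
    have h1 : (1 - η) ^ (fam' D B k).card ≤ Real.exp (-η) ^ (fam' D B k).card := by
      apply pow_le_pow_left₀ (by linarith)
      exact Real.one_sub_le_exp_neg η
    refine h1.trans ?_
    rw [← Real.exp_nat_mul]
    apply Real.exp_le_exp.2
    have h2 := card_fam' (D := D) (B := B) (k := k) hg.hdisj hk1 hkB
    have h3 : q * (r / ε) ≤ ((fam' D B k).card : ℝ) := by
      refine le_trans ?_ h2
      exact mul_le_mul_of_nonneg_left hI' (by linarith)
    have h4 : r ≤ ((fam' D B k).card : ℝ) * η := by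
      have := mul_le_mul_of_nonneg_right h3 hη0.le
      refine le_trans (le_of_eq ?_) this
      rw [hη]; field_simp
    linarith
  · intro x hx
    obtain ⟨S, hS, hxS⟩ : ∃ S ∈ fam' D B k, x ∈ ev η (z S) := by
      simpa using hx
    obtain ⟨i, hi, hSi⟩ := Finset.mem_biUnion.1 hS
    have hiI0 := hDge i hi
    have hcard : (S ∩ B i).card = k i - 1 := by
      have := (mem_fam.1 hSi).2 i hi
      rwa [Function.update_self] at this
    have hBpos : 0 < (B i).card := by
      have := hk1 i hi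
      have := hkB i hi
      omega
    have hM1 : 1 ≤ M i := by
      obtain ⟨b, hb⟩ := Finset.card_pos.1 hBpos
      obtain ⟨n, hn, _⟩ := Finset.mem_image.1 (hg.hBM i hiI0 hb)
      exact (Finset.mem_Icc.1 hn).1.trans (Finset.mem_Icc.1 hn).2
    refine ⟨M i, ((Finset.mem_Icc.1 hi).1).trans (hg.hM i hiI0), hM1, ?_⟩
    have hsub : B i \ S ⊆ ((Finset.Icc 1 (M i)).filter
        (fun n => shift^[a n] x ∈ ⋃ S ∈ fam D B k, ev η (z S))).image a := by
      intro b hb
      obtain ⟨hbB, hbS⟩ := Finset.mem_sdiff.1 hb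
      obtain ⟨n, hn, hnb⟩ := Finset.mem_image.1 (hg.hBM i hiI0 hbB)
      refine Finset.mem_image.2 ⟨n, Finset.mem_filter.2 ⟨hn, ?_⟩, hnb⟩
      rw [hnb]
      have hins := insert_mem_fam hg.hdisj hi (hk1 i hi) hSi hbB hbS
      refine Set.mem_biUnion hins ?_
      show (shift^[b] x) (z (insert b S)) ≤ η
      rw [shift_iterate]
      have hz2 : z (insert b S) + (b:ℤ) = z S := by
        simp only [hz]
        rw [Finset.sum_insert hbS]
        push_cast
        ring
      rw [hz2]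
      exact hxS
    have hle := (Finset.card_le_card hsub).trans Finset.card_image_le
    have hsd : (B i \ S).card + (S ∩ B i).card = (B i).card := by
      rw [Finset.inter_comm]
      exact Finset.card_sdiff_add_card_inter (B i) S
    have h5 : ((B i).card : ℝ) - k i ≤ ((B i \ S).card : ℝ) := by
      have : (B i).card ≤ (B i \ S).card + k i := by omega
      have : ((B i).card : ℝ) ≤ (B i \ S).card + k i := by exact_mod_cast this
      linarith
    refine (hg.hfrac i hiI0).trans (h5.trans ?_)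
    exact_mod_cast hle

open Classical in
/-- For every `δ > 0` there is a set of measure `≤ δ` along which the averages are frequently
at least `c`, almost everywhere. -/
theorem exists_bad_set {a : ℕ → ℕ} {B : ℕ → Finset ℕ} {k M : ℕ → ℕ} {c : ℝ} {I0 : ℕ}
    (hg : Good a B k M c I0) {δ : ℝ} (hδ : 0 < δ) (hδ1 : δ ≤ 1) :
    ∃ E : Set (ℤ → ℝ), MeasurableSet E ∧ bern E ≤ ENNReal.ofReal δ ∧
      ∀ᵐ x ∂bern, ∃ᶠ N : ℕ in atTop,
        c ≤ (∑ n ∈ Finset.Icc 1 N, E.indicator (fun _ => (1:ℝ)) (shift^[a n] x)) / N := by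
  have hst : ∀ m : ℕ, ∃ E H : Set (ℤ → ℝ), MeasurableSet E ∧
      bern E ≤ ENNReal.ofReal (δ * (1/2)^(m+1)) ∧
      bern Hᶜ ≤ ENNReal.ofReal (Real.exp (-(m:ℝ))) ∧
      ∀ x ∈ H, ∃ N ≥ I0 + m, 1 ≤ N ∧
        c * N ≤ (((Finset.Icc 1 N).filter (fun n => shift^[a n] x ∈ E)).card : ℝ) := by
    intro m
    refine stage hg (Nat.le_add_right I0 m) (by positivity) ?_ (m:ℝ)
    have : ((1:ℝ)/2)^(m+1) ≤ 1 := pow_le_one₀ (by norm_num) (by norm_num)
    nlinarith
  choose E H hE hμE hμH hx using hst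
  refine ⟨⋃ m, E m, MeasurableSet.iUnion hE, ?_, ?_⟩
  · refine (measure_iUnion_le E).trans ((ENNReal.tsum_le_tsum hμE).trans ?_)
    rw [← ENNReal.ofReal_tsum_of_nonneg]
    · apply ENNReal.ofReal_le_ofReal
      rw [tsum_mul_left]
      have : ∑' m : ℕ, ((1:ℝ)/2)^(m+1) = 1 := by
        simp_rw [pow_succ]
        rw [tsum_mul_right, tsum_geometric_two]
        norm_num
      rw [this, mul_one]
    · intro m; positivity
    · apply Summable.mul_left
      have := (summable_nat_add_iff 1).2 (summable_geometric_two)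
      exact this
  · have hsum : ∑' m : ℕ, bern (H m)ᶜ ≠ ∞ := by
      have h1 : ∑' m : ℕ, bern (H m)ᶜ ≤ ∑' m : ℕ, ENNReal.ofReal (Real.exp (-(m:ℝ))) :=
        ENNReal.tsum_le_tsum hμH
      have h2 : Summable (fun m : ℕ => Real.exp (-(m:ℝ))) := Real.summable_exp_neg_nat
      refine ne_top_of_le_ne_top ?_ h1
      rw [← ENNReal.ofReal_tsum_of_nonneg (fun m => (Real.exp_pos _).le) h2]
      exact ENNReal.ofReal_ne_top
    have hbc := ae_eventually_notMem hsum
    filter_upwards [hbc] with x hxx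
    rw [Filter.frequently_atTop]
    intro N0
    obtain ⟨m0, hm0⟩ := Filter.eventually_atTop.1 hxx
    have hxH : x ∈ H (max m0 N0) := by
      have := hm0 (max m0 N0) (le_max_left _ _)
      simpa using this
    obtain ⟨N, hN, hN1, hcard⟩ := hx _ x hxH
    refine ⟨N, ?_, ?_⟩
    · have : N0 ≤ max m0 N0 := le_max_right _ _
      omega
    · have hN0 : (0:ℝ) < N := by exact_mod_cast hN1
      rw [le_div_iff₀ hN0]
      refine hcard.trans ?_
      rw [Finset.card_filter]
      push_cast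
      apply Finset.sum_le_sum
      intro n _
      by_cases hn : shift^[a n] x ∈ E (max m0 N0)
      · have h2 : shift^[a n] x ∈ ⋃ m, E m := Set.mem_iUnion.2 ⟨_, hn⟩
        simp only [hn, if_true, Set.indicator_of_mem h2, le_refl]
      · simp only [hn, if_false]
        exact Set.indicator_nonneg (fun _ _ => by norm_num) _

/-- If the averages of `1_E` converge a.e. and are frequently at least `c` a.e., then
`μ(E) ≥ c`. -/
theorem not_converge {a : ℕ → ℕ} {c δ : ℝ} (hδc : δ < c) (hδ : 0 < δ)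
    {E : Set (ℤ → ℝ)} (hE : MeasurableSet E) (hμE : bern E ≤ ENNReal.ofReal δ)
    (hfr : ∀ᵐ x ∂bern, ∃ᶠ N : ℕ in atTop,
        c ≤ (∑ n ∈ Finset.Icc 1 N, E.indicator (fun _ => (1:ℝ)) (shift^[a n] x)) / N) :
    ¬ ∀ᵐ x ∂bern, ∃ l : ℝ, Tendsto (fun N : ℕ =>
        (∑ n ∈ Finset.Icc 1 N, E.indicator (fun _ => (1:ℝ)) (shift^[a n] x)) / N) atTop (𝓝 l) := by
  intro hconv
  set F : ℕ → (ℤ → ℝ) → ℝ := fun N x =>
    (∑ n ∈ Finset.Icc 1 N, E.indicator (fun _ => (1:ℝ)) (shift^[a n] x)) / N with hF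
  have hmeas : ∀ n, Measurable (fun x => E.indicator (fun _ => (1:ℝ)) (shift^[n] x)) := by
    intro n
    exact (measurable_const.indicator hE).comp (shift.measurable.iterate n)
  have hFm : ∀ N, Measurable (F N) := by
    intro N
    exact (Finset.measurable_sum _ (fun n _ => hmeas (a n))).div_const _
  have hint : ∀ N : ℕ, ∫⁻ x, ENNReal.ofReal (F N x) ∂bern ≤ ENNReal.ofReal δ := by
    intro N
    rcases Nat.eq_zero_or_pos N with hN | hN
    · subst hN; simp [hF]
    have hN' : (0:ℝ) < N := by exact_mod_cast hN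
    have e1 : ∀ x, ENNReal.ofReal (F N x) = (∑ n ∈ Finset.Icc 1 N,
        ENNReal.ofReal (E.indicator (fun _ => (1:ℝ)) (shift^[a n] x))) / (N : ℝ≥0∞) := by
      intro x
      simp only [hF]
      rw [ENNReal.ofReal_div_of_pos hN', ENNReal.ofReal_natCast,
        ENNReal.ofReal_sum_of_nonneg]
      intro n _
      exact Set.indicator_nonneg (fun _ _ => by norm_num) _
    simp_rw [e1, div_eq_mul_inv]
    rw [lintegral_mul_const _
      (Finset.measurable_sum _ (fun n _ => (hmeas (a n)).ennreal_ofReal)),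
      lintegral_finsetSum _ (fun n _ => (hmeas (a n)).ennreal_ofReal)]
    have e2 : ∀ n : ℕ, ∫⁻ x, ENNReal.ofReal (E.indicator (fun _ => (1:ℝ)) (shift^[n] x)) ∂bern
        = bern E := by
      intro n
      have h := (measurePreserving_shift.iterate n).lintegral_comp
        (f := fun y => ENNReal.ofReal (E.indicator (fun _ => (1:ℝ)) y))
        ((measurable_const.indicator hE).ennreal_ofReal)
      rw [h]
      have : (fun y => ENNReal.ofReal (E.indicator (fun _ => (1:ℝ)) y))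
          = E.indicator (fun _ => (1:ℝ≥0∞)) := by
        ext y
        by_cases hy : y ∈ E <;> simp [hy]
      rw [this, lintegral_indicator hE]
      simp
    simp_rw [e2]
    rw [Finset.sum_const, Nat.card_Icc, nsmul_eq_mul, Nat.add_sub_cancel]
    have hN0 : (N : ℝ≥0∞) ≠ 0 := by exact_mod_cast hN.ne'
    rw [mul_comm, ← mul_assoc, ENNReal.inv_mul_cancel hN0 (ENNReal.natCast_ne_top N), one_mul]
    exact hμE
  have hfatou : ∫⁻ x, liminf (fun N => ENNReal.ofReal (F N x)) atTop ∂bern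
      ≤ ENNReal.ofReal δ := by
    refine (lintegral_liminf_le (fun N => (hFm N).ennreal_ofReal)).trans ?_
    refine (Filter.liminf_le_limsup).trans ?_
    exact Filter.limsup_le_of_le (by isBoundedDefault) (Eventually.of_forall hint)
  have hlow : ∀ᵐ x ∂bern, ENNReal.ofReal c ≤ liminf (fun N => ENNReal.ofReal (F N x)) atTop := by
    filter_upwards [hfr, hconv] with x h1 h2
    obtain ⟨l, hl⟩ := h2
    have hcl : c ≤ l := ge_of_tendsto_of_frequently hl h1
    have h3 : Tendsto (fun N => ENNReal.ofReal (F N x)) atTop (𝓝 (ENNReal.ofReal l)) :=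
      (ENNReal.continuous_ofReal.tendsto l).comp hl
    rw [h3.liminf_eq]
    exact ENNReal.ofReal_le_ofReal hcl
  have hfin : ENNReal.ofReal c ≤ ENNReal.ofReal δ := by
    refine le_trans ?_ hfatou
    have h4 := lintegral_mono_ae hlow
    rw [lintegral_const, measure_univ, mul_one] at h4
    exact h4
  have : c ≤ δ := (ENNReal.ofReal_le_ofReal_iff hδ.le).1 hfin
  linarith

end RandSeq
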