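import Mathlib
import Pool.Agent.Helper95.RandSeqDefs
import Pool.Agent.Helper95.RandSeqDyn
import Pool.Agent.Helper95.RandSeqComb
import Pool.Agent.Helper95.RandSeqBlocks

/-!
# MP_992633_an, probabilistic part
-/

open MeasureTheory ProbabilityTheory Filter
open scoped ENNReal Topology

namespace RandSeq

lemma seqA_eq {x : ℕ → ℕ} {b : ℕ} (hb1 : 1 ≤ b) (hb : x b = 1) :
    seqA x (∑ j ∈ Finset.Icc 1 b, x j) = b := by
  unfold seqA
  have hne : ({k : ℕ | ∑ j ∈ Finset.Icc 1 k, x j = ∑ j ∈ Finset.Icc 1 b, x j}).Nonempty :=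
    ⟨b, rfl⟩
  apply le_antisymm
  · exact Nat.sInf_le rfl
  · apply le_csInf hne
    intro k hk
    by_contra hlt
    have hlt := not_le.1 hlt
    have hk' : ∑ j ∈ Finset.Icc 1 k, x j = ∑ j ∈ Finset.Icc 1 b, x j := hk
    have hsub : insert b (Finset.Icc 1 k) ⊆ Finset.Icc 1 b := by
      intro y hy
      rcases Finset.mem_insert.1 hy with h | h
      · subst h; exact Finset.mem_Icc.2 ⟨hb1, le_refl _⟩
      · obtain ⟨h1, h2⟩ := Finset.mem_Icc.1 h
        exact Finset.mem_Icc.2 ⟨h1, by omega⟩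
    have h1 := Finset.sum_le_sum_of_subset (f := x) hsub
    rw [Finset.sum_insert (by simp; omega), hb] at h1
    omega

section prob

variable {Ω : Type*} [MeasurableSpace Ω] {P : Measure Ω} [IsProbabilityMeasure P]
  {X : ℕ → Ω → ℕ} {σ : ℕ → ℝ}

omit [IsProbabilityMeasure P] in
lemma prob_all (hM : Model P X σ) (hσ : ∀ n, 1 ≤ n → 0 ≤ σ n) (D : Finset ℕ)
    (hD : ∀ n ∈ D, 1 ≤ n) :
    P {ω | ∀ n ∈ D, X n ω = 1} = ENNReal.ofReal (∏ n ∈ D, σ n) := by
  let S : Finset ℕ+ := D.attach.map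
    ⟨fun n : {x // x ∈ D} => (⟨n.1, hD n.1 n.2⟩ : ℕ+), fun a b h =>
      Subtype.ext (congrArg (fun z : ℕ+ => (z:ℕ)) h)⟩
  have h := hM.indep.measure_inter_preimage_eq_mul S (sets := fun _ => {1})
    (fun i _ => measurableSet_singleton _)
  have e1 : (⋂ i ∈ S, (fun n : ℕ+ => X (n:ℕ)) i ⁻¹' {1}) = {ω | ∀ n ∈ D, X n ω = 1} := by
    ext ω
    simp only [Set.mem_iInter, Set.mem_preimage, Set.mem_singleton_iff, Set.mem_ofPred_eq, S,
      Finset.mem_map, Finset.mem_attach, true_and, Subtype.exists]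
    constructor
    · intro h n hn
      exact h ⟨n, hD n hn⟩ ⟨n, hn, rfl⟩
    · rintro h _ ⟨n, hn, rfl⟩
      exact h n hn
  rw [e1] at h
  rw [h, Finset.prod_map, ENNReal.ofReal_prod_of_nonneg (fun n hn => hσ n (hD n hn)),
    ← Finset.prod_attach D (fun n => ENNReal.ofReal (σ n))]
  apply Finset.prod_congr rfl
  intro n _
  exact hM.prob n.1 (hD n.1 n.2)

omit [IsProbabilityMeasure P] in
lemma integral_X (hM : Model P X σ) (hσ : ∀ n, 1 ≤ n → 0 ≤ σ n) {n : ℕ} (hn : 1 ≤ n) :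
    ∫ ω, (X n ω : ℝ) ∂P = σ n := by
  have hmeas : MeasurableSet {ω | X n ω = 1} :=
    (hM.measurable n hn) (measurableSet_singleton 1)
  have e : (fun ω => (X n ω : ℝ)) = Set.indicator {ω | X n ω = 1} (1 : Ω → ℝ) := by
    ext ω
    by_cases h : X n ω = 1
    · rw [Set.indicator_of_mem (show ω ∈ {ω | X n ω = 1} from h)]; simp [h]
    · rw [Set.indicator_of_notMem (show ω ∉ {ω | X n ω = 1} from h)]
      rcases hM.zero_or_one n hn ω with h0 | h1
      · simp [h0]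
      · exact absurd h1 h
  rw [e, integral_indicator_one hmeas, measureReal_def, hM.prob n hn,
    ENNReal.toReal_ofReal (hσ n hn)]

lemma memLp_X (hM : Model P X σ) {n : ℕ} (hn : 1 ≤ n) :
    MemLp (fun ω => (X n ω : ℝ)) 2 P := by
  apply MemLp.of_bound (C := 1)
  · exact (measurable_from_nat.comp (hM.measurable n hn)).aestronglyMeasurable
  · apply Eventually.of_forall
    intro ω
    rcases hM.zero_or_one n hn ω with h0 | h1
    · simp [h0]
    · simp [h1]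

lemma variance_X (hM : Model P X σ) (hσ : ∀ n, 1 ≤ n → 0 ≤ σ n) {n : ℕ} (hn : 1 ≤ n) :
    variance (fun ω => (X n ω : ℝ)) P ≤ σ n := by
  refine (variance_le_expectation_sq (memLp_X hM hn).aestronglyMeasurable).trans ?_
  have : ∫ ω, ((fun ω => (X n ω : ℝ)) ^ 2) ω ∂P = ∫ ω, (X n ω : ℝ) ∂P := by
    apply integral_congr_ae
    apply Eventually.of_forall
    intro ω
    rcases hM.zero_or_one n hn ω with h0 | h1
    · simp [h0]
    · simp [h1]
  rw [this, integral_X hM hσ hn]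

lemma chebyshev (hM : Model P X σ) (hσ : ∀ n, 1 ≤ n → 0 ≤ σ n) {D : Finset ℕ}
    (hD : ∀ n ∈ D, 1 ≤ n) (hs : 0 < ∑ n ∈ D, σ n) :
    P {ω | (∑ n ∈ D, σ n) / 2 ≤ |(∑ n ∈ D, (X n ω : ℝ)) - ∑ n ∈ D, σ n|}
      ≤ ENNReal.ofReal (4 / ∑ n ∈ D, σ n) := by
  set Z : ℕ → Ω → ℝ := fun n ω => (X n ω : ℝ) with hZ
  have hmem : ∀ n ∈ D, MemLp (Z n) 2 P := fun n hn => memLp_X hM (hD n hn)
  have hpair : Set.Pairwise (D : Set ℕ) fun i j => IndepFun (Z i) (Z j) P := by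
    intro i hi j hj hij
    have h := hM.indep.indepFun (i := (⟨i, hD i hi⟩ : ℕ+)) (j := (⟨j, hD j hj⟩ : ℕ+))
      (by intro h; exact hij (congrArg (fun z : ℕ+ => (z:ℕ)) h))
    exact h.comp (measurable_from_nat (f := fun m : ℕ => (m:ℝ)))
      (measurable_from_nat (f := fun m : ℕ => (m:ℝ)))
  have hvar : variance (∑ n ∈ D, Z n) P ≤ ∑ n ∈ D, σ n := by
    rw [IndepFun.variance_sum hmem hpair]
    exact Finset.sum_le_sum (fun n hn => variance_X hM hσ (hD n hn))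
  have hexp : ∫ ω, (∑ n ∈ D, Z n) ω ∂P = ∑ n ∈ D, σ n := by
    simp only [Finset.sum_apply]
    rw [integral_finsetSum _ (fun n hn => (hmem n hn).integrable (by norm_num))]
    exact Finset.sum_congr rfl (fun n hn => integral_X hM hσ (hD n hn))
  have hch := meas_ge_le_variance_div_sq (μ := P) (X := ∑ n ∈ D, Z n)
    (memLp_finsetSum' D hmem) (c := (∑ n ∈ D, σ n)/2) (by positivity)
  rw [hexp] at hch
  have e : {ω | (∑ n ∈ D, σ n) / 2 ≤ |(∑ n ∈ D, (X n ω : ℝ)) - ∑ n ∈ D, σ n|}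
      = {ω | (∑ n ∈ D, σ n) / 2 ≤ |(∑ n ∈ D, Z n) ω - ∑ n ∈ D, σ n|} := by
    ext ω; simp [hZ]
  rw [e]
  refine hch.trans (ENNReal.ofReal_le_ofReal ?_)
  have : variance (∑ n ∈ D, Z n) P / ((∑ n ∈ D, σ n)/2)^2
      ≤ (∑ n ∈ D, σ n) / ((∑ n ∈ D, σ n)/2)^2 := by
    apply div_le_div_of_nonneg_right hvar (by positivity)
  refine this.trans (le_of_eq ?_)
  field_simp
  norm_num

omit [IsProbabilityMeasure P] in
lemma borel_cantelli {bad : ℕ → Set Ω} {J0 : ℕ} {C : ℝ} (hC : 0 ≤ C)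
    (h : ∀ i ≥ J0, P (bad i) ≤ ENNReal.ofReal (C * (1/4)^i)) :
    ∀ᵐ ω ∂P, ∀ᶠ i in atTop, ω ∉ bad i := by
  have hsum : ∑' m : ℕ, P (bad (m + J0)) ≠ ∞ := by
    have hs : Summable (fun m : ℕ => C * (1/4:ℝ)^(m + J0)) := by
      apply Summable.mul_left
      exact (summable_nat_add_iff J0).2
        (summable_geometric_of_lt_one (by norm_num) (by norm_num))
    refine ne_top_of_le_ne_top ?_ (ENNReal.tsum_le_tsum
      (fun m => h (m + J0) (Nat.le_add_left J0 m)))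
    rw [← ENNReal.ofReal_tsum_of_nonneg (fun m => by positivity) hs]
    exact ENNReal.ofReal_ne_top
  filter_upwards [ae_eventually_notMem hsum] with ω hω
  obtain ⟨m0, hm0⟩ := eventually_atTop.1 hω
  refine eventually_atTop.2 ⟨m0 + J0, fun i hi => ?_⟩
  have := hm0 (i - J0) (by omega)
  rwa [show i - J0 + J0 = i by omega] at this

/-- the event that a relation with first member meeting block `i` occurs inside `A(ω)` -/
def badRel (X : ℕ → Ω → ℕ) (J0 i : ℕ) : Set Ω :=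
  ⋃ p ∈ rel (Finset.Icc J0 i) JJ kk i, {ω | ∀ n ∈ p.1 ∪ p.2, X n ω = 1}

lemma mem_biUnion_JJ {J0 i n : ℕ} (hn : n ∈ (Finset.Icc J0 i).biUnion JJ) :
    NN J0 < n ∧ n ≤ NN (i+1) := by
  obtain ⟨j, hj, hnj⟩ := Finset.mem_biUnion.1 hn
  obtain ⟨h1, h2⟩ := Finset.mem_Icc.1 hj
  obtain ⟨h3, h4⟩ := Finset.mem_Ioc.1 hnj
  have h5 := NN_strictMono.monotone h1
  have h6 := NN_strictMono.monotone (Nat.succ_le_succ h2)
  simp only [Nat.succ_eq_add_one] at h6
  omega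

omit [IsProbabilityMeasure P] in
lemma prob_badRel {n₀ : ℕ} (hσ : ∀ n, 1 ≤ n → 0 < σ n ∧ σ n ≤ 1)
    (hσ0 : ∀ n, n₀ ≤ n → σ n = Real.log (Real.log n) / n) (hM : Model P X σ)
    {J0 : ℕ} (hJ0 : n₀ ≤ J0) {i : ℕ} (_hi : J0 ≤ i) :
    P (badRel X J0 i) ≤ ENNReal.ofReal (12 * (1/4)^i) := by
  have hσnn : ∀ n, 1 ≤ n → 0 ≤ σ n := fun n hn => (hσ n hn).1.le
  have hpos : ∀ n ∈ (Finset.Icc J0 i).biUnion JJ, 1 ≤ n := by
    intro n hn
    have := (mem_biUnion_JJ hn).1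
    omega
  have hnn : ∀ n ∈ (Finset.Icc J0 i).biUnion JJ, 0 ≤ σ n := fun n hn => hσnn n (hpos n hn)
  have h1 : P (badRel X J0 i) ≤ ENNReal.ofReal (∑ p ∈ rel (Finset.Icc J0 i) JJ kk i,
      (∏ n ∈ p.1, σ n) * (∏ n ∈ p.2, σ n)) := by
    unfold badRel
    refine (measure_biUnion_finset_le _ _).trans ?_
    rw [ENNReal.ofReal_sum_of_nonneg]
    · apply Finset.sum_le_sum
      intro p hp
      obtain ⟨hp1, hdis, _, _⟩ := Finset.mem_filter.1 hp
      obtain ⟨h1, h2⟩ := Finset.mem_product.1 hp1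
      rw [prob_all hM hσnn, Finset.prod_union hdis]
      intro n hn
      rcases Finset.mem_union.1 hn with h | h
      · exact hpos n ((mem_adm.1 h1).1 h)
      · exact hpos n ((mem_adm.1 h2).1 h)
    · intro p hp
      obtain ⟨hp1, _, _, _⟩ := Finset.mem_filter.1 hp
      obtain ⟨h1, h2⟩ := Finset.mem_product.1 hp1
      exact mul_nonneg (Finset.prod_nonneg (fun n hn => hnn n ((mem_adm.1 h1).1 hn)))
        (Finset.prod_nonneg (fun n hn => hnn n ((mem_adm.1 h2).1 hn)))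
  refine h1.trans (ENNReal.ofReal_le_ofReal ?_)
  have hs : ∀ n ∈ JJ i, σ n ≤ 2 * Real.exp (-(1/2 * 4^i * Real.log 2)) := by
    intro n hn
    obtain ⟨h1, h2⟩ := Finset.mem_Ioc.1 hn
    have hNn : NN i ≤ n := h1.le
    have hn0 : n₀ ≤ n := by
      have := lt_NN i
      omega
    refine (sigma_le_sqrt hσ hσ0 hn0 (by omega)).trans ?_
    have h3 : Real.exp (1/2 * 4^i * Real.log 2) ≤ Real.sqrt n := by
      apply Real.le_sqrt_of_sq_le
      rw [← Real.exp_nat_mul]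
      have : ((2:ℕ):ℝ) * (1/2 * 4^i * Real.log 2) = Real.log (NN i) := by
        rw [log_NN]; push_cast; ring
      rw [this, Real.exp_log (by exact_mod_cast NN_pos i)]
      exact_mod_cast hNn
    rw [Real.exp_neg, ← div_eq_mul_inv]
    exact div_le_div_of_nonneg_left (by norm_num) (Real.exp_pos _) h3
  have htop : ∀ y ∈ JJ i, ∀ n ∈ (Finset.Icc J0 i).biUnion JJ, y ≤ n → n ∈ JJ i := by
    intro y hy n hn hyn
    have h1 := (mem_biUnion_JJ hn).2
    obtain ⟨h2, h3⟩ := Finset.mem_Ioc.1 hy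
    exact Finset.mem_Ioc.2 ⟨by omega, h1⟩
  have h2 := rel_sum_le (D := Finset.Icc J0 i) (J := JJ) (k := kk) (i := i) (σ := σ)
    hnn hs (by positivity) htop
  refine h2.trans ?_
  have h3 := Z_le (D := Finset.Icc J0 i) (J := JJ) (k := kk) (σ := σ)
    (t := fun j => (1:ℝ)/(1024*(j+1))) JJ_disj hnn
    (fun j _ => by positivity)
    (fun j _ => by
      rw [div_le_one (by positivity)]
      have : (0:ℝ) ≤ j := Nat.cast_nonneg j
      linarith)
  have h4 := prod_factor_le (J0 := J0) (i := i) (w := fun j => ∑ n ∈ JJ j, σ n)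
    (fun j hj => w_upper hσ hσ0 (hJ0.trans (Finset.mem_Icc.1 hj).1))
  have h5 := h3.trans h4
  have h6 : 0 ≤ ∑ F ∈ adm (Finset.Icc J0 i) JJ kk, ∏ n ∈ F, σ n :=
    Finset.sum_nonneg (fun F hF => Finset.prod_nonneg (fun n hn => hnn n ((mem_adm.1 hF).1 hn)))
  have h7 : (∑ F ∈ adm (Finset.Icc J0 i) JJ kk, ∏ n ∈ F, σ n)^2
      ≤ Real.exp (1/4 * 4^i * Real.log 2) := by
    have : Real.exp (1/4 * 4^i * Real.log 2) = (Real.exp (1/8 * 4^i * Real.log 2))^2 := by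
      rw [← Real.exp_nat_mul]; congr 1; push_cast; ring
    rw [this]
    exact pow_le_pow_left₀ h6 h5 2
  have h8 : 2 * Real.exp (-(1/2 * 4^i * Real.log 2)) *
      (∑ F ∈ adm (Finset.Icc J0 i) JJ kk, ∏ n ∈ F, σ n)^2
      ≤ 2 * Real.exp (-(1/4 * 4^i * Real.log 2)) := by
    have : 2 * Real.exp (-(1/4 * 4^i * Real.log 2))
        = 2 * Real.exp (-(1/2 * 4^i * Real.log 2)) * Real.exp (1/4 * 4^i * Real.log 2) := by
      rw [mul_assoc 2 (Real.exp _) (Real.exp _), ← Real.exp_add]; congr 2; ring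
    rw [this]
    exact mul_le_mul_of_nonneg_left h7 (by positivity)
  refine h8.trans ?_
  have hx : 0 < 1/4 * 4^i * Real.log 2 := by
    have := log_two_gt
    positivity
  have h9 : Real.exp (-(1/4 * 4^i * Real.log 2)) ≤ 1 / (1/4 * 4^i * Real.log 2) := by
    rw [Real.exp_neg, ← one_div]
    apply one_div_le_one_div_of_le hx
    have := Real.add_one_le_exp (1/4 * 4^i * Real.log 2)
    linarith
  have h10 : 2 * (1 / (1/4 * 4^i * Real.log 2)) ≤ 12 * (1/4:ℝ)^i := by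
    rw [one_div_pow]
    have hl := log_two_gt
    have h4i : (0:ℝ) < 4^i := by positivity
    rw [mul_one_div, mul_one_div, div_le_div_iff₀ hx h4i]
    nlinarith
  linarith

/-- the random block -/
def BB (x : ℕ → ℕ) (i : ℕ) : Finset ℕ := (JJ i).filter (fun n => x n = 1)

/-- number of selected integers up to the end of block `i` -/
def MM (x : ℕ → ℕ) (i : ℕ) : ℕ := ∑ n ∈ Finset.Icc 1 (NN (i+1)), x n

lemma JJ_pos {i n : ℕ} (hn : n ∈ JJ i) : 1 ≤ n := by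
  have := (Finset.mem_Ioc.1 hn).1
  omega

lemma JJ_subset (i : ℕ) : JJ i ⊆ Finset.Icc 1 (NN (i+1)) := by
  intro n hn
  exact Finset.mem_Icc.2 ⟨JJ_pos hn, (Finset.mem_Ioc.1 hn).2⟩

lemma card_BB {x : ℕ → ℕ} (hx : ∀ n, 1 ≤ n → x n = 0 ∨ x n = 1) (i : ℕ) :
    (BB x i).card = ∑ n ∈ JJ i, x n := by
  unfold BB
  rw [Finset.card_filter]
  apply Finset.sum_congr rfl
  intro n hn
  rcases hx n (JJ_pos hn) with h | h <;> simp [h]

lemma noRel {x : ℕ → ℕ} {J0 I0 : ℕ} (hJI : J0 ≤ I0)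
    (hno : ∀ i ≥ I0, ∀ p ∈ rel (Finset.Icc J0 i) JJ kk i, ¬ ∀ n ∈ p.1 ∪ p.2, x n = 1)
    (F G : Finset ℕ) (hF : ∀ y ∈ F, ∃ j ≥ I0, y ∈ BB x j) (hG : ∀ y ∈ G, ∃ j ≥ I0, y ∈ BB x j)
    (hFG : Disjoint F G) (hFk : ∀ j ≥ I0, (F ∩ BB x j).card ≤ kk j)
    (hGk : ∀ j ≥ I0, (G ∩ BB x j).card ≤ kk j) (hs : ∑ y ∈ F, y = ∑ y ∈ G, y) :
    F = ∅ ∧ G = ∅ := by
  have aux : ∀ F G : Finset ℕ, (∀ y ∈ F, ∃ j ≥ I0, y ∈ BB x j) → (∀ y ∈ G, ∃ j ≥ I0, y ∈ BB x j) →
      Disjoint F G → (∀ j ≥ I0, (F ∩ BB x j).card ≤ kk j) →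
      (∀ j ≥ I0, (G ∩ BB x j).card ≤ kk j) → ∑ y ∈ F, y = ∑ y ∈ G, y →
      ∀ b ∈ F, (∀ y ∈ F ∪ G, y ≤ b) → False := by
    intro F G hF hG hFG hFk hGk hs b hb hmax
    obtain ⟨i, hi, hbi⟩ := hF b hb
    have hbJ : b ∈ JJ i := (Finset.mem_filter.1 hbi).1
    have key : ∀ F' : Finset ℕ, F' ⊆ F ∪ G → (∀ y ∈ F', ∃ j ≥ I0, y ∈ BB x j) →
        (∀ j ≥ I0, (F' ∩ BB x j).card ≤ kk j) → F' ∈ adm (Finset.Icc J0 i) JJ kk := by
      intro F' hsub hF' hFk'
      rw [mem_adm]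
      constructor
      · intro y hy
        obtain ⟨j, hj, hyj⟩ := hF' y hy
        have hyJ : y ∈ JJ j := (Finset.mem_filter.1 hyj).1
        refine Finset.mem_biUnion.2 ⟨j, Finset.mem_Icc.2 ⟨hJI.trans hj, ?_⟩, hyJ⟩
        by_contra hlt
        have hlt' : i + 1 ≤ j := by omega
        have h1 := NN_strictMono.monotone hlt'
        have h2 := (Finset.mem_Ioc.1 hyJ).1
        have h3 := (Finset.mem_Ioc.1 hbJ).2
        have h4 := hmax y (hsub hy)
        omega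
      · intro j _
        by_cases hjI : I0 ≤ j
        · have : F' ∩ JJ j ⊆ F' ∩ BB x j := by
            intro y hy
            obtain ⟨hy1, hy2⟩ := Finset.mem_inter.1 hy
            obtain ⟨j', _, hyj'⟩ := hF' y hy1
            exact Finset.mem_inter.2 ⟨hy1, Finset.mem_filter.2 ⟨hy2, (Finset.mem_filter.1 hyj').2⟩⟩
          exact (Finset.card_le_card this).trans (hFk' j hjI)
        · have : F' ∩ JJ j = ∅ := by
            rw [Finset.eq_empty_iff_forall_notMem]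
            intro y hy
            obtain ⟨hy1, hy2⟩ := Finset.mem_inter.1 hy
            obtain ⟨j', hj', hyj'⟩ := hF' y hy1
            have hne : j ≠ j' := by omega
            exact Finset.disjoint_left.1 (JJ_disj j j' hne) hy2 (Finset.mem_filter.1 hyj').1
          rw [this]; simp
    have hFa := key F Finset.subset_union_left hF hFk
    have hGa := key G Finset.subset_union_right hG hGk
    have hrel : (F, G) ∈ rel (Finset.Icc J0 i) JJ kk i :=
      Finset.mem_filter.2 ⟨Finset.mem_product.2 ⟨hFa, hGa⟩, hFG,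
        ⟨b, Finset.mem_inter.2 ⟨hb, hbJ⟩⟩, hs⟩
    apply hno i hi (F, G) hrel
    intro n hn
    rcases Finset.mem_union.1 hn with h | h
    · obtain ⟨j, _, hj⟩ := hF n h
      exact (Finset.mem_filter.1 hj).2
    · obtain ⟨j, _, hj⟩ := hG n h
      exact (Finset.mem_filter.1 hj).2
  by_contra hne
  have hne' : (F ∪ G).Nonempty := by
    rw [Finset.nonempty_iff_ne_empty]
    intro h
    exact hne (Finset.union_eq_empty.1 h)
  obtain ⟨b, hb, hmax⟩ := Finset.exists_max_image (F ∪ G) id hne'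
  simp only [id] at hmax
  rcases Finset.mem_union.1 hb with h | h
  · exact aux F G hF hG hFG hFk hGk hs b h hmax
  · exact aux G F hG hF hFG.symm hGk hFk hs.symm b h (by rwa [Finset.union_comm])

theorem ae_good {n₀ : ℕ} (hσ : ∀ n, 1 ≤ n → 0 < σ n ∧ σ n ≤ 1)
    (hσ0 : ∀ n, n₀ ≤ n → σ n = Real.log (Real.log n) / n) (hM : Model P X σ) :
    ∀ᵐ ω ∂P, ∃ I0 : ℕ, Good (seqA (fun n => X n ω)) (BB (fun n => X n ω)) kk
      (MM (fun n => X n ω)) (1/50) I0 := by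
  have hσnn : ∀ n, 1 ≤ n → 0 ≤ σ n := fun n hn => (hσ n hn).1.le
  set J0 : ℕ := max 8 n₀ with hJ0
  have hJ8 : 8 ≤ J0 := le_max_left _ _
  have hJn : n₀ ≤ J0 := le_max_right _ _
  have hwl : ∀ i ≥ J0, (i:ℝ) * 4^i ≤ ∑ n ∈ JJ i, σ n := fun i hi =>
    w_lower hσ hσ0 (by omega) (by omega)
  have h4w : ∀ i ≥ J0, (4:ℝ)^i ≤ ∑ n ∈ JJ i, σ n := by
    intro i hi
    have h1 := hwl i hi
    have h2 : (1:ℝ) ≤ i := by exact_mod_cast (by omega : 1 ≤ i)
    have h3 : (0:ℝ) < 4^i := by positivity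
    nlinarith
  have hwW : ∀ i, ∑ n ∈ JJ i, σ n ≤ ∑ n ∈ Finset.Icc 1 (NN (i+1)), σ n := by
    intro i
    apply Finset.sum_le_sum_of_subset_of_nonneg (JJ_subset i)
    intro n hn _
    exact hσnn n (Finset.mem_Icc.1 hn).1
  have hbound : ∀ i : ℕ, ∀ s : ℝ, (4:ℝ)^i ≤ s →
      ENNReal.ofReal (4 / s) ≤ ENNReal.ofReal (4 * (1/4)^i) := by
    intro i s hs
    apply ENNReal.ofReal_le_ofReal
    have h3 : (0:ℝ) < 4^i := by positivity
    rw [one_div_pow, mul_one_div]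
    exact div_le_div_of_nonneg_left (by norm_num) h3 hs
  have hb1 : ∀ᵐ ω ∂P, ∀ᶠ i in atTop, ω ∉ {ω | (∑ n ∈ JJ i, σ n) / 2 ≤
      |(∑ n ∈ JJ i, (X n ω : ℝ)) - ∑ n ∈ JJ i, σ n|} := by
    apply borel_cantelli (J0 := J0) (C := 4) (by norm_num)
    intro i hi
    have h4 := h4w i hi
    refine (chebyshev hM hσnn (fun n hn => JJ_pos hn) ?_).trans (hbound i _ h4)
    have h3 : (0:ℝ) < 4^i := by positivity
    linarith
  have hb2 : ∀ᵐ ω ∂P, ∀ᶠ i in atTop, ω ∉ {ω | (∑ n ∈ Finset.Icc 1 (NN (i+1)), σ n) / 2 ≤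
      |(∑ n ∈ Finset.Icc 1 (NN (i+1)), (X n ω : ℝ)) - ∑ n ∈ Finset.Icc 1 (NN (i+1)), σ n|} := by
    apply borel_cantelli (J0 := J0) (C := 4) (by norm_num)
    intro i hi
    have h4 := (h4w i hi).trans (hwW i)
    refine (chebyshev hM hσnn (fun n hn => (Finset.mem_Icc.1 hn).1) ?_).trans (hbound i _ h4)
    have h3 : (0:ℝ) < 4^i := by positivity
    linarith
  have hb3 : ∀ᵐ ω ∂P, ∀ᶠ i in atTop, ω ∉ badRel X J0 i := by
    apply borel_cantelli (J0 := J0) (C := 12) (by norm_num)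
    intro i hi
    exact prob_badRel hσ hσ0 hM hJn hi
  filter_upwards [hb1, hb2, hb3] with ω h1 h2 h3
  obtain ⟨m1, hm1⟩ := eventually_atTop.1 h1
  obtain ⟨m2, hm2⟩ := eventually_atTop.1 h2
  obtain ⟨m3, hm3⟩ := eventually_atTop.1 h3
  set I0 : ℕ := max (max J0 m1) (max m2 m3) with hI0
  have hIJ : J0 ≤ I0 := (le_max_left _ _).trans (le_max_left _ _)
  have hI1 : m1 ≤ I0 := (le_max_right _ _).trans (le_max_left _ _)
  have hI2 : m2 ≤ I0 := (le_max_left _ _).trans (le_max_right _ _)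
  have hI3 : m3 ≤ I0 := (le_max_right _ _).trans (le_max_right _ _)
  set x : ℕ → ℕ := fun n => X n ω with hx
  have hx01 : ∀ n, 1 ≤ n → x n = 0 ∨ x n = 1 := fun n hn => hM.zero_or_one n hn ω
  have hcardR : ∀ i, ((BB x i).card : ℝ) = ∑ n ∈ JJ i, (X n ω : ℝ) := by
    intro i
    rw [card_BB hx01 i]
    push_cast
    rfl
  have hBlow : ∀ i ≥ I0, (∑ n ∈ JJ i, σ n) / 2 < ((BB x i).card : ℝ) ∧
      ((BB x i).card : ℝ) < 3/2 * ∑ n ∈ JJ i, σ n := by
    intro i hi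
    have h := hm1 i (hI1.trans hi)
    simp only [not_le] at h
    rw [← hcardR i, abs_lt] at h
    constructor <;> linarith [h.1, h.2]
  have hMup : ∀ i ≥ I0, ((MM x i : ℕ) : ℝ) < 3/2 * ∑ n ∈ Finset.Icc 1 (NN (i+1)), σ n := by
    intro i hi
    have h := hm2 i (hI2.trans hi)
    simp only [not_le] at h
    have e : ((MM x i : ℕ) : ℝ) = ∑ n ∈ Finset.Icc 1 (NN (i+1)), (X n ω : ℝ) := by
      unfold MM; push_cast; rfl
    rw [← e, abs_lt] at h
    linarith [h.1, h.2]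
  have hBMle : ∀ i, (BB x i).card ≤ MM x i := by
    intro i
    rw [card_BB hx01 i]
    exact Finset.sum_le_sum_of_subset (JJ_subset i)
  refine ⟨I0, ?_, ?_, ?_, ?_, ?_, ?_, ?_, ?_, ?_⟩
  · norm_num
  · intro i j hij
    exact Finset.disjoint_filter_filter (JJ_disj i j hij)
  · intro i hi
    exact kk_pos (by omega)
  · intro i hi
    have h4 := h4w i (hIJ.trans hi)
    have h5 := kk_le_small i
    have h6 := (hBlow i hi).1
    have h3 : (0:ℝ) < 4^i := by positivity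
    have : (kk i : ℝ) ≤ ((BB x i).card : ℝ) := by linarith
    exact_mod_cast this
  · intro i hi b hb
    obtain ⟨hbJ, hxb⟩ := Finset.mem_filter.1 hb
    have hb1 := JJ_pos hbJ
    refine Finset.mem_image.2 ⟨∑ j ∈ Finset.Icc 1 b, x j, Finset.mem_Icc.2 ⟨?_, ?_⟩,
      seqA_eq hb1 hxb⟩
    · calc 1 = x b := hxb.symm
        _ ≤ ∑ j ∈ Finset.Icc 1 b, x j :=
          Finset.single_le_sum (f := x) (fun _ _ => Nat.zero_le _)
            (Finset.mem_Icc.2 ⟨hb1, le_refl _⟩)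
    · unfold MM
      apply Finset.sum_le_sum_of_subset
      apply Finset.Icc_subset_Icc_right
      exact (Finset.mem_Ioc.1 hbJ).2
  · intro i hi
    have h4 := hwl i (hIJ.trans hi)
    have h6 := (hBlow i hi).1
    have h7 : (i:ℝ) ≤ ((BB x i).card : ℝ) := by
      have h8 : (4:ℝ) ≤ 4^i := by
        calc (4:ℝ) = 4^1 := by norm_num
          _ ≤ 4^i := pow_le_pow_right₀ (by norm_num) (by omega)
      have : (0:ℝ) ≤ i := Nat.cast_nonneg i
      nlinarith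
    have h8 : i ≤ (BB x i).card := by exact_mod_cast h7
    exact h8.trans (hBMle i)
  · intro i hi
    have hwi := hwl i (hIJ.trans hi)
    have h4 := h4w i (hIJ.trans hi)
    have h5 := kk_le_small i
    have h6 := (hBlow i hi).1
    have h7 := hMup i hi
    have h8 := W_upper hσ hσ0 (i := i) (by omega)
    have h9 : (n₀:ℝ) ≤ i := by exact_mod_cast (by omega : n₀ ≤ i)
    have h10 : (1:ℝ) ≤ i := by exact_mod_cast (by omega : 1 ≤ i)
    have h11 : (1:ℝ) ≤ 4^i := one_le_pow₀ (by norm_num)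
    have h12 : (i:ℝ) ≤ i * 4^i := by nlinarith
    have h13 : 6 * ((i:ℝ)+1) * 4^i ≤ 12 * (i * 4^i) := by nlinarith
    have h14 : ∑ n ∈ Finset.Icc 1 (NN (i+1)), σ n ≤ 13 * ∑ n ∈ JJ i, σ n := by linarith
    linarith
  · intro F G hF hG hFG hFk hGk hs
    refine noRel hIJ ?_ F G hF hG hFG hFk hGk hs
    intro i hi p hp hall
    apply hm3 i (hI3.trans hi)
    exact Set.mem_biUnion hp hall
  · intro I hI R
    obtain ⟨I', _, hR⟩ := div_unbounded I (18432 * R)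
    refine ⟨I', ?_⟩
    have hterm : ∀ i ∈ Finset.Icc I I', 1/18432 * (1/(((i:ℝ)+1) * Real.log (i+2)))
        ≤ (kk i : ℝ) / (BB x i).card := by
      intro i hi
      have hiI : I0 ≤ i := hI.trans (Finset.mem_Icc.1 hi).1
      have h4 := h4w i (hIJ.trans hiI)
      obtain ⟨h6, h7⟩ := hBlow i hiI
      have h8 := w_upper hσ hσ0 (i := i) (by omega)
      have h9 := kk_ge (i := i) (by omega)
      have hl := log_pos_aux i
      have h3 : (0:ℝ) < 4^i := by positivity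
      have hB : (0:ℝ) < (BB x i).card := by linarith
      rw [le_div_iff₀ hB]
      refine le_trans ?_ h9
      have h10 : ((BB x i).card : ℝ) ≤ 9 * (i+1) * 4^i := by linarith
      have h11 : 1/18432 * (1/(((i:ℝ)+1) * Real.log (i+2))) * ((BB x i).card : ℝ)
          ≤ 1/18432 * (1/(((i:ℝ)+1) * Real.log (i+2))) * (9 * (i+1) * 4^i) :=
        mul_le_mul_of_nonneg_left h10 (by positivity)
      refine h11.trans (le_of_eq ?_)
      field_simp
      norm_num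
    refine le_trans ?_ (Finset.sum_le_sum hterm)
    rw [← Finset.mul_sum]
    linarith

end prob

end RandSeq
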