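import Mathlib

/-!
# Sum-free sets of reals and large sets avoiding them: core combinatorics

`Bad κ S`: `S` is sum-free and every set `A` with `A`, `A + A` disjoint from `S` has fewer than
`κ` elements.  For regular `κ ≤ 𝔠` we derive a contradiction.
-/

set_option autoImplicit false

namespace Pool.Helper95.SumFree

open Cardinal Filter Set

/-- `S` is sum-free and there is no set `A` of size at least `κ` with `A` and `A + A`
disjoint from `S`. -/
structure Bad (κ : Cardinal.{0}) (S : Set ℝ) : Prop where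
  sf : ∀ a ∈ S, ∀ b ∈ S, a + b ∉ S
  no : ∀ A : Set ℝ, (∀ x ∈ A, x ∉ S) → (∀ a ∈ A, ∀ b ∈ A, a + b ∉ S) → #A < κ

variable {κ : Cardinal.{0}} {hκ : κ.IsRegular} {S : Set ℝ}

theorem Bad.noGood (h : Bad κ S) {Q : ℝ → Prop} (hQ : ∃ᶠ x in cocardinal ℝ hκ, Q x)
    {f : ℝ → ℝ} (hf : Function.Injective f) (h1 : ∀ x, Q x → f x ∉ S)
    (h2 : ∀ x y, Q x → Q y → f x + f y ∉ S) : False := by
  rw [frequently_cocardinal] at hQ
  have h3 := h.no (f '' {x | Q x}) (by rintro _ ⟨x, hx, rfl⟩; exact h1 x hx)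
    (by rintro _ ⟨x, hx, rfl⟩ _ ⟨y, hy, rfl⟩; exact h2 x y hx hy)
  rw [Cardinal.mk_image_eq hf] at h3
  exact absurd hQ (not_le.mpr h3)

theorem Bad.greedy (h : Bad κ S) {Q : ℝ → Prop} (hQ : ∃ᶠ x in cocardinal ℝ hκ, Q x)
    {f : ℝ → ℝ} (hf : Function.Injective f) (h1 : ∀ x, Q x → f x ∉ S)
    (h2 : ∀ x, Q x → f x + f x ∉ S) :
    ∃ c, Q c ∧ ∃ᶠ x in cocardinal ℝ hκ, Q x ∧ f x + f c ∈ S := by
  by_contra hcon
  push Not at hcon
  -- maximal pairwise-good subset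
  obtain ⟨B, hB⟩ := zorn_subset {B : Set ℝ | (∀ x ∈ B, Q x) ∧ ∀ x ∈ B, ∀ y ∈ B, f x + f y ∉ S}
    (by
      intro C hC hchain
      refine ⟨⋃₀ C, ⟨?_, ?_⟩, fun s hs => subset_sUnion_of_mem hs⟩
      · rintro x ⟨s, hs, hx⟩
        exact (hC hs).1 x hx
      · rintro x ⟨s, hs, hx⟩ y ⟨t, ht, hy⟩
        rcases hchain.total hs ht with hst | hst
        · exact (hC ht).2 x (hst hx) y hy
        · exact (hC hs).2 x hx y (hst hy))
  have hBQ := hB.prop.1
  have hBp := hB.prop.2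
  have hsmall : #B < κ := by
    have h3 := h.no (f '' B) (by rintro _ ⟨x, hx, rfl⟩; exact h1 x (hBQ x hx))
      (by rintro _ ⟨x, hx, rfl⟩ _ ⟨y, hy, rfl⟩; exact hBp x hx y hy)
    rwa [Cardinal.mk_image_eq hf] at h3
  rw [frequently_cocardinal] at hQ
  have hcover : {x | Q x} ⊆ ⋃ b ∈ B, ({b} ∪ {x | Q x ∧ f x + f b ∈ S}) := by
    intro x hx
    by_contra hx'
    simp only [mem_iUnion, not_exists, mem_union, mem_singleton_iff, mem_ofPred_eq, not_or,
      not_and] at hx'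
    have hxB : x ∉ B := fun hxB => (hx' x hxB).1 rfl
    have hins : insert x B ∈ {B : Set ℝ | (∀ x ∈ B, Q x) ∧ ∀ x ∈ B, ∀ y ∈ B, f x + f y ∉ S} := by
      refine ⟨?_, ?_⟩
      · intro y hy
        rcases mem_insert_iff.mp hy with rfl | hy
        · exact hx
        · exact hBQ y hy
      · intro y hy z hz
        rcases mem_insert_iff.mp hy with hyx | hyB
        · rcases mem_insert_iff.mp hz with hzx | hzB
          · rw [hyx, hzx]; exact h2 _ hx
          · rw [hyx]; exact (hx' z hzB).2 hx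
        · rcases mem_insert_iff.mp hz with hzx | hzB
          · rw [hzx, add_comm]; exact (hx' y hyB).2 hx
          · exact hBp y hyB z hzB
    have := hB.le_of_ge hins (subset_insert x B)
    exact hxB (this (mem_insert x B))
  have hlt : #(⋃ b ∈ B, ({b} ∪ {x | Q x ∧ f x + f b ∈ S}) : Set ℝ) < κ := by
    rw [card_biUnion_lt_iff_forall_of_isRegular hκ hsmall]
    intro b hb
    refine lt_of_le_of_lt (Cardinal.mk_union_le _ _) (Cardinal.add_lt_of_lt hκ.aleph0_le ?_ ?_)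
    · rw [Cardinal.mk_singleton]; exact lt_of_lt_of_le one_lt_aleph0 hκ.aleph0_le
    · have := hcon b (hBQ b hb)
      rw [eventually_cocardinal] at this
      refine lt_of_le_of_lt (Cardinal.mk_le_mk_of_subset ?_) this
      rintro x ⟨hx1, hx2⟩ hx3
      exact hx3 hx1 hx2
  exact absurd (hQ.trans (Cardinal.mk_le_mk_of_subset hcover)) (not_le.mpr hlt)

/-- GP. -/
theorem Bad.gp (h : Bad κ S) {l : ℝ} (hl : l ≠ 0) (p : ℝ) {Q : ℝ → Prop}
    (hQ : ∃ᶠ x in cocardinal ℝ hκ, Q x)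
    (h1 : ∀ x, Q x → l * (x - p) ∉ S) (h2 : ∀ x, Q x → 2 * l * (x - p) ∉ S) :
    ∃ c, Q c ∧ ∃ᶠ x in cocardinal ℝ hκ, Q x ∧ l * (x - (2 * p - c)) ∈ S := by
  obtain ⟨c, hc, hc'⟩ := h.greedy (f := fun x => l * (x - p)) hQ
    (fun x y hxy => by
      have := mul_left_cancel₀ hl hxy
      linarith)
    h1 (fun x hx => by
      have := h2 x hx
      have e : l * (x - p) + l * (x - p) = 2 * l * (x - p) := by ring
      rwa [e])
  refine ⟨c, hc, hc'.mono ?_⟩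
  rintro x ⟨hx, hx'⟩
  refine ⟨hx, ?_⟩
  have e : l * (x - (2 * p - c)) = l * (x - p) + l * (c - p) := by ring
  rwa [e]

theorem Bad.dbl (h : Bad κ S) {a b : ℝ} (ha : a ∈ S) (hb : b = 2 * a) : b ∉ S := by
  subst hb; rw [two_mul]; exact h.sf a ha a ha

theorem Bad.sum (h : Bad κ S) {a b c : ℝ} (ha : a ∈ S) (hb : b ∈ S) (hc : c = a + b) : c ∉ S := by
  subst hc; exact h.sf a ha b hb

/-- midpoint closure -/
theorem Bad.mid (h : Bad κ S) {l : ℝ} (hl : l ≠ 0) (d d' : ℝ) :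
    ∀ᶠ x in cocardinal ℝ hκ, l * (x - d) ∈ S → l * (x - d') ∈ S →
      l * (x - (d + d') / 2) ∈ S := by
  by_contra hcon
  rw [not_eventually] at hcon
  refine h.noGood (f := fun x => l * (x - (d + d') / 2)) hcon
    (fun x y hxy => by
      have := mul_left_cancel₀ hl hxy
      linarith) ?_ ?_
  · intro x hx
    push Not at hx
    exact hx.2.2
  · intro x y hx hy
    push Not at hx hy
    exact h.sum hx.1 hy.2.1 (by ring)

/-- dyadic convex closure -/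
theorem Bad.conv (h : Bad κ S) {l : ℝ} (hl : l ≠ 0) (u w : ℝ) (j : ℕ) :
    ∀ k : ℕ, k ≤ 2 ^ j → ∀ᶠ x in cocardinal ℝ hκ, l * (x - u) ∈ S → l * (x - w) ∈ S →
      l * (x - (u + (k : ℝ) / 2 ^ j * (w - u))) ∈ S := by
  induction j with
  | zero =>
    intro k hk
    have : k = 0 ∨ k = 1 := by simp at hk; omega
    refine Eventually.of_forall fun x h1 h2 => ?_
    rcases this with rfl | rfl
    · simpa using h1
    · simpa using h2
  | succ j ih =>
    intro k hk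
    rcases Nat.even_or_odd' k with ⟨i, rfl | rfl⟩
    · have := ih i (by rw [pow_succ] at hk; omega)
      filter_upwards [this] with x hx h1 h2
      have h3 := hx h1 h2
      have e : (((2 * i : ℕ) : ℝ)) / 2 ^ (j + 1) = (i : ℝ) / 2 ^ j := by
        push_cast; rw [pow_succ]; field_simp
      rwa [e]
    · have hi : i + 1 ≤ 2 ^ j := by rw [pow_succ] at hk; omega
      have a1 := ih i (by omega)
      have a2 := ih (i + 1) hi
      have a3 := h.mid (hκ := hκ) hl (u + (i : ℝ) / 2 ^ j * (w - u))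
        (u + ((i + 1 : ℕ) : ℝ) / 2 ^ j * (w - u))
      filter_upwards [a1, a2, a3] with x h1 h2 h3 hu hw
      have h4 := h3 (h1 hu hw) (h2 hu hw)
      have e : u + (((2 * i + 1 : ℕ) : ℝ)) / 2 ^ (j + 1) * (w - u)
          = (u + (i : ℝ) / 2 ^ j * (w - u) + (u + ((i + 1 : ℕ) : ℝ) / 2 ^ j * (w - u))) / 2 := by
        push_cast; rw [pow_succ]; field_simp; ring
      rwa [e]

/-- L1(a) -/
theorem Bad.l1a (h : Bad κ S) {l : ℝ} (hl : l ≠ 0) (g d m : ℝ) (hm : m = (g + d) / 2) :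
    ∀ᶠ x in cocardinal ℝ hκ, l * (x - g) ∈ S → 2 * l * (x - d) ∈ S →
      2 * l * (x - m) ∈ S ∨ 4 * l * (x - m) ∈ S := by
  have hl2 : 2 * l ≠ 0 := mul_ne_zero two_ne_zero hl
  by_contra hcon
  rw [not_eventually] at hcon
  obtain ⟨c, hc, hc'⟩ := h.gp hl2 m hcon
    (fun x hx => by push Not at hx; exact hx.2.2.1)
    (fun x hx => by
      push Not at hx
      have := hx.2.2.2
      rwa [show 2 * (2 * l) * (x - m) = 4 * l * (x - m) by ring])
  have := h.mid (hκ := hκ) hl2 d (2 * m - c)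
  obtain ⟨x, ⟨hx, hx'⟩, hx2⟩ := (hc'.and_eventually this).exists
  push Not at hx hc
  have h3 := hx2 hx.2.1 hx'
  exact h.sum hx.2.1 hc.1 (by rw [hm]; ring) h3

/-- L1(b) -/
theorem Bad.l1b (h : Bad κ S) {l : ℝ} (hl : l ≠ 0) (g d m : ℝ) (hm : m = (g + d) / 2) :
    ∀ᶠ x in cocardinal ℝ hκ, l * (x - g) ∈ S → 2 * l * (x - d) ∈ S →
      4 * l * (x - m) ∈ S → l * (x - m) ∈ S := by
  by_contra hcon
  rw [not_eventually] at hcon
  obtain ⟨c, hc, hc'⟩ := h.gp hl m hcon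
    (fun x hx => by push Not at hx; exact hx.2.2.2)
    (fun x hx => by
      push Not at hx
      intro h2
      exact h.dbl h2 (by ring) hx.2.2.1)
  have := h.l1a (hκ := hκ) hl (2 * m - c) d _ rfl
  obtain ⟨x, ⟨hx, hx'⟩, hx2⟩ := (hc'.and_eventually this).exists
  push Not at hx hc
  rcases hx2 hx' hx.2.1 with h3 | h3
  · exact h.sum hx.2.1 hc.1 (by rw [hm]; ring) h3
  · exact h.sum hx.2.2.1 hc.2.1 (by rw [hm]; ring) h3

/-- L1 -/
theorem Bad.l1 (h : Bad κ S) {l : ℝ} (hl : l ≠ 0) (g d m : ℝ) (hm : m = (g + d) / 2) :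
    ∀ᶠ x in cocardinal ℝ hκ, l * (x - g) ∈ S → 2 * l * (x - d) ∈ S →
      2 * l * (x - m) ∈ S ∨ (l * (x - m) ∈ S ∧ 4 * l * (x - m) ∈ S) := by
  filter_upwards [h.l1a (hκ := hκ) hl g d m hm, h.l1b (hκ := hκ) hl g d m hm] with x h1 h2 hg hd
  rcases h1 hg hd with h3 | h3
  · exact Or.inl h3
  · exact Or.inr ⟨h2 hg hd h3, h3⟩

/-- L2 -/
theorem Bad.l2 (h : Bad κ S) {l : ℝ} (hl : l ≠ 0) (g d m : ℝ) (hm : m = (g + d) / 2) :
    ∀ᶠ x in cocardinal ℝ hκ, l * (x - g) ∈ S → 2 * l * (x - d) ∈ S →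
      2 * l * (x - m) ∈ S → 4 * l * (x - g) ∈ S := by
  have hl2 : 2 * l ≠ 0 := mul_ne_zero two_ne_zero hl
  by_contra hcon
  rw [not_eventually] at hcon
  obtain ⟨c, hc, hc'⟩ := h.gp hl2 g hcon
    (fun x hx => by
      push Not at hx
      exact h.dbl hx.1 (by ring))
    (fun x hx => by
      push Not at hx
      have := hx.2.2.2
      rwa [show 2 * (2 * l) * (x - g) = 4 * l * (x - g) by ring])
  have := h.mid (hκ := hκ) hl2 d (2 * g - c)
  obtain ⟨x, ⟨hx, hx'⟩, hx2⟩ := (hc'.and_eventually this).exists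
  push Not at hx hc
  have h3 := hx2 hx.2.1 hx'
  exact h.sum hx.2.2.1 hc.1 (by rw [hm]; ring) h3

/-- L3 (down) -/
theorem Bad.l3 (h : Bad κ S) {l : ℝ} (hl : l ≠ 0) (d u : ℝ) :
    ∀ᶠ x in cocardinal ℝ hκ, 2 * l * (x - d) ∈ S → 4 * l * (x - u) ∈ S →
      l * (x - u) ∈ S := by
  by_contra hcon
  rw [not_eventually] at hcon
  obtain ⟨c, hc, hc'⟩ := h.gp hl u hcon
    (fun x hx => by push Not at hx; exact hx.2.2)
    (fun x hx => by
      push Not at hx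
      intro h2
      exact h.dbl h2 (by ring) hx.2.1)
  have a1 := h.l1 (hκ := hκ) hl (2 * u - c) d _ rfl
  have a2 := h.l2 (hκ := hκ) hl (2 * u - c) d _ rfl
  obtain ⟨x, ⟨hx, hx'⟩, hx1, hx2⟩ := (hc'.and_eventually (a1.and a2)).exists
  push Not at hx hc
  rcases hx1 hx' hx.1 with h3 | h3
  · have h4 := hx2 hx' hx.1 h3
    exact h.sum hx.2.1 hc.2.1 (by ring) h4
  · exact h.sum hx.2.1 hc.1 (by ring) h3.2

/-- L4 (up) -/
theorem Bad.l4 (h : Bad κ S) {l : ℝ} (hl : l ≠ 0) (d g : ℝ) :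
    ∀ᶠ x in cocardinal ℝ hκ, 2 * l * (x - d) ∈ S → l * (x - g) ∈ S →
      4 * l * (x - g) ∈ S := by
  have hl2 : 2 * l ≠ 0 := mul_ne_zero two_ne_zero hl
  have hl4 : 4 * l ≠ 0 := mul_ne_zero (by norm_num) hl
  by_contra hcon
  rw [not_eventually] at hcon
  have a1 := h.l1 (hκ := hκ) hl g d _ rfl
  have a2 := h.l2 (hκ := hκ) hl g d _ rfl
  have a3 := h.l3 (hκ := hκ) hl2 ((g + d) / 2) g
  have hQ : ∃ᶠ x in cocardinal ℝ hκ, 2 * l * (x - d) ∈ S ∧ l * (x - g) ∈ S ∧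
      4 * l * (x - g) ∉ S ∧ 8 * l * (x - g) ∉ S := by
    refine (hcon.and_eventually (a1.and (a2.and a3))).mono ?_
    rintro x ⟨hx, hx1, hx2, hx3⟩
    push Not at hx
    refine ⟨hx.1, hx.2.1, hx.2.2, ?_⟩
    intro h8
    rcases hx1 hx.2.1 hx.1 with h3 | h3
    · exact hx.2.2 (hx2 hx.2.1 hx.1 h3)
    · have h5 := hx3 (by rw [show 2 * (2 * l) * (x - (g + d) / 2) = 4 * l * (x - (g + d) / 2) by ring]
                         exact h3.2)
        (by rw [show 4 * (2 * l) * (x - g) = 8 * l * (x - g) by ring]; exact h8)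
      exact h.dbl hx.2.1 (by ring) h5
  obtain ⟨c, hc, hc'⟩ := h.gp hl4 g hQ
    (fun x hx => hx.2.2.1)
    (fun x hx => by
      have := hx.2.2.2
      rwa [show 2 * (4 * l) * (x - g) = 8 * l * (x - g) by ring])
  have a4 := h.l3 (hκ := hκ) hl d (2 * g - c)
  obtain ⟨x, ⟨hx, hx'⟩, hx1⟩ := (hc'.and_eventually a4).exists
  have h3 := hx1 hx.1 hx'
  exact h.sum hx.2.1 hc.2.1 (by ring) h3

/-- G1 -/
theorem Bad.g1 (h : Bad κ S) {ν n : ℝ} (hν : ν ≠ 0) (k j : ℕ) (hk : k ≤ 2 ^ j)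
    (hn : n = ν * ((k : ℝ) / 2 ^ j)) (u u' v p : ℝ)
    (hp : (k : ℝ) / 2 ^ j * (2 * p - u - v) = u' - u) :
    ∀ᶠ x in cocardinal ℝ hκ, ν * (x - u) ∈ S → ν * (x - u') ∈ S → n * (x - v) ∈ S →
      ν * (x - p) ∈ S ∨ 2 * ν * (x - p) ∈ S := by
  by_contra hcon
  rw [not_eventually] at hcon
  obtain ⟨c, hc, hc'⟩ := h.gp hν p hcon
    (fun x hx => by push Not at hx; exact hx.2.2.2.1)
    (fun x hx => by push Not at hx; exact hx.2.2.2.2)
  have a1 := h.conv (hκ := hκ) hν u (2 * p - c) j k hk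
  obtain ⟨x, ⟨hx, hx'⟩, hx1⟩ := (hc'.and_eventually a1).exists
  push Not at hx hc
  have h3 := hx1 hx.1 hx'
  refine h.sum hx.2.1 hc.2.2.1 ?_ h3
  have e : ν * (x - (u + (k : ℝ) / 2 ^ j * (2 * p - c - u)))
      = ν * (x - u') + ν * ((k : ℝ) / 2 ^ j) * (c - v)
        + ν * ((u' - u) - (k : ℝ) / 2 ^ j * (2 * p - u - v)) := by ring
  rw [e, hn, ← hp]; ring

end Pool.Helper95.SumFree
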