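import Pool.Agent.Helper95.SumFreeCore

/-!
# Sum-free sets of reals: the final contradiction
-/

set_option autoImplicit false

namespace Pool.Helper95.SumFree

open Cardinal Filter Set

variable {κ : Cardinal.{0}} {hκ : κ.IsRegular} {S : Set ℝ}

/-- periodicity -/
theorem Bad.per (h : Bad κ S) (d g : ℝ) :
    ∀ᶠ x in cocardinal ℝ hκ, x ∈ S → 2 * (x - d) ∈ S →
      ((x - g) ∈ S ↔ 4 * (x - g) ∈ S) ∧ (4 * (x - g) ∈ S ↔ 16 * (x - g) ∈ S) ∧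
      (16 * (x - g) ∈ S ↔ 64 * (x - g) ∈ S) ∧
      (2 * (x - g) ∈ S ↔ 8 * (x - g) ∈ S) ∧ (8 * (x - g) ∈ S ↔ 32 * (x - g) ∈ S) := by
  have o1 : (1 : ℝ) ≠ 0 := one_ne_zero
  have o2 : (2 : ℝ) ≠ 0 := two_ne_zero
  have o4 : (4 : ℝ) ≠ 0 := by norm_num
  have o8 : (8 : ℝ) ≠ 0 := by norm_num
  have o16 : (16 : ℝ) ≠ 0 := by norm_num
  -- base facts: x ∈ S → 4 x ∈ S → 16 x ∈ S; 2(x-d) → 8(x-d) → 32 (x - d)
  have b4 := h.l4 (hκ := hκ) o1 d 0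
  have c8 := h.l4 (hκ := hκ) o2 0 d
  have b16 := h.l4 (hκ := hκ) o4 d 0
  have c32 := h.l4 (hκ := hκ) o8 0 d
  -- level 1
  have u1 := h.l4 (hκ := hκ) o1 d g
  have d1 := h.l3 (hκ := hκ) o1 d g
  have u2 := h.l4 (hκ := hκ) o2 0 g
  have d2 := h.l3 (hκ := hκ) o2 0 g
  have u4 := h.l4 (hκ := hκ) o4 d g
  have d4 := h.l3 (hκ := hκ) o4 d g
  have u8 := h.l4 (hκ := hκ) o8 0 g
  have d8 := h.l3 (hκ := hκ) o8 0 g
  have u16 := h.l4 (hκ := hκ) o16 d g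
  have d16 := h.l3 (hκ := hκ) o16 d g
  filter_upwards [b4, c8, b16, c32, u1, d1, u2, d2, u4, d4, u8, d8, u16, d16] with x
    b4 c8 b16 c32 u1 d1 u2 d2 u4 d4 u8 d8 u16 d16 hx hd
  simp only [mul_one, one_mul, sub_zero, show (2 : ℝ) * 2 = 4 by norm_num,
    show (4 : ℝ) * 2 = 8 by norm_num, show (2 : ℝ) * 4 = 8 by norm_num,
    show (4 : ℝ) * 4 = 16 by norm_num, show (2 : ℝ) * 8 = 16 by norm_num,
    show (4 : ℝ) * 8 = 32 by norm_num, show (2 : ℝ) * 16 = 32 by norm_num,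
    show (4 : ℝ) * 16 = 64 by norm_num] at b4 c8 b16 c32 u1 d1 u2 d2 u4 d4 u8 d8 u16 d16
  have b4' := b4 hd hx
  have c8' := c8 b4' hd
  have b16' := b16 c8' b4'
  have c32' := c32 b16' c8'
  exact ⟨⟨u1 hd, d1 hd⟩, ⟨u4 c8', d4 c8'⟩, ⟨u16 c32', d16 c32'⟩, ⟨u2 b4', d2 b4'⟩,
    ⟨u8 b16', d8 b16'⟩⟩

/-- convexity, level 1 -/
theorem Bad.convE (h : Bad κ S) (u w z : ℝ) (k j : ℕ) (hk : k ≤ 2 ^ j)
    (hz : z = u + (k : ℝ) / 2 ^ j * (w - u)) :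
    ∀ᶠ x in cocardinal ℝ hκ, (x - u) ∈ S → (x - w) ∈ S → (x - z) ∈ S := by
  have := h.conv (hκ := hκ) one_ne_zero u w j k hk
  filter_upwards [this] with x hx
  simpa only [one_mul, hz] using hx

/-- convexity, level 2 -/
theorem Bad.convO (h : Bad κ S) (u w z : ℝ) (k j : ℕ) (hk : k ≤ 2 ^ j)
    (hz : z = u + (k : ℝ) / 2 ^ j * (w - u)) :
    ∀ᶠ x in cocardinal ℝ hκ, 2 * (x - u) ∈ S → 2 * (x - w) ∈ S → 2 * (x - z) ∈ S := by
  have := h.conv (hκ := hκ) two_ne_zero u w j k hk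
  filter_upwards [this] with x hx
  simpa only [hz] using hx

/-- mixed midpoint -/
theorem Bad.midEO (h : Bad κ S) (g d m : ℝ) (hm : m = (g + d) / 2) :
    ∀ᶠ x in cocardinal ℝ hκ, (x - g) ∈ S → 2 * (x - d) ∈ S → (x - m) ∈ S ∨ 2 * (x - m) ∈ S := by
  filter_upwards [h.l1 (hκ := hκ) one_ne_zero g d m hm] with x hx h1 h2
  simp only [mul_one, one_mul] at hx
  rcases hx h1 h2 with h3 | h3
  · exact Or.inr h3
  · exact Or.inl h3.1

/-- G1 at even level 16 -/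
theorem Bad.g16 (h : Bad κ S) (d : ℝ) (n : ℝ) (k : ℕ) (hk : k ≤ 16)
    (hn : n = k) (u u' v p : ℝ)
    (hp : (k : ℝ) / 16 * (2 * p - u - v) = u' - u) :
    ∀ᶠ x in cocardinal ℝ hκ, x ∈ S → 2 * (x - d) ∈ S → n * (x - v) ∈ S →
      (x - u) ∈ S → (x - u') ∈ S → (x - p) ∈ S ∨ 2 * (x - p) ∈ S := by
  have a := h.g1 (hκ := hκ) (ν := 16) (n := n) (by norm_num) k 4 (by norm_num; exact hk)
    (by rw [hn]; norm_num; ring) u u' v p (by rw [← hp]; norm_num)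
  filter_upwards [a, h.per (hκ := hκ) d u, h.per (hκ := hκ) d u', h.per (hκ := hκ) d p]
    with x a pu pu' pp hx hd hv hu hu'
  have pu := pu hx hd
  have pu' := pu' hx hd
  have pp := pp hx hd
  rcases a (pu.2.1.1 (pu.1.1 hu)) (pu'.2.1.1 (pu'.1.1 hu')) hv with h1 | h1
  · exact Or.inl (pp.1.2 (pp.2.1.2 h1))
  · rw [show (2 : ℝ) * 16 = 32 by norm_num] at h1
    exact Or.inr (pp.2.2.2.1.2 (pp.2.2.2.2.2 h1))

/-- G1 at odd level 8 -/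
theorem Bad.g8 (h : Bad κ S) (d : ℝ) (n : ℝ) (k : ℕ) (hk : k ≤ 8)
    (hn : n = k) (u u' v p : ℝ)
    (hp : (k : ℝ) / 8 * (2 * p - u - v) = u' - u) :
    ∀ᶠ x in cocardinal ℝ hκ, x ∈ S → 2 * (x - d) ∈ S → n * (x - v) ∈ S →
      2 * (x - u) ∈ S → 2 * (x - u') ∈ S → (x - p) ∈ S ∨ 2 * (x - p) ∈ S := by
  have a := h.g1 (hκ := hκ) (ν := 8) (n := n) (by norm_num) k 3 (by norm_num; exact hk)
    (by rw [hn]; norm_num; ring) u u' v p (by rw [← hp]; norm_num)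
  filter_upwards [a, h.per (hκ := hκ) d u, h.per (hκ := hκ) d u', h.per (hκ := hκ) d p]
    with x a pu pu' pp hx hd hv hu hu'
  have pu := pu hx hd
  have pu' := pu' hx hd
  have pp := pp hx hd
  rcases a (pu.2.2.2.1.1 hu) (pu'.2.2.2.1.1 hu') hv with h1 | h1
  · exact Or.inr (pp.2.2.2.1.2 h1)
  · rw [show (2 : ℝ) * 8 = 16 by norm_num] at h1
    exact Or.inl (pp.1.2 (pp.2.1.2 h1))

/-- G1 at odd level 32 -/
theorem Bad.g32 (h : Bad κ S) (d : ℝ) (n : ℝ) (k : ℕ) (hk : k ≤ 32)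
    (hn : n = k) (u u' v p : ℝ)
    (hp : (k : ℝ) / 32 * (2 * p - u - v) = u' - u) :
    ∀ᶠ x in cocardinal ℝ hκ, x ∈ S → 2 * (x - d) ∈ S → n * (x - v) ∈ S →
      2 * (x - u) ∈ S → 2 * (x - u') ∈ S → (x - p) ∈ S ∨ 2 * (x - p) ∈ S := by
  have a := h.g1 (hκ := hκ) (ν := 32) (n := n) (by norm_num) k 5 (by norm_num; exact hk)
    (by rw [hn]; norm_num; ring) u u' v p (by rw [← hp]; norm_num)
  filter_upwards [a, h.per (hκ := hκ) d u, h.per (hκ := hκ) d u', h.per (hκ := hκ) d p]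
    with x a pu pu' pp hx hd hv hu hu'
  have pu := pu hx hd
  have pu' := pu' hx hd
  have pp := pp hx hd
  rcases a (pu.2.2.2.2.1 (pu.2.2.2.1.1 hu)) (pu'.2.2.2.2.1 (pu'.2.2.2.1.1 hu')) hv with h1 | h1
  · exact Or.inr (pp.2.2.2.1.2 (pp.2.2.2.2.2 h1))
  · rw [show (2 : ℝ) * 32 = 64 by norm_num] at h1
    exact Or.inl (pp.1.2 (pp.2.1.2 (pp.2.2.1.2 h1)))

/-- Case A, positional part: the point `y = -c` lies in `E ∪ O`. -/
theorem Bad.caseA (h : Bad κ S) (d c : ℝ) :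
    ∀ᶠ x in cocardinal ℝ hκ, x ∈ S → 2 * (x - d) ∈ S → 6 * (x - (-c)) ∈ S →
      (x - (-c)) ∈ S ∨ 2 * (x - (-c)) ∈ S := by
  -- point with coordinate `s` is `-(s*c)`
  have g1 := h.g16 (hκ := hκ) d 6 6 (by norm_num) (by norm_num) 0 0 (-c) (-(1/2*c)) (by ring)
  have e1 := h.convE (hκ := hκ) 0 (-(1/2*c)) (-(3/8*c)) 3 2 (by norm_num) (by push_cast; ring)
  have g2 := h.g16 (hκ := hκ) d 6 6 (by norm_num) (by norm_num) 0 (-(3/8*c)) (-c) (-c)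
    (by push_cast; ring)
  have g3 := h.g8 (hκ := hκ) d 6 6 (by norm_num) (by norm_num) (-(1/2*c)) (-(1/2*c)) (-c)
    (-(3/4*c)) (by ring)
  have e2 := h.convE (hκ := hκ) 0 (-(3/4*c)) (-(3/8*c)) 1 1 (by norm_num) (by push_cast; ring)
  have g4 := h.g8 (hκ := hκ) d 6 6 (by norm_num) (by norm_num) (-(3/4*c)) (-(3/4*c)) (-c)
    (-(7/8*c)) (by ring)
  have g5 := h.g8 (hκ := hκ) d 6 6 (by norm_num) (by norm_num) (-(1/2*c)) (-(7/8*c)) (-c)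
    (-c) (by push_cast; ring)
  have e3 := h.convE (hκ := hκ) 0 (-(7/8*c)) (-(21/32*c)) 3 2 (by norm_num) (by push_cast; ring)
  have o1 := h.convO (hκ := hκ) (-(1/2*c)) (-(3/4*c)) (-(21/32*c)) 5 3 (by norm_num)
    (by push_cast; ring)
  filter_upwards [g1, e1, g2, g3, e2, g4, g5, e3, o1] with x g1 e1 g2 g3 e2 g4 g5 e3 o1 hx hd h6
  have hx0 : x - 0 ∈ S := by simpa using hx
  rcases g1 hx hd h6 hx0 hx0 with hE | hO
  · exact g2 hx hd h6 hx0 (e1 hx0 hE)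
  · rcases g3 hx hd h6 hO hO with hE2 | hO2
    · exact g2 hx hd h6 hx0 (e2 hx0 hE2)
    · rcases g4 hx hd h6 hO2 hO2 with hE3 | hO3
      · have a := e3 hx0 hE3
        have b := o1 hO hO2
        exact absurd b (h.dbl a rfl)
      · exact g5 hx hd h6 hO hO3

/-- Case B, positional part: the point `y = -c` lies in `E ∪ O`. -/
theorem Bad.caseB (h : Bad κ S) (d c : ℝ) :
    ∀ᶠ x in cocardinal ℝ hκ, x ∈ S → 2 * (x - d) ∈ S → 10 * (x - (-c)) ∈ S →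
      (x - (-c)) ∈ S ∨ 2 * (x - (-c)) ∈ S := by
  have g1 := h.g16 (hκ := hκ) d 10 10 (by norm_num) (by norm_num) 0 0 (-c) (-(1/2*c)) (by ring)
  have g2 := h.g16 (hκ := hκ) d 10 10 (by norm_num) (by norm_num) (-(1/2*c)) (-(1/2*c)) (-c)
    (-(3/4*c)) (by ring)
  have e1 := h.convE (hκ := hκ) (-(1/2*c)) (-(3/4*c)) (-(5/8*c)) 1 1 (by norm_num)
    (by push_cast; ring)
  have g3 := h.g16 (hκ := hκ) d 10 10 (by norm_num) (by norm_num) 0 (-(5/8*c)) (-c)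
    (-c) (by push_cast; ring)
  have m1 := h.midEO (hκ := hκ) (-(1/2*c)) (-(3/4*c)) (-(5/8*c)) (by ring)
  have o1 := h.convO (hκ := hκ) (-(5/8*c)) (-(3/4*c)) (-(95/128*c)) 15 4 (by norm_num)
    (by push_cast; ring)
  have g4 := h.g32 (hκ := hκ) d 10 10 (by norm_num) (by norm_num) (-(5/8*c)) (-(95/128*c)) (-c)
    (-c) (by push_cast; ring)
  have g5 := h.g32 (hκ := hκ) d 10 10 (by norm_num) (by norm_num) (-(1/2*c)) (-(1/2*c)) (-c)
    (-(3/4*c)) (by ring)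
  have o2 := h.convO (hκ := hκ) (-(1/2*c)) (-(3/4*c)) (-(21/32*c)) 5 3 (by norm_num)
    (by push_cast; ring)
  have g6 := h.g32 (hκ := hκ) d 10 10 (by norm_num) (by norm_num) (-(1/2*c)) (-(21/32*c)) (-c)
    (-c) (by push_cast; ring)
  have m2 := h.midEO (hκ := hκ) (-(3/4*c)) (-(1/2*c)) (-(5/8*c)) (by ring)
  have o3 := h.convO (hκ := hκ) (-(1/2*c)) (-(5/8*c)) (-(9/16*c)) 1 1 (by norm_num)
    (by push_cast; ring)
  have e2 := h.convE (hκ := hκ) 0 (-(3/4*c)) (-(9/16*c)) 3 2 (by norm_num)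
    (by push_cast; ring)
  filter_upwards [g1, g2, e1, g3, m1, o1, g4, g5, o2, g6, m2, o3, e2] with x
    g1 g2 e1 g3 m1 o1 g4 g5 o2 g6 m2 o3 e2 hx hd h10
  have hx0 : x - 0 ∈ S := by simpa using hx
  rcases g1 hx hd h10 hx0 hx0 with hE | hO
  · rcases g2 hx hd h10 hE hE with hE2 | hO2
    · exact g3 hx hd h10 hx0 (e1 hE hE2)
    · rcases m1 hE hO2 with hE3 | hO3
      · exact g3 hx hd h10 hx0 hE3
      · exact g4 hx hd h10 hO3 (o1 hO3 hO2)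
  · rcases g5 hx hd h10 hO hO with hE2 | hO2
    · rcases m2 hE2 hO with hE3 | hO3
      · exact g3 hx hd h10 hx0 hE3
      · have a := e2 hx0 hE2
        have b := o3 hO hO3
        exact absurd b (h.dbl a rfl)
    · exact g6 hx hd h10 hO (o2 hO hO2)

/-- The set `S` is large. -/
theorem Bad.large (h : Bad κ S) (hc : κ ≤ 𝔠) : ∃ᶠ x in cocardinal ℝ hκ, x ∈ S := by
  intro hsmall
  have hR : ∃ᶠ _x in cocardinal ℝ hκ, True := by
    rw [frequently_cocardinal]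
    simpa [Cardinal.mk_real] using hc
  have h2small : ∀ᶠ x in cocardinal ℝ hκ, 2 * x ∉ S := by
    rw [eventually_cocardinal] at hsmall ⊢
    refine lt_of_le_of_lt ?_ hsmall
    have : {x : ℝ | ¬ 2 * x ∉ S} = (fun x => x / 2) '' {x : ℝ | ¬ x ∉ S} := by
      ext x
      constructor
      · intro hx
        exact ⟨2 * x, hx, by ring⟩
      · rintro ⟨y, hy, rfl⟩
        have : 2 * (y / 2) = y := by ring
        change ¬ 2 * (y / 2) ∉ S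
        rw [this]; exact hy
    rw [this]
    exact Cardinal.mk_image_le
  have hQ : ∃ᶠ x in cocardinal ℝ hκ, x ∉ S ∧ 2 * x ∉ S := by
    refine (hR.and_eventually (hsmall.and h2small)).mono ?_
    rintro x ⟨-, h1, h2⟩
    exact ⟨h1, h2⟩
  obtain ⟨c, hc1, hc2⟩ := h.gp (l := 1) one_ne_zero 0 hQ
    (fun x hx => by simpa using hx.1) (fun x hx => by simpa using hx.2)
  -- many x with x + c ∈ S
  have hc3 : ∃ᶠ x in cocardinal ℝ hκ, x + c ∈ S := by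
    refine hc2.mono ?_
    rintro x ⟨-, hx⟩
    have : (1 : ℝ) * (x - (2 * 0 - c)) = x + c := by ring
    rwa [this] at hx
  rw [frequently_cocardinal] at hc3
  rw [eventually_cocardinal] at hsmall
  have : {x : ℝ | x + c ∈ S} = (fun x => x - c) '' {x : ℝ | ¬ x ∉ S} := by
    ext x
    constructor
    · intro hx
      exact ⟨x + c, not_not.mpr hx, by ring⟩
    · rintro ⟨y, hy, rfl⟩
      change y - c + c ∈ S
      rw [sub_add_cancel]; exact not_not.mp hy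
  rw [this] at hc3
  exact absurd (hc3.trans Cardinal.mk_image_le) (not_le.mpr hsmall)

/-- Level two is nonempty. -/
theorem Bad.level2 (h : Bad κ S) (hc : κ ≤ 𝔠) :
    ∃ d, ∃ᶠ x in cocardinal ℝ hκ, x ∈ S ∧ 2 * (x - d) ∈ S := by
  have hS := h.large (hκ := hκ) hc
  by_cases h4 : ∃ᶠ x in cocardinal ℝ hκ, x ∈ S ∧ 4 * x ∉ S
  · obtain ⟨c, hc1, hc2⟩ := h.gp (l := 2) two_ne_zero 0 h4
      (fun x hx => h.dbl hx.1 (by ring)) (fun x hx => by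
        rw [show (2 : ℝ) * 2 * (x - 0) = 4 * x by ring]; exact hx.2)
    exact ⟨_, hc2.mono fun x hx => ⟨hx.1.1, hx.2⟩⟩
  · rw [not_frequently] at h4
    have hS4 : ∃ᶠ x in cocardinal ℝ hκ, x ∈ S ∧ 4 * x ∈ S := by
      refine (hS.and_eventually h4).mono ?_
      rintro x ⟨h1, h2⟩
      exact ⟨h1, by_contra fun h3 => h2 ⟨h1, h3⟩⟩
    obtain ⟨c, hc1, hc4⟩ := hS4.exists
    by_cases h2 : ∃ᶠ x in cocardinal ℝ hκ, (x ∈ S ∧ 4 * x ∈ S) ∧ 2 * (x - c) ∈ S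
    · exact ⟨c, h2.mono fun x hx => ⟨hx.1.1, hx.2⟩⟩
    · rw [not_frequently] at h2
      have hQ : ∃ᶠ x in cocardinal ℝ hκ, (x ∈ S ∧ 4 * x ∈ S) ∧ 2 * (x - c) ∉ S := by
        refine (hS4.and_eventually h2).mono ?_
        rintro x ⟨h1, h2⟩
        exact ⟨h1, fun h3 => h2 ⟨h1, h3⟩⟩
      obtain ⟨c', hc1', hc2'⟩ := h.gp (l := 2) two_ne_zero c hQ
        (fun x hx => hx.2) (fun x hx => by
          intro h5
          exact h.sum h5 hc4 (by ring) hx.1.2)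
      exact ⟨_, hc2'.mono fun x hx => ⟨hx.1.1.1, hx.2⟩⟩

/-- The final contradiction. -/
theorem Bad.false (h : Bad κ S) (hκ : κ.IsRegular) (hc : κ ≤ 𝔠) : False := by
  obtain ⟨d, hd⟩ := h.level2 (hκ := hκ) hc
  by_cases h6 : ∃ᶠ x in cocardinal ℝ hκ, (x ∈ S ∧ 2 * (x - d) ∈ S) ∧ 6 * x ∉ S
  · -- Case A
    have hQ : ∃ᶠ x in cocardinal ℝ hκ, (x ∈ S ∧ 2 * (x - d) ∈ S) ∧ 6 * x ∉ S ∧ 12 * x ∉ S ∧
        (∀ s, s = x → s ∈ S) := by
      refine (h6.and_eventually (h.per (hκ := hκ) d 0)).mono ?_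
      rintro x ⟨⟨⟨h1, h2⟩, h3⟩, h4⟩
      have h5 := h4 h1 h2
      simp only [sub_zero] at h5
      refine ⟨⟨h1, h2⟩, h3, ?_, fun s hs => hs ▸ h1⟩
      intro h12
      have h4' := h5.1.1 h1
      exact h.sum h12 h4' (by ring) (h5.2.1.1 h4')
    obtain ⟨c, hc1, hc2⟩ := h.gp (l := 6) (by norm_num) 0 hQ
      (fun x hx => by simpa using hx.2.1) (fun x hx => by
        rw [show (2 : ℝ) * 6 * (x - 0) = 12 * x by ring]; exact hx.2.2.1)
    have a := h.caseA (hκ := hκ) d c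
    have b := h.per (hκ := hκ) d (-c)
    obtain ⟨x, ⟨⟨⟨h1, h2⟩, -⟩, h3⟩, h4, h5⟩ := (hc2.and_eventually (a.and b)).exists
    rw [show (2 : ℝ) * 0 - c = -c by ring] at h3
    have h5 := h5 h1 h2
    rcases h4 h1 h2 h3 with h7 | h7
    · exact h.sum h1 hc1.1.1 (by ring) h7
    · exact h.sum h3 h7 (by ring) (h5.2.2.2.1.1 h7)
  · -- Case B
    rw [not_frequently] at h6
    have hQ : ∃ᶠ x in cocardinal ℝ hκ, (x ∈ S ∧ 2 * (x - d) ∈ S) ∧ 10 * x ∉ S ∧ 20 * x ∉ S := by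
      refine (hd.and_eventually (h6.and (h.per (hκ := hκ) d 0))).mono ?_
      rintro x ⟨⟨h1, h2⟩, h3, h4⟩
      have h5 := h4 h1 h2
      simp only [sub_zero] at h5
      have hx6 : 6 * x ∈ S := by_contra fun h7 => h3 ⟨⟨h1, h2⟩, h7⟩
      have h4' := h5.1.1 h1
      have h16' := h5.2.1.1 h4'
      refine ⟨⟨h1, h2⟩, ?_, ?_⟩
      · intro h10
        exact h.sum h10 hx6 (by ring) h16'
      · exact h.sum h16' h4' (by ring)
    obtain ⟨c, hc1, hc2⟩ := h.gp (l := 10) (by norm_num) 0 hQ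
      (fun x hx => by simpa using hx.2.1) (fun x hx => by
        rw [show (2 : ℝ) * 10 * (x - 0) = 20 * x by ring]; exact hx.2.2)
    have a := h.caseB (hκ := hκ) d c
    have b := h.per (hκ := hκ) d (-c)
    obtain ⟨x, ⟨⟨⟨h1, h2⟩, -⟩, h3⟩, h4, h5⟩ := (hc2.and_eventually (a.and b)).exists
    rw [show (2 : ℝ) * 0 - c = -c by ring] at h3
    have h5 := h5 h1 h2
    rcases h4 h1 h2 h3 with h7 | h7
    · exact h.sum h1 hc1.1.1 (by ring) h7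
    · exact h.sum (h5.2.2.2.1.1 h7) h7 (by ring) h3

/-- **Main theorem.** -/
theorem exists_large (S : Set ℝ) (hS : ∀ a ∈ S, ∀ b ∈ S, a + b ∉ S) (κ : Cardinal.{0})
    (hκ : κ.IsRegular) (hc : κ ≤ 𝔠) :
    ∃ A : Set ℝ, (∀ x ∈ A, x ∉ S) ∧ #A = κ ∧ ∀ a ∈ A, ∀ b ∈ A, a + b ∉ S := by
  by_contra hcon
  push Not at hcon
  refine Bad.false (κ := κ) (S := S) ⟨hS, fun A h1 h2 => ?_⟩ hκ hc
  by_contra hA
  obtain ⟨B, hB⟩ := Cardinal.le_mk_iff_exists_subset.mp (not_lt.mp hA)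
  obtain ⟨a, ha, b, hb, hab⟩ := hcon B (fun x hx => h1 x (hB.1 hx)) hB.2
  exact h2 a (hB.1 ha) b (hB.1 hb) hab

end Pool.Helper95.SumFree
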