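import Mathlib

open MeasureTheory ProbabilityTheory
open scoped NNReal ENNReal

/-!
# The tipsy cop and robber game (definitions for MP_037b14_pr)
-/

namespace Pool.Agent.Helper95.Tipsy

/-! ### The game -/

/-- A position of the game: the vertex of the cop and the vertex of the robber. -/
structure Position (V : Type) where
  /-- the vertex occupied by the cop -/
  cop : V
  /-- the vertex occupied by the robber -/
  robber : V

/-- The set of positions carries the discrete sigma-algebra. -/
instance instMeasurableSpacePosition (V : Type) : MeasurableSpace (Position V) := ⊤

/-- The parameters of the game: four nonnegative reals of sum `1`. -/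
structure Params where
  /-- probability of a sober cop move -/
  c : ℝ≥0
  /-- probability of a sober robber move -/
  r : ℝ≥0
  /-- probability of a tipsy cop move -/
  tc : ℝ≥0
  /-- probability of a tipsy robber move -/
  tr : ℝ≥0
  sum_eq_one : c + r + tc + tr = 1

/-- The four kinds of steps of the game. -/
inductive Mover where
  | soberCop | soberRobber | tipsyCop | tipsyRobber
  deriving DecidableEq

instance instFintypeMover : Fintype Mover where
  elems := {.soberCop, .soberRobber, .tipsyCop, .tipsyRobber}
  complete := by intro x; cases x <;> simp

/-- The probability of each kind of step. -/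
def Params.weight (p : Params) : Mover → ℝ≥0∞
  | .soberCop => p.c
  | .soberRobber => p.r
  | .tipsyCop => p.tc
  | .tipsyRobber => p.tr

theorem Params.sum_weight (p : Params) : ∑ m, p.weight m = 1 := by
  have h : ∑ m, p.weight m = ((p.c + p.r + p.tc + p.tr : ℝ≥0) : ℝ≥0∞) := by
    have : (Finset.univ : Finset Mover) =
      {Mover.soberCop, Mover.soberRobber, Mover.tipsyCop, Mover.tipsyRobber} := rfl
    rw [this]
    simp [Params.weight, add_assoc]
  rw [h, p.sum_eq_one]; simp

/-- The random choice of the kind of step. -/
noncomputable def Params.mover (p : Params) : PMF Mover :=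
  PMF.ofFintype p.weight p.sum_weight

section Game

variable {V : Type} (G : SimpleGraph V)

/-- A cop strategy: maps `c_s : V × V → V` with `c_s (u, v) ∈ {u} ∪ N(u)`. -/
structure CopStrategy where
  /-- the maps `c_s` -/
  move : ℕ → V → V → V
  legal : ∀ s u v, move s u v = u ∨ G.Adj u (move s u v)

/-- A robber strategy: maps `r_s : V × V → V` with `r_s (u, v) ∈ N(v)`. -/
structure RobberStrategy where
  /-- the maps `r_s` -/
  move : ℕ → V → V → V
  legal : ∀ s u v, G.Adj v (move s u v)

variable [G.LocallyFinite]

open Classical in
/-- A uniformly random neighbour of `u`  (and `u` itself if `u` has no neighbour, which happens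
only in a connected graph with a single vertex). -/
noncomputable def tipsy (u : V) : PMF V :=
  if h : (G.neighborFinset u).Nonempty then PMF.uniformOfFinset (G.neighborFinset u) h
  else PMF.pure u

/-- One step of the game at time `s` from the position `x`. -/
noncomputable def step (p : Params) (σ : CopStrategy G) (ρ : RobberStrategy G) (s : ℕ)
    (x : Position V) : PMF (Position V) :=
  p.mover.bind fun m => match m with
    | .soberCop => PMF.pure ⟨σ.move s x.cop x.robber, x.robber⟩
    | .soberRobber => PMF.pure ⟨x.cop, ρ.move s x.cop x.robber⟩
    | .tipsyCop => (tipsy G x.cop).map fun w => ⟨w, x.robber⟩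
    | .tipsyRobber => (tipsy G x.robber).map fun w => ⟨x.cop, w⟩

/-- The transition kernel of the game: given the positions up to time `s`, the next position is
distributed as one step of the game at time `s` from the position at time `s`. -/
noncomputable def stepKernel (p : Params) (σ : CopStrategy G) (ρ : RobberStrategy G) (s : ℕ) :
    Kernel ((i : Finset.Iic s) → (fun _ : ℕ => Position V) i) (Position V) where
  toFun h := (step G p σ ρ s (h ⟨s, Finset.mem_Iic.2 le_rfl⟩)).toMeasure
  measurable' := by
    have h1 : Measurable (fun x : Position V => (step G p σ ρ s x).toMeasure) :=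
      fun _ _ => trivial
    exact h1.comp (measurable_pi_apply _)

instance instIsMarkovKernelStepKernel (p : Params) (σ : CopStrategy G) (ρ : RobberStrategy G)
    (s : ℕ) : IsMarkovKernel (stepKernel G p σ ρ s) :=
  ⟨fun _ => by
    show IsProbabilityMeasure (PMF.toMeasure _)
    infer_instance⟩

/-- The law of the random sequence of positions `(C_s, R_s)`, `s = 0, 1, 2, …`, of the game
started in the position `x₀`. -/
noncomputable def law (p : Params) (σ : CopStrategy G) (ρ : RobberStrategy G) (x₀ : Position V) :
    Measure (ℕ → Position V) :=
  Kernel.trajMeasure (X := fun _ => Position V) (Measure.dirac x₀) (stepKernel G p σ ρ)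

/-- A cop strategy is winning (from the starting position `x₀`) if, against every robber
strategy, almost surely the cop is at some time at the vertex of the robber. -/
def Winning (p : Params) (x₀ : Position V) (σ : CopStrategy G) : Prop :=
  ∀ ρ : RobberStrategy G, ∀ᵐ x ∂(law G p σ ρ x₀), ∃ s, (x s).cop = (x s).robber

omit [G.LocallyFinite] in
/-- A cop strategy is monotone if its sober moves never increase the distance to the robber. -/
def IsMonotone (σ : CopStrategy G) : Prop :=
  ∀ s u v, G.dist (σ.move s u v) v ≤ G.dist u v

end Game

end Pool.Agent.Helper95.Tipsy
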