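import Pool.Agent.Helper95.TipsyGame

/-!
# A graph on which monotone cop strategies are not sufficient (proofs for MP_037b14_pr)
-/

open MeasureTheory ProbabilityTheory
open scoped NNReal ENNReal

namespace Pool.Agent.Helper95.Tipsy

/-! ### One-step expectations -/

theorem measurableSet_position {V : Type} (s : Set (Position V)) : MeasurableSet s :=
  MeasurableSpace.measurableSet_top

theorem lintegral_toMeasure {α : Type} [MeasurableSpace α] (hα : ∀ s : Set α, MeasurableSet s)
    (p : PMF α) (f : α → ℝ≥0∞) : ∫⁻ a, f a ∂p.toMeasure = ∑' a, p a * f a := by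
  have h1 : p.toMeasure = Measure.sum fun a => p a • Measure.dirac a := by
    ext s hs
    rw [PMF.toMeasure_apply _ hs, Measure.sum_apply _ hs]
    refine tsum_congr fun a => ?_
    rw [Measure.smul_apply, Measure.dirac_apply' _ hs]
    by_cases ha : a ∈ s <;> simp [ha]
  have hf : Measurable f := fun s _ => hα _
  rw [h1, lintegral_sum_measure]
  refine tsum_congr fun a => ?_
  rw [lintegral_smul_measure, lintegral_dirac' _ hf, smul_eq_mul]

/-- expectation under a `PMF` -/
noncomputable def ex {α : Type} (p : PMF α) (f : α → ℝ≥0∞) : ℝ≥0∞ := ∑' a, p a * f a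

theorem ex_pure {α : Type} (a : α) (f : α → ℝ≥0∞) : ex (PMF.pure a) f = f a := by
  unfold ex
  rw [tsum_eq_single a]
  · simp
  · intro b hb
    simp [PMF.pure_apply, hb]

theorem ex_bind {α β : Type} (p : PMF α) (q : α → PMF β) (f : β → ℝ≥0∞) :
    ex (p.bind q) f = ex p fun a => ex (q a) f := by
  unfold ex
  simp only [PMF.bind_apply]
  simp_rw [← ENNReal.tsum_mul_right, ← ENNReal.tsum_mul_left]
  rw [ENNReal.tsum_comm]
  simp_rw [mul_assoc]

theorem ex_map {α β : Type} (p : PMF α) (g : α → β) (f : β → ℝ≥0∞) :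
    ex (p.map g) f = ex p fun a => f (g a) := by
  rw [← PMF.bind_pure_comp, ex_bind]
  congr 1
  funext a
  exact ex_pure _ _

theorem ex_uniformOfFinset {α : Type} (s : Finset α) (hs : s.Nonempty) (f : α → ℝ≥0∞) :
    ex (PMF.uniformOfFinset s hs) f = (s.card : ℝ≥0∞)⁻¹ * ∑ a ∈ s, f a := by
  classical
  unfold ex
  rw [tsum_eq_sum (s := s)]
  · rw [Finset.mul_sum]
    refine Finset.sum_congr rfl fun a ha => ?_
    simp [PMF.uniformOfFinset_apply, ha]
  · intro b hb
    simp [PMF.uniformOfFinset_apply, hb]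

theorem ex_fintype {α : Type} [Fintype α] (p : PMF α) (f : α → ℝ≥0∞) :
    ex p f = ∑ a, p a * f a := tsum_fintype _

section Game2

variable {V : Type} (G : SimpleGraph V) [G.LocallyFinite]

theorem ex_tipsy (hG : ∀ v, (G.neighborFinset v).Nonempty) (u : V) (f : V → ℝ≥0∞) :
    ex (tipsy G u) f = (G.degree u : ℝ≥0∞)⁻¹ * ∑ w ∈ G.neighborFinset u, f w := by
  unfold tipsy
  rw [dif_pos (hG u), ex_uniformOfFinset]
  rfl

theorem ex_step (hG : ∀ v, (G.neighborFinset v).Nonempty) (p : Params) (σ : CopStrategy G)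
    (ρ : RobberStrategy G) (s : ℕ) (x : Position V) (f : Position V → ℝ≥0∞) :
    ex (step G p σ ρ s x) f =
      p.c * f ⟨σ.move s x.cop x.robber, x.robber⟩ +
      p.r * f ⟨x.cop, ρ.move s x.cop x.robber⟩ +
      p.tc * ((G.degree x.cop : ℝ≥0∞)⁻¹ * ∑ w ∈ G.neighborFinset x.cop, f ⟨w, x.robber⟩) +
      p.tr * ((G.degree x.robber : ℝ≥0∞)⁻¹ * ∑ w ∈ G.neighborFinset x.robber, f ⟨x.cop, w⟩) := by
  unfold step
  rw [ex_bind, ex_fintype]
  have : (Finset.univ : Finset Mover) =
      {Mover.soberCop, Mover.soberRobber, Mover.tipsyCop, Mover.tipsyRobber} := rfl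
  rw [this]
  simp only [Params.mover, PMF.ofFintype_apply]
  rw [Finset.sum_insert (by decide), Finset.sum_insert (by decide), Finset.sum_insert (by decide),
    Finset.sum_singleton]
  simp only [ex_pure, ex_map, ex_tipsy G hG, Params.weight]
  simp only [add_assoc]

/-! ### The law of the game -/

theorem law_step (p : Params) (σ : CopStrategy G) (ρ : RobberStrategy G) (x₀ : Position V)
    (n : ℕ) (g : ((i : Finset.Iic n) → (fun _ : ℕ => Position V) i) → ℝ≥0∞) (hg : Measurable g)
    (f : Position V → ℝ≥0∞) :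
    ∫⁻ x, g (Preorder.frestrictLe (π := fun _ : ℕ => Position V) n x) * f (x (n + 1))
        ∂(law G p σ ρ x₀) =
      ∫⁻ x, g (Preorder.frestrictLe (π := fun _ : ℕ => Position V) n x) *
        ex (step G p σ ρ n (x n)) f ∂(law G p σ ρ x₀) := by
  have hf : Measurable f := fun s _ => trivial
  have hcomp := Kernel.map_frestrictLe_trajMeasure_compProd_eq_map_trajMeasure
    (X := fun _ : ℕ => Position V) (κ := stepKernel G p σ ρ) (μ₀ := Measure.dirac x₀) (a := n)
  have h1 : ∫⁻ x, g (Preorder.frestrictLe (π := fun _ : ℕ => Position V) n x) * f (x (n + 1))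
        ∂(law G p σ ρ x₀) = ∫⁻ y, g y.1 * f y.2 ∂(Measure.map (fun x =>
          (Preorder.frestrictLe (π := fun _ : ℕ => Position V) n x, x (n + 1)))
          (law G p σ ρ x₀)) := by
    rw [lintegral_map]
    · exact (hg.comp measurable_fst).mul (hf.comp measurable_snd)
    · exact (Preorder.measurable_frestrictLe n).prodMk (measurable_pi_apply _)
  have hm : Measurable (fun y : ((i : Finset.Iic n) → (fun _ : ℕ => Position V) i) × Position V =>
      g y.1 * f y.2) := (hg.comp measurable_fst).mul (hf.comp measurable_snd)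
  rw [h1, law, ← hcomp, Measure.lintegral_compProd hm]
  have h2 : ∀ h : ((i : Finset.Iic n) → (fun _ : ℕ => Position V) i),
      ∫⁻ y, g h * f y ∂(stepKernel G p σ ρ n h) =
        g h * ex (step G p σ ρ n (h ⟨n, Finset.mem_Iic.2 le_rfl⟩)) f := by
    intro h
    rw [lintegral_const_mul _ hf]
    congr 1
    exact lintegral_toMeasure measurableSet_position _ _
  simp_rw [h2]
  rw [lintegral_map]
  · rfl
  · have h3 : Measurable (fun x : Position V => ex (step G p σ ρ n x) f) := fun _ _ => trivial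
    exact hg.mul (h3.comp (measurable_pi_apply _))
  · exact Preorder.measurable_frestrictLe n

theorem law_zero (p : Params) (σ : CopStrategy G) (ρ : RobberStrategy G) (x₀ : Position V)
    (f : Position V → ℝ≥0∞) :
    ∫⁻ x, f (x 0) ∂(law G p σ ρ x₀) = f x₀ := by
  have hf : Measurable f := fun s _ => trivial
  have h0 : Measure.map (Preorder.frestrictLe (π := fun _ : ℕ => Position V) 0)
      (law G p σ ρ x₀) = (Measure.dirac x₀).map (MeasurableEquiv.piUnique _).symm := by
    rw [law, Kernel.trajMeasure, Measure.map_comp _ _ (by fun_prop),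
      Kernel.traj_map_frestrictLe, Kernel.partialTraj_self]
    exact Measure.id_comp
  have h1 : Measure.map (fun x : ℕ → Position V => x 0) (law G p σ ρ x₀) = Measure.dirac x₀ := by
    have h2 : (fun x : ℕ → Position V => x 0) =
        (fun h : ((i : Finset.Iic 0) → (fun _ : ℕ => Position V) i) =>
          h ⟨0, Finset.mem_Iic.2 le_rfl⟩) ∘
        (Preorder.frestrictLe (π := fun _ : ℕ => Position V) 0) := rfl
    rw [h2, ← Measure.map_map (measurable_pi_apply _) (by fun_prop), h0,
      Measure.map_map (measurable_pi_apply _) (by fun_prop)]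
    exact Measure.map_id
  rw [← lintegral_dirac' x₀ hf, ← h1, lintegral_map hf (measurable_pi_apply 0)]

/-- the set of positions sequences that stay in `S` up to time `n` -/
def stay {V : Type} (S : Set (Position V)) (n : ℕ) : Set (ℕ → Position V) :=
  {x | ∀ i ≤ n, x i ∈ S}

omit [G.LocallyFinite] in
theorem measurableSet_stay (S : Set (Position V)) (n : ℕ) : MeasurableSet (stay S n) := by
  have : stay S n = ⋂ i ≤ n, (fun x : ℕ → Position V => x i) ⁻¹' S := by
    ext x; simp [stay]
  rw [this]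
  exact MeasurableSet.iInter fun i => MeasurableSet.iInter fun _ =>
    (measurable_pi_apply i) (measurableSet_position S)

open Classical in
theorem law_stay_succ (p : Params) (σ : CopStrategy G) (ρ : RobberStrategy G) (x₀ : Position V)
    (S : Set (Position V)) (n : ℕ) (f : Position V → ℝ≥0∞) :
    ∫⁻ x, (stay S n).indicator (fun x => f (x (n + 1))) x ∂(law G p σ ρ x₀) =
      ∫⁻ x, (stay S n).indicator (fun x => ex (step G p σ ρ n (x n)) f) x
        ∂(law G p σ ρ x₀) := by
  set T : Set ((i : Finset.Iic n) → (fun _ : ℕ => Position V) i) := {h | ∀ i, h i ∈ S} with hT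
  have hTm : MeasurableSet T := by
    have : T = ⋂ i, (fun h : ((i : Finset.Iic n) → (fun _ : ℕ => Position V) i) => h i) ⁻¹' S := by
      ext x; simp [hT]
    rw [this]
    exact MeasurableSet.iInter fun i => (measurable_pi_apply i) (measurableSet_position S)
  have hg : Measurable (T.indicator (fun _ => (1 : ℝ≥0∞))) :=
    measurable_const.indicator hTm
  have hmem : ∀ x : ℕ → Position V,
      Preorder.frestrictLe (π := fun _ : ℕ => Position V) n x ∈ T ↔ x ∈ stay S n := by
    intro x
    simp [hT, stay, Preorder.frestrictLe, Finset.restrict]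
  have key := law_step G p σ ρ x₀ n _ hg f
  have e1 : ∀ (F : (ℕ → Position V) → ℝ≥0∞) (x : ℕ → Position V),
      T.indicator (fun _ => (1 : ℝ≥0∞))
        (Preorder.frestrictLe (π := fun _ : ℕ => Position V) n x) * F x =
      (stay S n).indicator F x := by
    intro F x
    by_cases hx : x ∈ stay S n
    · rw [Set.indicator_of_mem hx, Set.indicator_of_mem ((hmem x).2 hx), one_mul]
    · rw [Set.indicator_of_notMem hx, Set.indicator_of_notMem (fun h => hx ((hmem x).1 h)),
        zero_mul]
  simp_rw [e1 (fun x => f (x (n + 1))), e1 (fun x => ex (step G p σ ρ n (x n)) f)] at key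
  exact key

instance instIsProbabilityMeasureLaw (p : Params) (σ : CopStrategy G) (ρ : RobberStrategy G)
    (x₀ : Position V) : IsProbabilityMeasure (law G p σ ρ x₀) := by
  unfold law; infer_instance

/-- **Drift criterion for the cop.** -/
theorem winning_of_drift (p : Params) (σ : CopStrategy G) (x₀ : Position V)
    (L : Position V → ℝ≥0∞) (δ : ℝ≥0∞) (hδ : δ ≠ 0) (hfin : L x₀ ≠ ∞)
    (hdrift : ∀ ρ : RobberStrategy G, ∀ s x, x.cop ≠ x.robber →
      ex (step G p σ ρ s x) (Set.indicator {y | y.cop ≠ y.robber} L) + δ ≤ L x) :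
    Winning G p x₀ σ := by
  intro ρ
  set S : Set (Position V) := {y | y.cop ≠ y.robber} with hS
  set P := law G p σ ρ x₀ with hP
  have hrec : ∀ n, ∫⁻ x, (stay S (n + 1)).indicator (fun x => L (x (n + 1))) x ∂P +
      δ * P (stay S n) ≤ ∫⁻ x, (stay S n).indicator (fun x => L (x n)) x ∂P := by
    intro n
    have e1 : ∀ x : ℕ → Position V, (stay S (n + 1)).indicator (fun x => L (x (n + 1))) x =
        (stay S n).indicator (fun x => (S.indicator L) (x (n + 1))) x := by
      intro x
      by_cases h1 : x ∈ stay S n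
      · by_cases h2 : x (n + 1) ∈ S
        · have h3 : x ∈ stay S (n + 1) := by
            intro i hi
            rcases Nat.lt_or_ge i (n + 1) with h | h
            · exact h1 i (by omega)
            · have : i = n + 1 := by omega
              rw [this]; exact h2
          rw [Set.indicator_of_mem h3, Set.indicator_of_mem h1, Set.indicator_of_mem h2]
        · have h3 : x ∉ stay S (n + 1) := fun h => h2 (h _ le_rfl)
          rw [Set.indicator_of_notMem h3, Set.indicator_of_mem h1, Set.indicator_of_notMem h2]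
      · have h3 : x ∉ stay S (n + 1) := fun h => h1 fun i hi => h i (by omega)
        rw [Set.indicator_of_notMem h3, Set.indicator_of_notMem h1]
    rw [lintegral_congr e1, law_stay_succ]
    have e2 : δ * P (stay S n) = ∫⁻ x, (stay S n).indicator (fun _ => δ) x ∂P := by
      rw [lintegral_indicator_const (measurableSet_stay S n)]
    rw [e2, ← lintegral_add_right _ (measurable_const.indicator (measurableSet_stay S n))]
    refine lintegral_mono fun x => ?_
    by_cases h1 : x ∈ stay S n
    · simp only [Set.indicator_of_mem h1]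
      exact hdrift ρ n (x n) (h1 n le_rfl)
    · simp only [Set.indicator_of_notMem h1]
      simp
  have hsum : ∀ n, ∫⁻ x, (stay S n).indicator (fun x => L (x n)) x ∂P +
      ∑ k ∈ Finset.range n, δ * P (stay S k) ≤ L x₀ := by
    intro n
    induction n with
    | zero =>
      simp only [Finset.range_zero, Finset.sum_empty, add_zero]
      calc ∫⁻ x, (stay S 0).indicator (fun x => L (x 0)) x ∂P ≤ ∫⁻ x, L (x 0) ∂P :=
            lintegral_mono fun x => Set.indicator_le_self _ _ _
        _ = L x₀ := law_zero G p σ ρ x₀ L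
    | succ n ih =>
      rw [Finset.sum_range_succ]
      calc _ = (∫⁻ x, (stay S (n + 1)).indicator (fun x => L (x (n + 1))) x ∂P +
            δ * P (stay S n)) + ∑ k ∈ Finset.range n, δ * P (stay S k) := by ring
        _ ≤ _ := by gcongr; exact hrec n
        _ ≤ L x₀ := ih
  set q := P {x | ∀ s, x s ∈ S} with hq
  have hle : ∀ n : ℕ, (n : ℝ≥0∞) * (δ * q) ≤ L x₀ := by
    intro n
    have h1 : ∀ k ∈ Finset.range n, δ * q ≤ δ * P (stay S k) := by
      intro k _
      have hsub : {x : ℕ → Position V | ∀ s, x s ∈ S} ⊆ stay S k := fun x hx i _ => hx i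
      have := measure_mono (μ := P) hsub
      gcongr
    have h2 := Finset.sum_le_sum h1
    rw [Finset.sum_const, Finset.card_range, nsmul_eq_mul] at h2
    exact h2.trans (le_add_self.trans (hsum n))
  have hq0 : q = 0 := by
    by_contra hne
    have hpos : δ * q ≠ 0 := mul_ne_zero hδ hne
    obtain ⟨n, hn⟩ := ENNReal.exists_nat_mul_gt hpos hfin
    exact absurd (hle n) (not_le.2 hn)
  rw [ae_iff]
  refine le_antisymm (le_of_le_of_eq (measure_mono ?_) hq0) zero_le
  intro x hx s
  simp only [Set.mem_ofPred_eq, not_exists] at hx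
  exact hx s

/-- **Potential criterion for the robber.** -/
theorem not_winning_of_potential (p : Params) (σ : CopStrategy G) (ρ : RobberStrategy G)
    (x₀ : Position V) (S : Set (Position V)) (hS : ∀ x ∈ S, x.cop ≠ x.robber)
    (F : Position V → ℝ≥0∞) (hx₀ : x₀ ∈ S) (hlt : F x₀ < 1) (hout : ∀ x ∉ S, 1 ≤ F x)
    (hsup : ∀ s, ∀ x ∈ S, ex (step G p σ ρ s x) F ≤ F x) :
    ¬ Winning G p x₀ σ := by
  intro hwin
  have hwin := hwin ρ
  set P := law G p σ ρ x₀ with hP
  -- the probability to leave `S` is at most `F x₀`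
  have hrec : ∀ n, P (stay S (n + 1))ᶜ +
        ∫⁻ x, (stay S (n + 1)).indicator (fun x => F (x (n + 1))) x ∂P ≤
      P (stay S n)ᶜ + ∫⁻ x, (stay S n).indicator (fun x => F (x n)) x ∂P := by
    intro n
    have h1 : ∫⁻ x, (stay S n).indicator (fun x => ex (step G p σ ρ n (x n)) F) x ∂P ≤
        ∫⁻ x, (stay S n).indicator (fun x => F (x n)) x ∂P := by
      refine lintegral_mono fun x => ?_
      by_cases h1 : x ∈ stay S n
      · simp only [Set.indicator_of_mem h1]
        exact hsup n (x n) (h1 n le_rfl)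
      · simp only [Set.indicator_of_notMem h1]
        simp
    rw [← law_stay_succ] at h1
    have hm : ∀ n, MeasurableSet (stay S n) := measurableSet_stay S
    have e1 : P (stay S (n + 1))ᶜ = ∫⁻ x, (stay S (n + 1))ᶜ.indicator (fun _ => 1) x ∂P := by
      rw [lintegral_indicator_const (hm _).compl, one_mul]
    have e2 : P (stay S n)ᶜ = ∫⁻ x, (stay S n)ᶜ.indicator (fun _ => 1) x ∂P := by
      rw [lintegral_indicator_const (hm _).compl, one_mul]
    calc P (stay S (n + 1))ᶜ +
        ∫⁻ x, (stay S (n + 1)).indicator (fun x => F (x (n + 1))) x ∂P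
        = ∫⁻ x, ((stay S (n + 1))ᶜ.indicator (fun _ => 1) x +
          (stay S (n + 1)).indicator (fun x => F (x (n + 1))) x) ∂P := by
          rw [e1, ← lintegral_add_left (measurable_const.indicator (hm _).compl)]
      _ ≤ ∫⁻ x, ((stay S n)ᶜ.indicator (fun _ => 1) x +
          (stay S n).indicator (fun x => F (x (n + 1))) x) ∂P := by
          refine lintegral_mono fun x => ?_
          by_cases h1 : x ∈ stay S n
          · by_cases h2 : x ∈ stay S (n + 1)
            · simp [h1, h2]
            · have h3 : x (n + 1) ∉ S := by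
                intro h3
                apply h2
                intro i hi
                rcases Nat.lt_or_ge i (n + 1) with h | h
                · exact h1 i (by omega)
                · have : i = n + 1 := by omega
                  rw [this]; exact h3
              simp [h1, h2, hout _ h3]
          · have h2 : x ∉ stay S (n + 1) := fun h => h1 fun i hi => h i (by omega)
            simp [h1, h2]
      _ = P (stay S n)ᶜ + ∫⁻ x, (stay S n).indicator (fun x => F (x (n + 1))) x ∂P := by
          rw [e2, ← lintegral_add_left (measurable_const.indicator (hm _).compl)]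
      _ ≤ _ := by gcongr
  have hbound : ∀ n, P (stay S n)ᶜ +
      ∫⁻ x, (stay S n).indicator (fun x => F (x n)) x ∂P ≤ F x₀ := by
    intro n
    induction n with
    | zero =>
      have e1 : P (stay S 0)ᶜ = 0 := by
        have h3 := law_zero G p σ ρ x₀ (Sᶜ.indicator fun _ => 1)
        rw [Set.indicator_of_notMem (by simpa using hx₀)] at h3
        have e4 : P (stay S 0)ᶜ = ∫⁻ x, (stay S 0)ᶜ.indicator (fun _ => 1) x ∂P := by
          rw [lintegral_indicator_const (measurableSet_stay S 0).compl, one_mul]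
        rw [e4, ← h3]
        refine lintegral_congr fun x => ?_
        by_cases h : x 0 ∈ S
        · have : x ∈ stay S 0 := by
            intro i hi
            have : i = 0 := by omega
            rw [this]; exact h
          simp [h, this]
        · have : x ∉ stay S 0 := fun h' => h (h' 0 le_rfl)
          simp [h, this]
      rw [e1, zero_add]
      calc ∫⁻ x, (stay S 0).indicator (fun x => F (x 0)) x ∂P ≤ ∫⁻ x, F (x 0) ∂P :=
            lintegral_mono fun x => Set.indicator_le_self _ _ _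
        _ = F x₀ := law_zero G p σ ρ x₀ F
    | succ n ih => exact (hrec n).trans ih
  have hunion : P (⋃ n, (stay S n)ᶜ) ≤ F x₀ := by
    have hmono : Monotone fun n => (stay S n)ᶜ := by
      intro a b hab x hx h
      exact hx fun i hi => h i (hi.trans hab)
    rw [hmono.measure_iUnion]
    exact iSup_le fun n => le_self_add.trans (hbound n)
  have hone : P (⋃ n, (stay S n)ᶜ) = 1 := by
    rw [prob_compl_eq_zero_iff (MeasurableSet.iUnion fun n => (measurableSet_stay S n).compl)
      |>.symm]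
    rw [ae_iff] at hwin
    refine le_antisymm (le_of_le_of_eq (measure_mono ?_) hwin) zero_le
    intro x hx
    simp only [Set.compl_iUnion, compl_compl, Set.mem_iInter] at hx
    simp only [Set.mem_ofPred_eq, not_exists]
    intro s
    exact hS _ (hx s s le_rfl)
  rw [hone] at hunion
  exact absurd hlt (not_lt.2 hunion)

/-! ### The criteria with real-valued functions -/

theorem ofReal_avg (s : Finset V) (f : V → ℝ) (hf : ∀ w, 0 ≤ f w) (hs : s.Nonempty) :
    (s.card : ℝ≥0∞)⁻¹ * ∑ w ∈ s, ENNReal.ofReal (f w) =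
      ENNReal.ofReal ((∑ w ∈ s, f w) / s.card) := by
  rw [← ENNReal.ofReal_sum_of_nonneg fun w _ => hf w, div_eq_inv_mul,
    ENNReal.ofReal_mul (by positivity), ENNReal.ofReal_inv_of_pos (by
      have := hs.card_pos
      exact_mod_cast this), ENNReal.ofReal_natCast]

theorem ex_step_ofReal (hG : ∀ v, (G.neighborFinset v).Nonempty) (p : Params) (σ : CopStrategy G)
    (ρ : RobberStrategy G) (s : ℕ) (x : Position V) (f : V → V → ℝ) (hf : ∀ u v, 0 ≤ f u v) :
    ex (step G p σ ρ s x) (fun y => ENNReal.ofReal (f y.cop y.robber)) =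
      ENNReal.ofReal (p.c * f (σ.move s x.cop x.robber) x.robber +
        p.r * f x.cop (ρ.move s x.cop x.robber) +
        p.tc * ((∑ w ∈ G.neighborFinset x.cop, f w x.robber) / G.degree x.cop) +
        p.tr * ((∑ w ∈ G.neighborFinset x.robber, f x.cop w) / G.degree x.robber)) := by
  rw [ex_step G hG]
  have h1 := ofReal_avg (G.neighborFinset x.cop) (fun w => f w x.robber) (fun w => hf _ _) (hG _)
  have h2 := ofReal_avg (G.neighborFinset x.robber) (fun w => f x.cop w) (fun w => hf _ _) (hG _)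
  rw [SimpleGraph.card_neighborFinset_eq_degree] at h1 h2
  simp only [h1, h2]
  have q1 : 0 ≤ (∑ w ∈ G.neighborFinset x.cop, f w x.robber) / (G.degree x.cop : ℝ) :=
    div_nonneg (Finset.sum_nonneg fun _ _ => hf _ _) (by positivity)
  have q2 : 0 ≤ (∑ w ∈ G.neighborFinset x.robber, f x.cop w) / (G.degree x.robber : ℝ) :=
    div_nonneg (Finset.sum_nonneg fun _ _ => hf _ _) (by positivity)
  have q3 := hf (σ.move s x.cop x.robber) x.robber
  have q4 := hf x.cop (ρ.move s x.cop x.robber)
  rw [ENNReal.ofReal_add (by positivity) (by positivity),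
    ENNReal.ofReal_add (by positivity) (by positivity),
    ENNReal.ofReal_add (by positivity) (by positivity),
    ENNReal.ofReal_mul (by positivity), ENNReal.ofReal_mul (by positivity),
    ENNReal.ofReal_mul (by positivity), ENNReal.ofReal_mul (by positivity)]
  simp only [ENNReal.ofReal_coe_nnreal]

theorem winning_of_drift_real (hG : ∀ v, (G.neighborFinset v).Nonempty) (p : Params)
    (σ : CopStrategy G) (x₀ : Position V) (L : V → V → ℝ) (hL : ∀ u v, 0 ≤ L u v)
    (hdiag : ∀ u, L u u = 0) (δ : ℝ) (hδ : 0 < δ)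
    (h : ∀ s u v v', u ≠ v → G.Adj v v' →
      p.c * L (σ.move s u v) v + p.r * L u v' +
        p.tc * ((∑ w ∈ G.neighborFinset u, L w v) / G.degree u) +
        p.tr * ((∑ w ∈ G.neighborFinset v, L u w) / G.degree v) + δ ≤ L u v) :
    Winning G p x₀ σ := by
  refine winning_of_drift G p σ x₀ (fun y => ENNReal.ofReal (L y.cop y.robber))
    (ENNReal.ofReal δ) (by simpa using hδ) ENNReal.ofReal_ne_top ?_
  intro ρ s x hx
  have e1 : Set.indicator {y : Position V | y.cop ≠ y.robber}
      (fun y => ENNReal.ofReal (L y.cop y.robber)) =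
      fun y => ENNReal.ofReal (L y.cop y.robber) := by
    funext y
    by_cases hy : y.cop = y.robber
    · rw [Set.indicator_of_notMem (by simpa using hy), hy, hdiag]; simp
    · rw [Set.indicator_of_mem (by simpa using hy)]
  rw [e1, ex_step_ofReal G hG p σ ρ s x L hL, ← ENNReal.ofReal_add _ hδ.le]
  · exact ENNReal.ofReal_le_ofReal (h s x.cop x.robber _ hx (ρ.legal s x.cop x.robber))
  · have q1 : 0 ≤ (∑ w ∈ G.neighborFinset x.cop, L w x.robber) / (G.degree x.cop : ℝ) :=
      div_nonneg (Finset.sum_nonneg fun _ _ => hL _ _) (by positivity)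
    have q2 : 0 ≤ (∑ w ∈ G.neighborFinset x.robber, L x.cop w) / (G.degree x.robber : ℝ) :=
      div_nonneg (Finset.sum_nonneg fun _ _ => hL _ _) (by positivity)
    have q3 := hL (σ.move s x.cop x.robber) x.robber
    have q4 := hL x.cop (ρ.move s x.cop x.robber)
    positivity

theorem not_winning_real (hG : ∀ v, (G.neighborFinset v).Nonempty) (p : Params)
    (σ : CopStrategy G) (ρ : RobberStrategy G) (u₀ v₀ : V) (S : V → V → Prop)
    (hS : ∀ u v, S u v → u ≠ v) (F : V → V → ℝ) (hF : ∀ u v, 0 ≤ F u v) (hx₀ : S u₀ v₀)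
    (hlt : F u₀ v₀ < 1) (hout : ∀ u v, ¬ S u v → 1 ≤ F u v)
    (h : ∀ s u v, S u v →
      p.c * F (σ.move s u v) v + p.r * F u (ρ.move s u v) +
        p.tc * ((∑ w ∈ G.neighborFinset u, F w v) / G.degree u) +
        p.tr * ((∑ w ∈ G.neighborFinset v, F u w) / G.degree v) ≤ F u v) :
    ¬ Winning G p ⟨u₀, v₀⟩ σ := by
  refine not_winning_of_potential G p σ ρ ⟨u₀, v₀⟩ {y | S y.cop y.robber}
    (fun x hx => hS _ _ hx) (fun y => ENNReal.ofReal (F y.cop y.robber)) hx₀ ?_ ?_ ?_
  · simpa using hlt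
  · intro x hx
    rw [← ENNReal.ofReal_one]
    exact ENNReal.ofReal_le_ofReal (hout _ _ hx)
  · intro s x hx
    rw [ex_step_ofReal G hG p σ ρ s x F hF]
    exact ENNReal.ofReal_le_ofReal (h s x.cop x.robber hx)

end Game2

/-! ### The graph -/

/-- The types of vertices of the graph: `A k` (left ray), `B n` (thick ray), `G n` (road),
`L n` (leaves hanging off the road). -/
inductive Base where
  | A (k : ℕ)
  | B (n : ℕ)
  | G (n : ℕ)
  | L (n : ℕ)
  deriving DecidableEq

namespace Base

/-- The number of vertices of each type. -/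
def size : Base → ℕ
  | A _ => 1
  | B n => 4 ^ n
  | G _ => 1
  | L n => 63 * 4 ^ n

/-- The types adjacent to a given type. -/
def nbrs : Base → Finset Base
  | A 0 => {B 0, A 1}
  | A (k + 1) => {A k, A (k + 2)}
  | B 0 => {A 0, B 1, G 0}
  | B (n + 1) => {B n, B (n + 2), G (n + 1)}
  | G 0 => {B 0, L 0, G 1}
  | G (n + 1) => {B (n + 1), L (n + 1), G n, G (n + 2)}
  | L n => {G n}

theorem mem_nbrs_symm {t t' : Base} (h : t' ∈ t.nbrs) : t ∈ t'.nbrs := by
  rcases t with (_ | k) | (_ | n) | (_ | n) | n <;>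
    simp only [nbrs, Finset.mem_insert, Finset.mem_singleton] at h
  · rcases h with rfl | rfl <;> simp [nbrs]
  · rcases h with rfl | rfl
    · cases k <;> simp [nbrs]
    · simp [nbrs]
  · rcases h with rfl | rfl | rfl <;> simp [nbrs]
  · rcases h with rfl | rfl | rfl
    · cases n <;> simp [nbrs]
    · simp [nbrs]
    · simp [nbrs]
  · rcases h with rfl | rfl | rfl <;> simp [nbrs]
  · rcases h with rfl | rfl | rfl | rfl
    · simp [nbrs]
    · simp [nbrs]
    · cases n <;> simp [nbrs]
    · simp [nbrs]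
  · subst h
    cases n <;> simp [nbrs]

theorem not_mem_nbrs_self (t : Base) : t ∉ t.nbrs := by
  rcases t with (_ | k) | (_ | n) | (_ | n) | n <;> simp [nbrs]

theorem size_pos (t : Base) : 0 < t.size := by
  cases t <;> simp [size]

end Base

/-- The vertex set. -/
abbrev Vtx : Type := Σ t : Base, Fin t.size

/-- The graph. -/
def ladder : SimpleGraph Vtx where
  Adj x y := y.1 ∈ x.1.nbrs
  symm := ⟨fun _ _ h => Base.mem_nbrs_symm h⟩
  loopless := ⟨fun x h => Base.not_mem_nbrs_self x.1 h⟩

theorem ladder_adj (x y : Vtx) : ladder.Adj x y ↔ y.1 ∈ x.1.nbrs := Iff.rfl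

instance instLocallyFiniteLadder : ladder.LocallyFinite := fun x =>
  Fintype.ofFinset (x.1.nbrs.sigma fun _ => Finset.univ) (by
    intro y
    simp [ladder_adj])

theorem neighborFinset_ladder (x : Vtx) :
    ladder.neighborFinset x = x.1.nbrs.sigma fun _ => Finset.univ := by
  ext y
  simp [ladder_adj]

theorem sum_neighborFinset (x : Vtx) (f : Vtx → ℝ) :
    ∑ w ∈ ladder.neighborFinset x, f w = ∑ t ∈ x.1.nbrs, ∑ i : Fin t.size, f ⟨t, i⟩ := by
  rw [neighborFinset_ladder, Finset.sum_sigma]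

theorem degree_ladder (x : Vtx) : (ladder.degree x : ℝ) = ∑ t ∈ x.1.nbrs, (t.size : ℝ) := by
  rw [← SimpleGraph.card_neighborFinset_eq_degree, neighborFinset_ladder, Finset.card_sigma]
  simp

theorem nbrs_nonempty (t : Base) : t.nbrs.Nonempty := by
  rcases t with (_ | k) | (_ | n) | (_ | n) | n <;> simp [Base.nbrs]

theorem ladder_nbrs_nonempty (x : Vtx) : (ladder.neighborFinset x).Nonempty := by
  obtain ⟨t, ht⟩ := nbrs_nonempty x.1
  exact ⟨⟨t, ⟨0, t.size_pos⟩⟩, by rw [neighborFinset_ladder]; simp [ht]⟩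

theorem sum_size_pos (t : Base) : 0 < ∑ w ∈ t.nbrs, (w.size : ℝ) := by
  refine Finset.sum_pos (fun w _ => ?_) (nbrs_nonempty t)
  exact_mod_cast w.size_pos

/-- A bound for the average of a function over the neighbours. -/
theorem avg_le (x : Vtx) (f : Vtx → ℝ) (φ : Base → ℝ) (β : ℝ)
    (h1 : ∀ t ∈ x.1.nbrs, ∀ i, f ⟨t, i⟩ ≤ φ t)
    (h2 : ∑ t ∈ x.1.nbrs, (t.size : ℝ) * φ t ≤ β * ∑ t ∈ x.1.nbrs, (t.size : ℝ)) :
    (∑ w ∈ ladder.neighborFinset x, f w) / ladder.degree x ≤ β := by
  rw [sum_neighborFinset, degree_ladder, div_le_iff₀ (sum_size_pos _)]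
  refine le_trans (Finset.sum_le_sum fun t ht => ?_) h2
  calc ∑ i : Fin t.size, f ⟨t, i⟩ ≤ ∑ _i : Fin t.size, φ t :=
        Finset.sum_le_sum fun i _ => h1 t ht i
    _ = (t.size : ℝ) * φ t := by simp

/-- Another bound for the average of a function over the neighbours. -/
theorem avg_le' (x : Vtx) (f : Vtx → ℝ) (β : ℝ) (h1 : ∀ w, ladder.Adj x w → f w ≤ β) :
    (∑ w ∈ ladder.neighborFinset x, f w) / ladder.degree x ≤ β := by
  refine avg_le x f (fun _ => β) β (fun t ht i => h1 _ ht) ?_
  rw [← Finset.sum_mul, mul_comm]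

/-! ### The strategy of the cop and the Lyapunov function -/

namespace Base

/-- position on the left ray -/
noncomputable def e : Base → ℝ
  | A k => 10 * (k + 1)
  | _ => 0

/-- level -/
def lvl : Base → ℕ
  | A _ => 0
  | B n => n
  | G n => n
  | L n => n

/-- penalty of a type -/
noncomputable def pen : Base → ℝ
  | A _ => 5
  | B _ => 5
  | G _ => 0
  | L _ => 1 / 8

/-- cost to go from a type to `B 0` -/
noncomputable def rgt : Base → ℝ
  | A _ => 0
  | B 0 => 0
  | B (n + 1) => n + 7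
  | G n => n + 1
  | L n => n + 1 + 1 / 8

/-- the main part of the Lyapunov function -/
noncomputable def psi (t : Base) : Base → ℝ
  | A j => |t.e - 10 * (j + 1)| + t.rgt
  | B m => t.e + |(t.lvl : ℝ) - m| + t.pen
  | G m => t.e + |(t.lvl : ℝ) - m| + t.pen
  | L m => t.e + |(t.lvl : ℝ) - m| + t.pen

/-- the sober moves of the cop -/
def cop : Base → Base → Base
  | A k, A j => if k < j then A (k + 1) else (match k with | 0 => B 0 | k + 1 => A k)
  | A 0, _ => B 0
  | A (k + 1), _ => A k
  | B 0, A _ => A 0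
  | B n, _ => G n
  | G 0, A _ => B 0
  | G (n + 1), A _ => G n
  | G n, t => if n < t.lvl then G (n + 1) else (match n with | 0 => B 0 | n + 1 => G n)
  | L n, _ => G n

theorem cop_mem (t t' : Base) : cop t t' ∈ t.nbrs := by
  rcases t with (_ | k) | (_ | n) | (_ | n) | n <;> rcases t' with j | m | m | m <;>
    simp only [cop] <;> (try split_ifs) <;> simp [nbrs]

theorem e_nonneg (t : Base) : 0 ≤ t.e := by
  cases t <;> simp only [e] <;> positivity

theorem pen_nonneg (t : Base) : 0 ≤ t.pen := by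
  cases t <;> simp only [pen] <;> norm_num

theorem rgt_nonneg (t : Base) : 0 ≤ t.rgt := by
  rcases t with k | (_ | n) | n | n <;> simp only [rgt] <;> positivity

theorem psi_nonneg (t t' : Base) : 0 ≤ psi t t' := by
  have h1 := e_nonneg t
  have h2 := pen_nonneg t
  have h3 := rgt_nonneg t
  cases t' <;> simp only [psi] <;> positivity

theorem lvl_add_pen_le (t : Base) : (t.lvl : ℝ) + t.pen ≤ t.rgt + 5 := by
  rcases t with k | (_ | n) | n | n <;> simp only [rgt, lvl, pen] <;> push_cast <;> linarith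

theorem rgt_le (t : Base) : t.rgt ≤ t.lvl + t.pen + 1 := by
  rcases t with k | (_ | n) | n | n <;> simp only [rgt, lvl, pen] <;> push_cast <;> linarith

/-- the robber cannot increase `psi` by more than `16` in one step -/
theorem psi_robber (t t' w : Base) (hw : w ∈ t'.nbrs) : psi t w ≤ psi t t' + 16 := by
  have h1 := lvl_add_pen_le t
  have h2 := rgt_le t
  have h3 := e_nonneg t
  have h4 := pen_nonneg t
  have h5 : (0 : ℝ) ≤ t.lvl := by positivity
  rcases t' with (_ | k) | (_ | n) | (_ | n) | n <;>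
    simp only [nbrs, Finset.mem_insert, Finset.mem_singleton] at hw
  · rcases hw with rfl | rfl <;> simp only [psi] <;> push_cast <;>
    rcases abs_cases (t.e - 10 * ((0 : ℝ) + 1)) with ⟨q1, _⟩ | ⟨q1, _⟩
    · rcases abs_cases ((t.lvl : ℝ) - 0) with ⟨q2, _⟩ | ⟨q2, _⟩ <;> linarith
    · rcases abs_cases ((t.lvl : ℝ) - 0) with ⟨q2, _⟩ | ⟨q2, _⟩ <;> linarith
    · rcases abs_cases (t.e - 10 * ((1 : ℝ) + 1)) with ⟨q2, _⟩ | ⟨q2, _⟩ <;> linarith
    · rcases abs_cases (t.e - 10 * ((1 : ℝ) + 1)) with ⟨q2, _⟩ | ⟨q2, _⟩ <;> linarith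
  · rcases hw with rfl | rfl <;> simp only [psi] <;> push_cast <;>
    rcases abs_cases (t.e - 10 * ((k : ℝ) + 1 + 1)) with ⟨q1, _⟩ | ⟨q1, _⟩
    · rcases abs_cases (t.e - 10 * ((k : ℝ) + 1)) with ⟨q2, _⟩ | ⟨q2, _⟩ <;> linarith
    · rcases abs_cases (t.e - 10 * ((k : ℝ) + 1)) with ⟨q2, _⟩ | ⟨q2, _⟩ <;> linarith
    · rcases abs_cases (t.e - 10 * ((k : ℝ) + 2 + 1)) with ⟨q2, _⟩ | ⟨q2, _⟩ <;> linarith
    · rcases abs_cases (t.e - 10 * ((k : ℝ) + 2 + 1)) with ⟨q2, _⟩ | ⟨q2, _⟩ <;> linarith
  · rcases hw with rfl | rfl | rfl <;> simp only [psi] <;> push_cast <;>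
    rcases abs_cases ((t.lvl : ℝ) - 0) with ⟨q1, _⟩ | ⟨q1, _⟩
    · rcases abs_cases (t.e - 10 * ((0 : ℝ) + 1)) with ⟨q2, _⟩ | ⟨q2, _⟩ <;> linarith
    · rcases abs_cases (t.e - 10 * ((0 : ℝ) + 1)) with ⟨q2, _⟩ | ⟨q2, _⟩ <;> linarith
    · rcases abs_cases ((t.lvl : ℝ) - 1) with ⟨q2, _⟩ | ⟨q2, _⟩ <;> linarith
    · rcases abs_cases ((t.lvl : ℝ) - 1) with ⟨q2, _⟩ | ⟨q2, _⟩ <;> linarith
    · linarith
    · linarith
  · rcases hw with rfl | rfl | rfl <;> simp only [psi] <;> push_cast <;>
    rcases abs_cases ((t.lvl : ℝ) - ((n : ℝ) + 1)) with ⟨q1, _⟩ | ⟨q1, _⟩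
    · rcases abs_cases ((t.lvl : ℝ) - (n : ℝ)) with ⟨q2, _⟩ | ⟨q2, _⟩ <;> linarith
    · rcases abs_cases ((t.lvl : ℝ) - (n : ℝ)) with ⟨q2, _⟩ | ⟨q2, _⟩ <;> linarith
    · rcases abs_cases ((t.lvl : ℝ) - ((n : ℝ) + 2)) with ⟨q2, _⟩ | ⟨q2, _⟩ <;> linarith
    · rcases abs_cases ((t.lvl : ℝ) - ((n : ℝ) + 2)) with ⟨q2, _⟩ | ⟨q2, _⟩ <;> linarith
    · linarith
    · linarith
  · rcases hw with rfl | rfl | rfl <;> simp only [psi] <;> push_cast <;>
    rcases abs_cases ((t.lvl : ℝ) - 0) with ⟨q1, _⟩ | ⟨q1, _⟩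
    · linarith
    · linarith
    · linarith
    · linarith
    · rcases abs_cases ((t.lvl : ℝ) - 1) with ⟨q2, _⟩ | ⟨q2, _⟩ <;> linarith
    · rcases abs_cases ((t.lvl : ℝ) - 1) with ⟨q2, _⟩ | ⟨q2, _⟩ <;> linarith
  · rcases hw with rfl | rfl | rfl | rfl <;> simp only [psi] <;> push_cast <;>
    rcases abs_cases ((t.lvl : ℝ) - ((n : ℝ) + 1)) with ⟨q1, _⟩ | ⟨q1, _⟩
    · linarith
    · linarith
    · linarith
    · linarith
    · rcases abs_cases ((t.lvl : ℝ) - (n : ℝ)) with ⟨q2, _⟩ | ⟨q2, _⟩ <;> linarith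
    · rcases abs_cases ((t.lvl : ℝ) - (n : ℝ)) with ⟨q2, _⟩ | ⟨q2, _⟩ <;> linarith
    · rcases abs_cases ((t.lvl : ℝ) - ((n : ℝ) + 2)) with ⟨q2, _⟩ | ⟨q2, _⟩ <;> linarith
    · rcases abs_cases ((t.lvl : ℝ) - ((n : ℝ) + 2)) with ⟨q2, _⟩ | ⟨q2, _⟩ <;> linarith
  · subst hw
    simp only [psi]
    linarith

/-- the cop cannot increase `psi` by more than `10` in one step -/
theorem psi_cop (t t' w : Base) (hw : w ∈ t.nbrs) : psi w t' ≤ psi t t' + 10 := by
  -- right targets
  have key1 : ∀ m : ℕ, w.e + |(w.lvl : ℝ) - m| + w.pen ≤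
      t.e + |(t.lvl : ℝ) - m| + t.pen + 10 := by
    intro m
    rcases t with (_ | k) | (_ | n) | (_ | n) | n <;>
      simp only [nbrs, Finset.mem_insert, Finset.mem_singleton] at hw
    · rcases hw with rfl | rfl <;> simp only [e, lvl, pen] <;> push_cast <;> linarith
    · rcases hw with rfl | rfl <;> simp only [e, lvl, pen] <;> push_cast <;> linarith
    · rcases hw with rfl | rfl | rfl <;> simp only [e, lvl, pen] <;> push_cast
      · linarith
      · rcases abs_cases ((1 : ℝ) - m) with ⟨q1, _⟩ | ⟨q1, _⟩ <;>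
        rcases abs_cases ((0 : ℝ) - m) with ⟨q2, _⟩ | ⟨q2, _⟩ <;> linarith
      · linarith
    · rcases hw with rfl | rfl | rfl <;> simp only [e, lvl, pen] <;> push_cast
      · rcases abs_cases ((n : ℝ) - m) with ⟨q1, _⟩ | ⟨q1, _⟩ <;>
        rcases abs_cases ((n : ℝ) + 1 - m) with ⟨q2, _⟩ | ⟨q2, _⟩ <;> linarith
      · rcases abs_cases ((n : ℝ) + 2 - m) with ⟨q1, _⟩ | ⟨q1, _⟩ <;>
        rcases abs_cases ((n : ℝ) + 1 - m) with ⟨q2, _⟩ | ⟨q2, _⟩ <;> linarith
      · linarith
    · rcases hw with rfl | rfl | rfl <;> simp only [e, lvl, pen] <;> push_cast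
      · linarith
      · linarith
      · rcases abs_cases ((1 : ℝ) - m) with ⟨q1, _⟩ | ⟨q1, _⟩ <;>
        rcases abs_cases ((0 : ℝ) - m) with ⟨q2, _⟩ | ⟨q2, _⟩ <;> linarith
    · rcases hw with rfl | rfl | rfl | rfl <;> simp only [e, lvl, pen] <;> push_cast
      · linarith
      · linarith
      · rcases abs_cases ((n : ℝ) - m) with ⟨q1, _⟩ | ⟨q1, _⟩ <;>
        rcases abs_cases ((n : ℝ) + 1 - m) with ⟨q2, _⟩ | ⟨q2, _⟩ <;> linarith
      · rcases abs_cases ((n : ℝ) + 2 - m) with ⟨q1, _⟩ | ⟨q1, _⟩ <;>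
        rcases abs_cases ((n : ℝ) + 1 - m) with ⟨q2, _⟩ | ⟨q2, _⟩ <;> linarith
    · subst hw
      simp only [e, lvl, pen]
      linarith
  -- left targets
  have key2 : ∀ j : ℕ, |w.e - 10 * (j + 1)| + w.rgt ≤ |t.e - 10 * (j + 1)| + t.rgt + 10 := by
    intro j
    have hj : (0 : ℝ) ≤ j := by positivity
    rcases t with (_ | k) | (_ | n) | (_ | n) | n <;>
      simp only [nbrs, Finset.mem_insert, Finset.mem_singleton] at hw
    · rcases hw with rfl | rfl <;> simp only [e, rgt] <;> push_cast
      · rcases abs_cases ((0 : ℝ) - 10 * (j + 1)) with ⟨q1, _⟩ | ⟨q1, _⟩ <;>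
        rcases abs_cases ((10 : ℝ) * (0 + 1) - 10 * (j + 1)) with ⟨q2, _⟩ | ⟨q2, _⟩ <;> linarith
      · rcases abs_cases ((10 : ℝ) * (1 + 1) - 10 * (j + 1)) with ⟨q1, _⟩ | ⟨q1, _⟩ <;>
        rcases abs_cases ((10 : ℝ) * (0 + 1) - 10 * (j + 1)) with ⟨q2, _⟩ | ⟨q2, _⟩ <;> linarith
    · rcases hw with rfl | rfl <;> simp only [e, rgt] <;> push_cast
      · rcases abs_cases ((10 : ℝ) * (k + 1) - 10 * (j + 1)) with ⟨q1, _⟩ | ⟨q1, _⟩ <;>
        rcases abs_cases ((10 : ℝ) * (k + 1 + 1) - 10 * (j + 1)) with ⟨q2, _⟩ | ⟨q2, _⟩ <;>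
        linarith
      · rcases abs_cases ((10 : ℝ) * (k + 2 + 1) - 10 * (j + 1)) with ⟨q1, _⟩ | ⟨q1, _⟩ <;>
        rcases abs_cases ((10 : ℝ) * (k + 1 + 1) - 10 * (j + 1)) with ⟨q2, _⟩ | ⟨q2, _⟩ <;>
        linarith
    · rcases hw with rfl | rfl | rfl <;> simp only [e, rgt] <;> push_cast
      · rcases abs_cases ((0 : ℝ) - 10 * (j + 1)) with ⟨q1, _⟩ | ⟨q1, _⟩ <;>
        rcases abs_cases ((10 : ℝ) * (0 + 1) - 10 * (j + 1)) with ⟨q2, _⟩ | ⟨q2, _⟩ <;> linarith
      · linarith
      · linarith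
    · rcases hw with rfl | rfl | rfl
      · cases n <;> simp only [e, rgt] <;> push_cast <;> linarith
      · simp only [e, rgt]; push_cast; linarith
      · simp only [e, rgt]; push_cast; linarith
    · rcases hw with rfl | rfl | rfl <;> simp only [e, rgt] <;> push_cast <;> linarith
    · rcases hw with rfl | rfl | rfl | rfl <;> simp only [e, rgt] <;> push_cast <;> linarith
    · subst hw
      simp only [e, rgt]
      linarith
  cases t' with
  | A j => exact key2 j
  | B m => exact key1 m
  | G m => exact key1 m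
  | L m => exact key1 m

theorem sum_A0 (f : Base → ℝ) : ∑ w ∈ (A 0).nbrs, f w = f (B 0) + f (A 1) := by
  simp only [nbrs]
  rw [Finset.sum_pair (by simp)]

theorem sum_A (k : ℕ) (f : Base → ℝ) :
    ∑ w ∈ (A (k + 1)).nbrs, f w = f (A k) + f (A (k + 2)) := by
  simp only [nbrs]
  rw [Finset.sum_pair (by simp)]

theorem sum_B0 (f : Base → ℝ) : ∑ w ∈ (B 0).nbrs, f w = f (A 0) + f (B 1) + f (G 0) := by
  simp only [nbrs]
  rw [Finset.sum_insert (by simp), Finset.sum_pair (by simp)]
  ring

theorem sum_B (n : ℕ) (f : Base → ℝ) :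
    ∑ w ∈ (B (n + 1)).nbrs, f w = f (B n) + f (B (n + 2)) + f (G (n + 1)) := by
  simp only [nbrs]
  rw [Finset.sum_insert (by simp), Finset.sum_pair (by simp)]
  ring

theorem sum_G0 (f : Base → ℝ) : ∑ w ∈ (G 0).nbrs, f w = f (B 0) + f (L 0) + f (G 1) := by
  simp only [nbrs]
  rw [Finset.sum_insert (by simp), Finset.sum_pair (by simp)]
  ring

theorem sum_G (n : ℕ) (f : Base → ℝ) :
    ∑ w ∈ (G (n + 1)).nbrs, f w =
      f (B (n + 1)) + f (L (n + 1)) + f (G n) + f (G (n + 2)) := by
  simp only [nbrs]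
  rw [Finset.sum_insert (by simp), Finset.sum_insert (by simp), Finset.sum_pair (by simp)]
  ring

theorem sum_L (n : ℕ) (f : Base → ℝ) : ∑ w ∈ (L n).nbrs, f w = f (G n) := by
  simp only [nbrs, Finset.sum_singleton]

/-- `psi` for a target of level `m` on the right side -/
noncomputable def psiR (m : ℕ) (t : Base) : ℝ := t.e + |(t.lvl : ℝ) - m| + t.pen

/-- `cop` for a target of level `m` on the right side -/
def copR (m : ℕ) : Base → Base
  | A 0 => B 0
  | A (k + 1) => A k
  | B n => G n
  | G n => if n < m then G (n + 1) else (match n with | 0 => B 0 | n + 1 => G n)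
  | L n => G n

/-- The drift of the cop's walk for a target on the right side. -/
theorem drift_right (m : ℕ) (t : Base) (ht : t ≠ G m) :
    ∃ s β : ℝ, psiR m (copR m t) ≤ psiR m t - s ∧
      ∑ w ∈ t.nbrs, (w.size : ℝ) * psiR m w ≤
        (psiR m t + β) * ∑ w ∈ t.nbrs, (w.size : ℝ) ∧
      12 / 100 ≤ 3 / 10 * s - 698 / 1000 * β := by
  rcases t with (_ | k) | (_ | n) | (_ | n) | n
  · refine ⟨10, 0, ?_, ?_, by norm_num⟩
    · simp only [copR, psiR, e, lvl, pen]; push_cast; linarith
    · rw [sum_A0, sum_A0]; simp only [psiR, size, e, lvl, pen]; push_cast; linarith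
  · refine ⟨10, 0, ?_, ?_, by norm_num⟩
    · simp only [copR, psiR, e, lvl, pen]; push_cast; linarith
    · rw [sum_A, sum_A]; simp only [psiR, size, e, lvl, pen]; push_cast; linarith
  · refine ⟨5, 3 / 2, ?_, ?_, by norm_num⟩
    · simp only [copR, psiR, e, lvl, pen]; push_cast; linarith
    · rw [sum_B0, sum_B0]; simp only [psiR, size, e, lvl, pen]; push_cast
      rcases abs_cases ((1 : ℝ) - m) with ⟨q1, _⟩ | ⟨q1, _⟩ <;>
        rcases abs_cases ((0 : ℝ) - m) with ⟨q2, _⟩ | ⟨q2, _⟩ <;> linarith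
  · refine ⟨5, 1, ?_, ?_, by norm_num⟩
    · simp only [copR, psiR, e, lvl, pen]; push_cast; linarith
    · rw [sum_B, sum_B]; simp only [psiR, size, e, lvl, pen]; push_cast
      have h4 : (0 : ℝ) < 4 ^ n := by positivity
      have q1 : |(n : ℝ) - m| ≤ |(n : ℝ) + 1 - m| + 1 := by
        rcases abs_cases ((n : ℝ) - m) with ⟨q1, _⟩ | ⟨q1, _⟩ <;>
        rcases abs_cases ((n : ℝ) + 1 - m) with ⟨q2, _⟩ | ⟨q2, _⟩ <;> linarith
      have q2 : |(n : ℝ) + 2 - m| ≤ |(n : ℝ) + 1 - m| + 1 := by
        rcases abs_cases ((n : ℝ) + 2 - m) with ⟨q1, _⟩ | ⟨q1, _⟩ <;>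
        rcases abs_cases ((n : ℝ) + 1 - m) with ⟨q2, _⟩ | ⟨q2, _⟩ <;> linarith
      have e1 : (4 : ℝ) ^ (n + 2) = 16 * 4 ^ n := by ring
      rw [e1]
      nlinarith [mul_le_mul_of_nonneg_left q1 h4.le, mul_le_mul_of_nonneg_left q2 h4.le]
  · have hm : (1 : ℝ) ≤ m := by
      have : 0 < m := by
        rcases Nat.eq_zero_or_pos m with h | h
        · exact absurd (by rw [h]) ht
        · exact h
      exact_mod_cast this
    refine ⟨1, 13 / 64, ?_, ?_, by norm_num⟩
    · have : 0 < m := by exact_mod_cast hm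
      simp only [copR, if_pos this, psiR, e, lvl, pen]; push_cast
      rcases abs_cases ((1 : ℝ) - m) with ⟨q1, _⟩ | ⟨q1, _⟩ <;>
        rcases abs_cases ((0 : ℝ) - m) with ⟨q2, _⟩ | ⟨q2, _⟩ <;>
        simp only [zero_add] <;> linarith
    · rw [sum_G0, sum_G0]; simp only [psiR, size, e, lvl, pen]; push_cast
      rcases abs_cases ((1 : ℝ) - m) with ⟨q1, _⟩ | ⟨q1, _⟩ <;>
        rcases abs_cases ((0 : ℝ) - m) with ⟨q2, _⟩ | ⟨q2, _⟩ <;> linarith
  · have hne : n + 1 ≠ m := fun h => ht (by rw [h])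
    have h4 : (1 : ℝ) ≤ 4 ^ (n + 1) := one_le_pow₀ (by norm_num)
    refine ⟨1, 13 / 64, ?_, ?_, by norm_num⟩
    · rcases lt_or_gt_of_ne hne with h | h
      · simp only [copR, if_pos h, psiR, e, lvl, pen]; push_cast
        have h' : (n : ℝ) + 1 + 1 ≤ m := by exact_mod_cast h
        rw [abs_of_nonpos (by linarith), abs_of_nonpos (by linarith)]
        linarith
      · simp only [copR, if_neg (not_lt.2 h.le), psiR, e, lvl, pen]; push_cast
        have h' : (m : ℝ) ≤ n := by exact_mod_cast Nat.lt_succ_iff.1 h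
        rw [abs_of_nonneg (by linarith), abs_of_nonneg (by linarith)]
        linarith
    · rw [sum_G, sum_G]; simp only [psiR, size, e, lvl, pen]; push_cast
      rcases lt_or_gt_of_ne hne with h | h
      · have h' : (n : ℝ) + 1 + 1 ≤ m := by exact_mod_cast h
        rw [abs_of_nonpos (by linarith : (n : ℝ) + 1 - m ≤ 0),
          abs_of_nonpos (by linarith : (n : ℝ) - m ≤ 0),
          abs_of_nonpos (by linarith : (n : ℝ) + 2 - m ≤ 0)]
        nlinarith
      · have h' : (m : ℝ) ≤ n := by exact_mod_cast Nat.lt_succ_iff.1 h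
        rw [abs_of_nonneg (by linarith : 0 ≤ (n : ℝ) + 1 - m),
          abs_of_nonneg (by linarith : 0 ≤ (n : ℝ) - m),
          abs_of_nonneg (by linarith : 0 ≤ (n : ℝ) + 2 - m)]
        nlinarith
  · refine ⟨1 / 8, - (1 / 8), ?_, ?_, by norm_num⟩
    · simp only [copR, psiR, e, lvl, pen]; linarith
    · rw [sum_L, sum_L]; simp only [psiR, size, e, lvl, pen]; push_cast; linarith

/-- The drift of the cop's walk for a target on the left ray. -/
theorem drift_left (j : ℕ) (t : Base) (ht : t ≠ A j) :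
    ∃ s β : ℝ, psi (cop t (A j)) (A j) ≤ psi t (A j) - s ∧
      ∑ w ∈ t.nbrs, (w.size : ℝ) * psi w (A j) ≤
        (psi t (A j) + β) * ∑ w ∈ t.nbrs, (w.size : ℝ) ∧
      12 / 100 ≤ 3 / 10 * s - 698 / 1000 * β := by
  have hj : (0 : ℝ) ≤ j := by positivity
  rcases t with (_ | k) | (_ | n) | (_ | n) | n
  · have hj1 : 0 < j := by
      rcases Nat.eq_zero_or_pos j with h | h
      · exact absurd (by rw [h]) ht
      · exact h
    have hj2 : (1 : ℝ) ≤ j := by exact_mod_cast hj1
    refine ⟨10, 0, ?_, ?_, by norm_num⟩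
    · simp only [cop, if_pos hj1, psi, e, rgt]; push_cast
      rw [abs_of_nonpos (by linarith), abs_of_nonpos (by linarith)]
      linarith
    · rw [sum_A0, sum_A0]; simp only [psi, size, e, rgt]; push_cast
      rw [abs_of_nonpos (by linarith : (0 : ℝ) - 10 * (j + 1) ≤ 0),
        abs_of_nonpos (by linarith : (10 : ℝ) * (1 + 1) - 10 * (j + 1) ≤ 0),
        abs_of_nonpos (by linarith : (10 : ℝ) * (0 + 1) - 10 * (j + 1) ≤ 0)]
      linarith
  · have hne : k + 1 ≠ j := fun h => ht (by rw [h])
    refine ⟨10, 0, ?_, ?_, by norm_num⟩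
    · rcases lt_or_gt_of_ne hne with h | h
      · simp only [cop, if_pos h, psi, e, rgt]; push_cast
        have h' : (k : ℝ) + 1 + 1 ≤ j := by exact_mod_cast h
        rw [abs_of_nonpos (by linarith), abs_of_nonpos (by linarith)]
        linarith
      · simp only [cop, if_neg (not_lt.2 h.le), psi, e, rgt]; push_cast
        have h' : (j : ℝ) ≤ k := by exact_mod_cast Nat.lt_succ_iff.1 h
        rw [abs_of_nonneg (by linarith), abs_of_nonneg (by linarith)]
        linarith
    · rw [sum_A, sum_A]; simp only [psi, size, e, rgt]; push_cast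
      rcases lt_or_gt_of_ne hne with h | h
      · have h' : (k : ℝ) + 1 + 1 ≤ j := by exact_mod_cast h
        rw [abs_of_nonpos (by linarith : (10 : ℝ) * (k + 1) - 10 * (j + 1) ≤ 0),
          abs_of_nonpos (by linarith : (10 : ℝ) * (k + 2 + 1) - 10 * (j + 1) ≤ 0),
          abs_of_nonpos (by linarith : (10 : ℝ) * (k + 1 + 1) - 10 * (j + 1) ≤ 0)]
        linarith
      · have h' : (j : ℝ) ≤ k := by exact_mod_cast Nat.lt_succ_iff.1 h
        rw [abs_of_nonneg (by linarith : 0 ≤ (10 : ℝ) * (k + 1) - 10 * (j + 1)),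
          abs_of_nonneg (by linarith : 0 ≤ (10 : ℝ) * (k + 2 + 1) - 10 * (j + 1)),
          abs_of_nonneg (by linarith : 0 ≤ (10 : ℝ) * (k + 1 + 1) - 10 * (j + 1))]
        linarith
  · refine ⟨10, 19 / 6, ?_, ?_, by norm_num⟩
    · simp only [cop, psi, e, rgt]; push_cast
      rw [abs_of_nonpos (by linarith), abs_of_nonpos (by linarith)]
      linarith
    · rw [sum_B0, sum_B0]; simp only [psi, size, e, rgt]; push_cast
      rw [abs_of_nonpos (by linarith : (0 : ℝ) - 10 * (j + 1) ≤ 0),
        abs_of_nonpos (by linarith : (10 : ℝ) * (0 + 1) - 10 * (j + 1) ≤ 0)]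
      linarith
  · refine ⟨5, 1, ?_, ?_, by norm_num⟩
    · simp only [cop, psi, e, rgt]; push_cast; linarith
    · rw [sum_B, sum_B]
      have h4 : (0 : ℝ) < 4 ^ n := by positivity
      have hn : (0 : ℝ) ≤ n := by positivity
      have e1 : (4 : ℝ) ^ (n + 2) = 16 * 4 ^ n := by ring
      have hB : rgt (B n) ≤ n + 6 := by
        cases n <;> simp only [rgt] <;> push_cast <;> linarith
      simp only [psi, size, e]; push_cast
      have hB1 : rgt (B (n + 1)) = n + 7 := by simp only [rgt]
      have hB2 : rgt (B (n + 2)) = n + 8 := by simp only [rgt]; push_cast; ring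
      have hG : rgt (G (n + 1)) = n + 2 := by simp only [rgt]; push_cast; ring
      rw [hB1, hB2, hG, e1]
      nlinarith [mul_le_mul_of_nonneg_left hB h4.le]
  · refine ⟨1, 13 / 64, ?_, ?_, by norm_num⟩
    · simp only [cop, psi, e, rgt]; push_cast; linarith
    · rw [sum_G0, sum_G0]; simp only [psi, size, e, rgt]; push_cast; linarith
  · have h4 : (1 : ℝ) ≤ 4 ^ (n + 1) := one_le_pow₀ (by norm_num)
    refine ⟨1, 13 / 64, ?_, ?_, by norm_num⟩
    · simp only [cop, psi, e, rgt]; push_cast; linarith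
    · rw [sum_G, sum_G]; simp only [psi, size, e, rgt]; push_cast
      nlinarith
  · refine ⟨1 / 8, - (1 / 8), ?_, ?_, by norm_num⟩
    · simp only [cop, psi, e, rgt]; linarith
    · rw [sum_L, sum_L]; simp only [psi, size, e, rgt]; push_cast; linarith

theorem drift (t t' : Base) (h1 : t' ∉ t.nbrs) (h2 : t = t' → 1 < t.size) :
    ∃ s β : ℝ, psi (cop t t') t' ≤ psi t t' - s ∧
      ∑ w ∈ t.nbrs, (w.size : ℝ) * psi w t' ≤
        (psi t t' + β) * ∑ w ∈ t.nbrs, (w.size : ℝ) ∧
      12 / 100 ≤ 3 / 10 * s - 698 / 1000 * β := by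
  cases t' with
  | A j =>
    refine drift_left j t fun h => ?_
    have := h2 h
    rw [h] at this
    simp [size] at this
  | B m =>
    have hc : cop t (B m) = copR m t := by
      rcases t with (_ | k) | (_ | n) | (_ | n) | n <;> rfl
    rw [hc]
    refine drift_right m t fun h => h1 ?_
    subst h
    cases m <;> simp [nbrs]
  | G m =>
    have hc : cop t (G m) = copR m t := by
      rcases t with (_ | k) | (_ | n) | (_ | n) | n <;> rfl
    rw [hc]
    refine drift_right m t fun h => ?_
    have := h2 h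
    rw [h] at this
    simp [size] at this
  | L m =>
    have hc : cop t (L m) = copR m t := by
      rcases t with (_ | k) | (_ | n) | (_ | n) | n <;> rfl
    rw [hc]
    refine drift_right m t fun h => h1 ?_
    subst h
    cases m <;> simp [nbrs]

end Base

/-- a vertex of each type -/
def vtx (t : Base) : Vtx := ⟨t, ⟨0, t.size_pos⟩⟩

/-- The winning strategy of the cop. -/
def copStrategy : CopStrategy ladder where
  move _ u v := if v.1 ∈ u.1.nbrs then v else vtx (Base.cop u.1 v.1)
  legal s u v := by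
    right
    split_ifs with h
    · exact h
    · exact Base.cop_mem u.1 v.1

/-- The Lyapunov function. -/
noncomputable def lyap (u v : Vtx) : ℝ := if u = v then 0 else 24 + Base.psi u.1 v.1

theorem lyap_nonneg (u v : Vtx) : 0 ≤ lyap u v := by
  unfold lyap
  have := Base.psi_nonneg u.1 v.1
  split_ifs <;> positivity

theorem lyap_le (u v : Vtx) : lyap u v ≤ 24 + Base.psi u.1 v.1 := by
  unfold lyap
  have := Base.psi_nonneg u.1 v.1
  split_ifs
  · positivity
  · exact le_rfl

/-- The parameters of the game. -/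
noncomputable def params : Params where
  c := 300 / 1000
  r := 1 / 1000
  tc := 698 / 1000
  tr := 1 / 1000
  sum_eq_one := by
    rw [← NNReal.coe_inj]
    push_cast
    norm_num

theorem cop_wins (x₀ : Position Vtx) : Winning ladder params x₀ copStrategy := by
  refine winning_of_drift_real ladder ladder_nbrs_nonempty params copStrategy x₀ lyap lyap_nonneg
    (fun u => by simp [lyap]) (8 / 100) (by norm_num) ?_
  intro s u v v' huv hv'
  have ec : (params.c : ℝ) = 300 / 1000 := by simp [params]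
  have er : (params.r : ℝ) = 1 / 1000 := by simp [params]
  have etc' : (params.tc : ℝ) = 698 / 1000 := by simp [params]
  have etr : (params.tr : ℝ) = 1 / 1000 := by simp [params]
  rw [ec, er, etc', etr]
  have hL : lyap u v = 24 + Base.psi u.1 v.1 := by simp [lyap, huv]
  have hpsi := Base.psi_nonneg u.1 v.1
  have h1 : lyap u v' ≤ 24 + Base.psi u.1 v.1 + 16 := by
    have := Base.psi_robber u.1 v.1 v'.1 hv'
    have := lyap_le u v'
    linarith
  have h2 : (∑ w ∈ ladder.neighborFinset v, lyap u w) / ladder.degree v ≤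
      24 + Base.psi u.1 v.1 + 16 := by
    refine avg_le' v (fun w => lyap u w) _ fun w hw => ?_
    have := Base.psi_robber u.1 v.1 w.1 hw
    have := lyap_le u w
    linarith
  by_cases hadj : v.1 ∈ u.1.nbrs
  · have h3 : (∑ w ∈ ladder.neighborFinset u, lyap w v) / ladder.degree u ≤
        24 + Base.psi u.1 v.1 + 10 := by
      refine avg_le' u (fun w => lyap w v) _ fun w hw => ?_
      have := Base.psi_cop u.1 v.1 w.1 hw
      have := lyap_le w v
      linarith
    have h4 : lyap (copStrategy.move s u v) v = 0 := by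
      simp [copStrategy, hadj, lyap]
    rw [h4, hL]
    linarith
  · have hsize : u.1 = v.1 → 1 < u.1.size := by
      intro h
      by_contra hcon
      apply huv
      have h5 : u.1.size = 1 := by
        have := u.1.size_pos
        omega
      rcases u with ⟨tu, iu⟩
      rcases v with ⟨tv, iv⟩
      simp only at h h5
      subst h
      have : iu = iv := by
        apply Fin.ext
        have := iu.2
        have := iv.2
        omega
      rw [this]
    obtain ⟨a, β, ha, hβ, hab⟩ := Base.drift u.1 v.1 hadj hsize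
    have h3 : (∑ w ∈ ladder.neighborFinset u, lyap w v) / ladder.degree u ≤
        24 + Base.psi u.1 v.1 + β := by
      refine avg_le u (fun w => lyap w v) (fun t => 24 + Base.psi t v.1) _
        (fun t ht i => lyap_le _ _) ?_
      simp only [mul_add, Finset.sum_add_distrib]
      rw [← Finset.sum_mul]
      linarith
    have h4 : lyap (copStrategy.move s u v) v ≤ 24 + Base.psi u.1 v.1 - a := by
      simp only [copStrategy, if_neg hadj]
      have := lyap_le (vtx (Base.cop u.1 v.1)) v
      simp only [vtx] at this ⊢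
      linarith
    rw [hL]
    linarith

/-! ### Distances -/

theorem reachable_B0 (x : Vtx) : ladder.Reachable x (vtx (.B 0)) := by
  have hB : ∀ n i, ladder.Reachable (⟨.B n, i⟩ : Vtx) (vtx (.B 0)) := by
    intro n
    induction n with
    | zero =>
      intro i
      have : (⟨.B 0, i⟩ : Vtx) = vtx (.B 0) := by
        have hs : Subsingleton (Fin (Base.B 0).size) :=
          inferInstanceAs (Subsingleton (Fin 1))
        rw [hs.elim i ⟨0, Base.size_pos _⟩]; rfl
      rw [this]
    | succ n ih =>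
      intro i
      have h1 : ladder.Adj (⟨.B (n + 1), i⟩ : Vtx) (vtx (.B n)) := by
        simp [ladder_adj, vtx, Base.nbrs]
      exact h1.reachable.trans (ih _)
  have hG : ∀ n i, ladder.Reachable (⟨.G n, i⟩ : Vtx) (vtx (.B 0)) := by
    intro n i
    have h1 : ladder.Adj (⟨.G n, i⟩ : Vtx) (vtx (.B n)) := by
      cases n <;> simp [ladder_adj, vtx, Base.nbrs]
    exact h1.reachable.trans (hB _ _)
  have hA : ∀ k i, ladder.Reachable (⟨.A k, i⟩ : Vtx) (vtx (.B 0)) := by
    intro k
    induction k with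
    | zero =>
      intro i
      have h1 : ladder.Adj (⟨.A 0, i⟩ : Vtx) (vtx (.B 0)) := by
        simp [ladder_adj, vtx, Base.nbrs]
      exact h1.reachable
    | succ k ih =>
      intro i
      have h1 : ladder.Adj (⟨.A (k + 1), i⟩ : Vtx) (vtx (.A k)) := by
        simp [ladder_adj, vtx, Base.nbrs]
      exact h1.reachable.trans (ih _)
  rcases x with ⟨k | n | n | n, i⟩
  · exact hA k i
  · exact hB n i
  · exact hG n i
  · have h1 : ladder.Adj (⟨.L n, i⟩ : Vtx) (vtx (.G n)) := by
      simp [ladder_adj, vtx, Base.nbrs]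
    exact h1.reachable.trans (hG _ _)

theorem ladder_connected : ladder.Connected where
  preconnected x y := (reachable_B0 x).trans (reachable_B0 y).symm
  nonempty := ⟨vtx (.B 0)⟩

/-- The distance to `A k`. -/
def Base.dd (k : ℕ) : Base → ℕ
  | .A j => (j - k) + (k - j)
  | .B n => n + k + 1
  | .G n => n + k + 2
  | .L n => n + k + 3

theorem Base.dd_le (k : ℕ) (t w : Base) (hw : w ∈ t.nbrs) : t.dd k ≤ w.dd k + 1 := by
  rcases t with (_ | j) | (_ | n) | (_ | n) | n <;>
    simp only [nbrs, Finset.mem_insert, Finset.mem_singleton] at hw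
  · rcases hw with rfl | rfl <;> simp only [dd] <;> omega
  · rcases hw with rfl | rfl <;> simp only [dd] <;> omega
  · rcases hw with rfl | rfl | rfl <;> simp only [dd] <;> omega
  · rcases hw with rfl | rfl | rfl <;> simp only [dd] <;> omega
  · rcases hw with rfl | rfl | rfl <;> simp only [dd] <;> omega
  · rcases hw with rfl | rfl | rfl | rfl <;> simp only [dd] <;> omega
  · subst hw; simp only [dd]; omega

theorem dd_le_length (k : ℕ) {x y : Vtx} (p : ladder.Walk x y) :
    x.1.dd k ≤ y.1.dd k + p.length := by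
  induction p with
  | nil => simp
  | cons h p ih =>
    have := Base.dd_le k _ _ h
    simp only [SimpleGraph.Walk.length_cons]
    omega

theorem dd_le_dist (k : ℕ) (x : Vtx) (i : Fin (Base.A k).size) :
    x.1.dd k ≤ ladder.dist x ⟨.A k, i⟩ := by
  obtain ⟨p, hp⟩ := ladder_connected.exists_walk_length_eq_dist x ⟨.A k, i⟩
  have := dd_le_length k p
  rw [hp] at this
  simpa [Base.dd] using this

theorem dist_B_le (n k : ℕ) (i : Fin (Base.B n).size) (j : Fin (Base.A k).size) :
    ladder.dist ⟨.B n, i⟩ ⟨.A k, j⟩ ≤ n + k + 1 := by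
  have h1 : ∀ n : ℕ, ∀ i : Fin (Base.B n).size, ∀ y : Vtx,
      ladder.dist ⟨.B n, i⟩ y ≤ n + ladder.dist (vtx (.B 0)) y := by
    intro n
    induction n with
    | zero =>
      intro i y
      have : (⟨.B 0, i⟩ : Vtx) = vtx (.B 0) := by
        have hs : Subsingleton (Fin (Base.B 0).size) :=
          inferInstanceAs (Subsingleton (Fin 1))
        rw [hs.elim i ⟨0, Base.size_pos _⟩]; rfl
      rw [this]; omega
    | succ n ih =>
      intro i y
      have h1 : ladder.Adj (⟨.B (n + 1), i⟩ : Vtx) (vtx (.B n)) := by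
        simp [ladder_adj, vtx, Base.nbrs]
      have h2 := ladder_connected.dist_triangle (u := (⟨.B (n + 1), i⟩ : Vtx))
        (v := vtx (.B n)) (w := y)
      rw [SimpleGraph.dist_eq_one_iff_adj.2 h1] at h2
      have := ih ⟨0, Base.size_pos _⟩ y
      simp only [vtx] at h2 this ⊢
      omega
  have h2 : ∀ k : ℕ, ∀ j : Fin (Base.A k).size,
      ladder.dist (vtx (.B 0)) ⟨.A k, j⟩ ≤ k + 1 := by
    intro k
    induction k with
    | zero =>
      intro j
      have h1 : ladder.Adj (vtx (.B 0)) (⟨.A 0, j⟩ : Vtx) := by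
        simp [ladder_adj, vtx, Base.nbrs]
      rw [SimpleGraph.dist_eq_one_iff_adj.2 h1]
    | succ k ih =>
      intro j
      have h1 : ladder.Adj (vtx (.A k)) (⟨.A (k + 1), j⟩ : Vtx) := by
        cases k <;> simp [ladder_adj, vtx, Base.nbrs]
      have h2 := ladder_connected.dist_triangle (u := vtx (.B 0))
        (v := vtx (.A k)) (w := (⟨.A (k + 1), j⟩ : Vtx))
      rw [SimpleGraph.dist_eq_one_iff_adj.2 h1] at h2
      have := ih ⟨0, Base.size_pos _⟩
      simp only [vtx] at h2 this ⊢
      omega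
  have := h1 n i ⟨.A k, j⟩
  have := h2 k j
  omega

/-- A monotone cop at level `n + 1` of the thick ray can only stay or move to level `n`, if the
robber is on the left ray. -/
theorem monotone_move (σ : CopStrategy ladder) (hσ : IsMonotone ladder σ) (s n k : ℕ)
    (i : Fin (Base.B (n + 1)).size) (j : Fin (Base.A k).size) :
    (σ.move s ⟨.B (n + 1), i⟩ ⟨.A k, j⟩).1 = .B (n + 1) ∨
      (σ.move s ⟨.B (n + 1), i⟩ ⟨.A k, j⟩).1 = .B n := by
  have h1 := hσ s ⟨.B (n + 1), i⟩ ⟨.A k, j⟩
  have h2 := dist_B_le (n + 1) k i j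
  have h3 := dd_le_dist k (σ.move s ⟨.B (n + 1), i⟩ ⟨.A k, j⟩) j
  rcases σ.legal s ⟨.B (n + 1), i⟩ ⟨.A k, j⟩ with h | h
  · left; rw [h]
  · rw [ladder_adj] at h
    simp only [Base.nbrs, Finset.mem_insert, Finset.mem_singleton] at h
    rcases h with h | h | h
    · right; exact h
    · exfalso
      rw [h] at h3
      simp only [Base.dd] at h3
      omega
    · exfalso
      rw [h] at h3
      simp only [Base.dd] at h3
      omega

/-! ### The robber beats every monotone cop -/

/-- the moves of the robber -/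
def Base.rob : Base → Base
  | .A k => .A (k + 1)
  | .B 0 => .A 0
  | .B (n + 1) => .B n
  | .G 0 => .B 0
  | .G (n + 1) => .G n
  | .L n => .G n

/-- The strategy of the robber: run away along the left ray. -/
def robberStrategy : RobberStrategy ladder where
  move _ _ v := vtx v.1.rob
  legal _ _ v := by
    rcases v with ⟨(_ | k) | (_ | n) | (_ | n) | n, i⟩ <;>
      simp [ladder_adj, vtx, Base.rob, Base.nbrs]

/-- potential of the cop -/
noncomputable def Base.fc : Base → ℝ
  | .B (n + 2) => (3 / 4) ^ (n + 1)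
  | _ => 1

/-- potential of the robber -/
noncomputable def Base.fr : Base → ℝ
  | .A k => (1 / 2) ^ (k + 1)
  | _ => 1

theorem Base.fc_nonneg (t : Base) : 0 ≤ t.fc := by
  unfold fc; split <;> positivity

theorem Base.fr_nonneg (t : Base) : 0 ≤ t.fr := by
  unfold fr; split <;> positivity

theorem Base.fc_B (n : ℕ) : (Base.B (n + 1)).fc = (3 / 4) ^ n := by
  cases n <;> simp [fc]

theorem cop_loses (σ : CopStrategy ladder) (hσ : IsMonotone ladder σ) :
    ¬ Winning ladder params ⟨vtx (.B 4), vtx (.A 1)⟩ σ := by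
  have ec : (params.c : ℝ) = 300 / 1000 := by simp [params]
  have er : (params.r : ℝ) = 1 / 1000 := by simp [params]
  have etc' : (params.tc : ℝ) = 698 / 1000 := by simp [params]
  have etr : (params.tr : ℝ) = 1 / 1000 := by simp [params]
  refine not_winning_real ladder ladder_nbrs_nonempty params σ robberStrategy _ _
    (fun u v => (∃ n, u.1 = .B (n + 2)) ∧ ∃ k, v.1 = .A k) ?_
    (fun u v => u.1.fc + v.1.fr) (fun u v => add_nonneg u.1.fc_nonneg v.1.fr_nonneg)
    ⟨⟨2, rfl⟩, 1, rfl⟩ ?_ ?_ ?_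
  · rintro u v ⟨⟨n, hn⟩, k, hk⟩ h
    rw [h, hk] at hn
    cases hn
  · simp only [vtx, Base.fc, Base.fr]
    norm_num
  · intro u v h
    by_cases h1 : ∃ n, u.1 = .B (n + 2)
    · have h2 : ¬ ∃ k, v.1 = .A k := fun h2 => h ⟨h1, h2⟩
      have h3 : v.1.fr = 1 := by
        rcases v with ⟨k | n | n | n, i⟩
        · exact absurd ⟨k, rfl⟩ h2
        · rfl
        · rfl
        · rfl
      have := u.1.fc_nonneg
      linarith
    · have h3 : u.1.fc = 1 := by
        rcases u with ⟨k | (_ | _ | n) | n | n, i⟩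
        · rfl
        · rfl
        · rfl
        · exact absurd ⟨n, rfl⟩ h1
        · rfl
        · rfl
      have := v.1.fr_nonneg
      linarith
  · rintro s ⟨tu, iu⟩ ⟨tv, iv⟩ ⟨⟨n, hn⟩, k, hk⟩
    simp only at hn hk
    subst hn
    subst hk
    rw [ec, er, etc', etr]
    set q : ℝ := (3 / 4) ^ n with hq
    set h : ℝ := (1 / 2) ^ (k + 1) with hh
    have hq0 : 0 < q := by positivity
    have hh0 : 0 < h := by positivity
    have hfu : (Base.B (n + 2)).fc = 3 / 4 * q := by
      simp only [Base.fc, hq]; ring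
    have hfv : (Base.A k).fr = h := rfl
    have h1 : (σ.move s ⟨.B (n + 2), iu⟩ ⟨.A k, iv⟩).1.fc ≤ q := by
      rcases monotone_move σ hσ s (n + 1) k iu iv with h1 | h1
      · rw [h1]
        change (Base.B (n + 2)).fc ≤ q
        rw [hfu]
        linarith
      · rw [h1, Base.fc_B]
    have h2 : (robberStrategy.move s (⟨.B (n + 2), iu⟩ : Vtx) ⟨.A k, iv⟩).1.fr = h / 2 := by
      simp only [robberStrategy, vtx, Base.rob, Base.fr, hh]
      ring
    have h3 : (∑ w ∈ ladder.neighborFinset (⟨.B (n + 2), iu⟩ : Vtx),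
        (w.1.fc + (Base.A k).fr)) / ladder.degree (⟨.B (n + 2), iu⟩ : Vtx) ≤
        41 / 68 * q + h := by
      refine avg_le _ (fun w => w.1.fc + (Base.A k).fr) (fun t => t.fc + (Base.A k).fr) _
        (fun t _ i => le_rfl) ?_
      have h4 : (0 : ℝ) < 4 ^ (n + 1) := by positivity
      have e1 : (4 : ℝ) ^ (n + 3) = 16 * 4 ^ (n + 1) := by ring
      have e2 : 4 ≤ (4 : ℝ) ^ (n + 1) * q := by
        have e3 : (4 : ℝ) ^ (n + 1) * q = 4 * 3 ^ n := by
          rw [hq, pow_succ, mul_comm ((4 : ℝ) ^ n) 4, mul_assoc, ← mul_pow]; norm_num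
        rw [e3]
        have : (1 : ℝ) ≤ 3 ^ n := one_le_pow₀ (by norm_num)
        linarith
      have e4 : (Base.B (n + 1)).fc = q := Base.fc_B n
      have e5 : (Base.B (n + 3)).fc = 9 / 16 * q := by
        simp only [Base.fc, hq]; ring
      change ∑ t ∈ (Base.B (n + 1 + 1)).nbrs, (t.size : ℝ) * (t.fc + (Base.A k).fr) ≤
        (41 / 68 * q + h) * ∑ t ∈ (Base.B (n + 1 + 1)).nbrs, (t.size : ℝ)
      rw [Base.sum_B, Base.sum_B]
      change ((Base.B (n + 1)).size : ℝ) * ((Base.B (n + 1)).fc + (Base.A k).fr) +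
        ((Base.B (n + 3)).size : ℝ) * ((Base.B (n + 3)).fc + (Base.A k).fr) +
        ((Base.G (n + 2)).size : ℝ) * ((Base.G (n + 2)).fc + (Base.A k).fr) ≤
        (41 / 68 * q + h) * (((Base.B (n + 1)).size : ℝ) + ((Base.B (n + 3)).size : ℝ) +
          ((Base.G (n + 2)).size : ℝ))
      rw [e4, e5, hfv]
      have e6 : (Base.G (n + 2)).fc = 1 := rfl
      rw [e6]
      simp only [Base.size]
      push_cast
      rw [e1]
      nlinarith
    have h4 : (∑ w ∈ ladder.neighborFinset (⟨.A k, iv⟩ : Vtx),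
        ((Base.B (n + 2)).fc + w.1.fr)) / ladder.degree (⟨.A k, iv⟩ : Vtx) ≤
        3 / 4 * q + 5 / 4 * h := by
      refine avg_le _ (fun w => (Base.B (n + 2)).fc + w.1.fr)
        (fun t => (Base.B (n + 2)).fc + t.fr) _ (fun t _ i => le_rfl) ?_
      rw [hfu]
      cases k with
      | zero =>
        change ∑ t ∈ (Base.A 0).nbrs, (t.size : ℝ) * (3 / 4 * q + t.fr) ≤
          (3 / 4 * q + 5 / 4 * h) * ∑ t ∈ (Base.A 0).nbrs, (t.size : ℝ)
        rw [Base.sum_A0, Base.sum_A0]
        simp only [Base.size, Base.fr, hh]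
        push_cast
        norm_num
        linarith
      | succ k =>
        change ∑ t ∈ (Base.A (k + 1)).nbrs, (t.size : ℝ) * (3 / 4 * q + t.fr) ≤
          (3 / 4 * q + 5 / 4 * h) * ∑ t ∈ (Base.A (k + 1)).nbrs, (t.size : ℝ)
        rw [Base.sum_A, Base.sum_A]
        have e1 : (Base.A k).fr = 2 * h := by simp only [Base.fr, hh]; ring
        have e2 : (Base.A (k + 2)).fr = 1 / 2 * h := by simp only [Base.fr, hh]; ring
        rw [e1, e2]
        simp only [Base.size]
        push_cast
        linarith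
    simp only
    rw [h2, hfu, hfv] at *
    linarith

end Pool.Agent.Helper95.Tipsy
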